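import Pool.Agent.Helper92.LA.A3

/-!
# LA-B1: the moment theorem gives bounds for almost every frame (Borel-Cantelli in the form of a convergent series)
-/

open MeasureTheory Real Set Filter Topology

set_option autoImplicit false

namespace Pool.Agent.Helper92.LA

open Pool.Agent.Helper22.AE
open Pool.Agent.Helper92.GC (sqa)
open Pool.Agent.Helper92.DT (m12 m12_nonneg)
open Pool.Agent.Helper22.LP (Fr fv fk fdet nr tr hom LS nr_eq)

/-- the moment theorem for the class `P` of phases -/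
def MomP (P : (ℝ × ℝ → ℝ) → Prop) : Prop := ∀ ε : ℝ, 0 < ε → ∀ U : Set Fr, IsCompact U → (∀ f ∈ U, 0 < fdet f) →
  ∃ C : ℝ, ∀ h, P h → ∀ X : ℝ, 1 ≤ X → ∀ n : ℕ, (2 : ℝ) ^ n ≤ X → ∫ f in U, JJ f h X (2 ^ n) ≤ C * (X ^ (1 + ε) * MB X (2 ^ n))

theorem fk_cont (k : ℤ × ℤ) : Continuous fun f : Fr => fk f k := by
  unfold fk fv
  fun_prop

theorem fdet_cont : Continuous fun f : Fr => fdet f := by
  unfold fdet
  fun_prop

theorem JJ_cont {h : ℝ → ℝ × ℝ → ℝ} (hc : Continuous fun q : ℝ × (ℝ × ℝ) => h q.1 q.2) (X : ℝ) (N : ℕ) :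
    Continuous fun q : Fr × ℝ => JJ q.1 (h q.2) X N := by
  unfold JJ
  refine continuous_parametric_integral_of_continuous
    (f := fun (q : Fr × ℝ) (r : ℝ) => m12 (sqa N) (fun k => ee (r * h q.2 (fk q.1 k)))) ?_ isCompact_Icc
  unfold Function.uncurry
  refine m12_cont_coef (sqa N) (fun (q : (Fr × ℝ) × ℝ) k => ee (q.2 * h q.1.2 (fk q.1.1 k))) fun k _ => ?_
  refine ee_cont.comp (continuous_snd.mul ?_)
  exact hc.comp ((continuous_snd.comp continuous_fst).prodMk ((fk_cont k).comp (continuous_fst.comp continuous_fst)))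

theorem MB_pos {X N : ℝ} (hX : 0 < X) (hN : 0 < N) : 0 < MB X N := by
  unfold MB
  positivity

/-- compact exhaustion of the frames with positive determinant -/
def UU (m : ℕ) : Set Fr := {f | ‖f‖ ≤ m ∧ 1 ≤ m * fdet f}

theorem UU_compact (m : ℕ) : IsCompact (UU m) := by
  have h1 : UU m = Metric.closedBall (0 : Fr) m ∩ {f | 1 ≤ m * fdet f} := by
    ext f
    unfold UU
    rw [mem_inter_iff, mem_closedBall_zero_iff]
    rfl
  rw [h1]
  refine (isCompact_closedBall _ _).inter_right ?_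
  exact isClosed_le continuous_const (continuous_const.mul fdet_cont)

theorem UU_pos {m : ℕ} {f : Fr} (hf : f ∈ UU m) : 0 < fdet f := by
  obtain ⟨-, h⟩ := hf
  by_contra hn
  push Not at hn
  have := mul_nonpos_of_nonneg_of_nonpos (Nat.cast_nonneg m : (0 : ℝ) ≤ m) hn
  linarith

theorem UU_exh {f : Fr} (hf : 0 < fdet f) : ∃ m : ℕ, f ∈ UU m := by
  obtain ⟨m, hm⟩ := exists_nat_ge (max ‖f‖ (1 / fdet f))
  refine ⟨m, (le_max_left _ _).trans hm, ?_⟩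
  have h1 := (le_max_right ‖f‖ (1 / fdet f)).trans hm
  rw [div_le_iff₀ hf] at h1
  exact h1

private theorem geo92 {r : ℝ} (hr : 0 ≤ r) (hr1 : r < 1) (A : ℝ) : ∑' p : ℕ, ENNReal.ofReal (((p : ℝ) + 1) * (A * r ^ p)) < ⊤ := by
  have h1 : ‖r‖ < 1 := by rwa [norm_of_nonneg hr]
  have h2 := summable_pow_mul_geometric_of_norm_lt_one 1 h1
  have h3 := summable_pow_mul_geometric_of_norm_lt_one 0 h1
  have h4 : Summable fun p : ℕ => ((p : ℝ) + 1) * (A * r ^ p) := by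
    refine ((h2.add h3).mul_left A).congr fun p => ?_
    ring
  exact h4.tsum_ofReal_lt_top

/-- Borel-Cantelli, abstract form -/
private theorem bc92 {U : Set Fr} (hU : IsCompact U) {J : ℕ → ℕ → Fr → ℝ → ℝ} (hJ : ∀ p n, Continuous fun q : Fr × ℝ => J p n q.1 q.2)
    (hJ0 : ∀ p n f α, 0 ≤ J p n f α) {α₀ : ℝ} {κ : ℕ → ℕ → ℝ → ℝ}
    (hκ : ∀ p n, Continuous (κ p n)) (hκ0 : ∀ p n α, 0 ≤ κ p n α) {K : ℝ} (hκ1 : ∀ p n, ∫ α in Icc (-α₀) α₀, κ p n α ≤ K)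
    {D : ℕ → ℕ → ℝ} (hD0 : ∀ p n, 0 < D p n) {C r : ℝ} (hC : 0 ≤ C) (hr : 0 ≤ r) (hr1 : r < 1)
    (hb : ∀ p n, n ≤ p → ∀ α ∈ Icc (-α₀) α₀, ∫ f in U, J p n f α ≤ C * (r ^ p * D p n)) :
    ∀ᵐ f ∂((volume : Measure Fr).restrict U), ∃ C : ℝ, 0 ≤ C ∧ ∀ p n : ℕ, n ≤ p →
      ∫ α in Icc (-α₀) α₀, κ p n α * J p n f α ≤ C * D p n := by
  obtain ⟨G, hG⟩ : ∃ G : ℕ → ℕ → Fr → ℝ, G = fun p n f => ∫ α in Icc (-α₀) α₀, κ p n α * J p n f α := ⟨_, rfl⟩
  have hcont : ∀ p n, Continuous fun q : Fr × ℝ => κ p n q.2 * J p n q.1 q.2 := fun p n =>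
    ((hκ p n).comp continuous_snd).mul (hJ p n)
  have hGc : ∀ p n, Continuous (G p n) := by
    intro p n
    rw [hG]
    exact continuous_parametric_integral_of_continuous
      (f := fun (f : Fr) (α : ℝ) => κ p n α * J p n f α) (hcont p n) isCompact_Icc
  have hG0 : ∀ p n f, 0 ≤ G p n f := by
    intro p n f
    rw [hG]
    exact integral_nonneg fun α => mul_nonneg (hκ0 p n α) (hJ0 _ _ _ _)
  have hGi : ∀ p n, IntegrableOn (G p n) U := fun p n => (hGc p n).continuousOn.integrableOn_compact hU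
  -- the integral over the frames
  have hint : ∀ p n, n ≤ p → ∫ f in U, G p n f / D p n ≤ K * C * r ^ p := by
    intro p n hn
    have hK : 0 ≤ K := (integral_nonneg (hκ0 p n)).trans (hκ1 p n)
    have h1 : ∫ f in U, G p n f = ∫ α in Icc (-α₀) α₀, κ p n α * ∫ f in U, J p n f α := by
      rw [hG]
      simp only
      rw [integral_integral_swap]
      · refine integral_congr_ae (Eventually.of_forall fun α => ?_)
        simp only
        rw [integral_const_mul]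
      · rw [Measure.prod_restrict]
        exact (hcont p n).continuousOn.integrableOn_compact (hU.prod isCompact_Icc)
    have h4 : ∫ f in U, G p n f ≤ K * (C * (r ^ p * D p n)) := by
      rw [h1]
      have hJi : Continuous fun α => ∫ f in U, J p n f α := by
        refine continuous_parametric_integral_of_continuous (f := fun (α : ℝ) (f : Fr) => J p n f α) ?_ hU
        exact (hJ p n).comp (continuous_snd.prodMk continuous_fst)
      calc ∫ α in Icc (-α₀) α₀, κ p n α * ∫ f in U, J p n f α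
          ≤ ∫ α in Icc (-α₀) α₀, κ p n α * (C * (r ^ p * D p n)) := by
            refine setIntegral_mono_on ?_ ?_ measurableSet_Icc
              (fun α hα => mul_le_mul_of_nonneg_left (hb p n hn α hα) (hκ0 p n α))
            · exact ((hκ p n).mul hJi).continuousOn.integrableOn_compact isCompact_Icc
            · exact ((hκ p n).mul continuous_const).continuousOn.integrableOn_compact isCompact_Icc
        _ = (∫ α in Icc (-α₀) α₀, κ p n α) * (C * (r ^ p * D p n)) := by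
            rw [integral_mul_const]
        _ ≤ K * (C * (r ^ p * D p n)) := by
            refine mul_le_mul_of_nonneg_right (hκ1 p n) (mul_nonneg hC ?_)
            exact mul_nonneg (pow_nonneg hr _) (hD0 p n).le
    rw [integral_div, div_le_iff₀ (hD0 p n)]
    refine h4.trans (le_of_eq ?_)
    ring
  -- the series
  obtain ⟨Φ, hΦ⟩ : ∃ Φ : Fr → ENNReal, Φ = fun f => ∑' p : ℕ, ∑ n ∈ Finset.range (p + 1), ENNReal.ofReal (G p n f / D p n) := ⟨_, rfl⟩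
  have hmeas : ∀ p n, Measurable fun f => ENNReal.ofReal (G p n f / D p n) := fun p n =>
    ((hGc p n).div_const _).measurable.ennreal_ofReal
  have hΦm : Measurable Φ := by
    rw [hΦ]
    exact Measurable.tsum fun p => Finset.measurable_sum _ fun n _ => hmeas p n
  have hΦi : ∫⁻ f in U, Φ f ≠ ⊤ := by
    rw [hΦ, lintegral_tsum (fun p => (Finset.measurable_sum _ fun n _ => hmeas p n).aemeasurable)]
    refine ne_of_lt (lt_of_le_of_lt (ENNReal.tsum_le_tsum fun p => ?_) (geo92 hr hr1 (K * C)))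
    rw [lintegral_finsetSum _ fun n _ => hmeas p n]
    calc ∑ n ∈ Finset.range (p + 1), ∫⁻ f in U, ENNReal.ofReal (G p n f / D p n)
        ≤ ∑ _n ∈ Finset.range (p + 1), ENNReal.ofReal (K * C * r ^ p) := by
          refine Finset.sum_le_sum fun n hn => ?_
          rw [← ofReal_integral_eq_lintegral_ofReal ((hGi p n).div_const _)
            (Eventually.of_forall fun f => div_nonneg (hG0 p n f) (hD0 p n).le)]
          exact ENNReal.ofReal_le_ofReal (hint p n (Nat.lt_succ_iff.1 (Finset.mem_range.1 hn)))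
      _ = ENNReal.ofReal (((p : ℝ) + 1) * (K * C * r ^ p)) := by
          rw [Finset.sum_const, Finset.card_range, nsmul_eq_mul, ENNReal.ofReal_mul (show (0 : ℝ) ≤ (p : ℝ) + 1 by positivity),
            ← Nat.cast_succ, ENNReal.ofReal_natCast]
  have h6 := ae_lt_top hΦm hΦi
  filter_upwards [h6] with f hf
  refine ⟨(Φ f).toReal, ENNReal.toReal_nonneg, fun p n hn => ?_⟩
  have h7 : ENNReal.ofReal (G p n f / D p n) ≤ Φ f := by
    rw [hΦ]
    refine le_trans ?_ (ENNReal.le_tsum p)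
    exact Finset.single_le_sum (f := fun n => ENNReal.ofReal (G p n f / D p n)) (fun _ _ => bot_le)
      (Finset.mem_range.2 (Nat.lt_succ_iff.2 hn))
  have h8 : G p n f / D p n ≤ (Φ f).toReal := by
    rw [← ENNReal.ofReal_le_iff_le_toReal hf.ne]
    exact h7
  rw [div_le_iff₀ (hD0 p n)] at h8
  rw [hG] at h8
  exact h8

private theorem ae_one92 {P : (ℝ × ℝ → ℝ) → Prop} (hmom : MomP P) {h : ℝ → ℝ × ℝ → ℝ}
    (hc : Continuous fun q : ℝ × (ℝ × ℝ) => h q.1 q.2) {α₀ : ℝ} (hP : ∀ α ∈ Icc (-α₀) α₀, P (h α)) {κ : ℕ → ℕ → ℝ → ℝ}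
    (hκ : ∀ p n, Continuous (κ p n)) (hκ0 : ∀ p n α, 0 ≤ κ p n α) {K : ℝ} (hκ1 : ∀ p n, ∫ α in Icc (-α₀) α₀, κ p n α ≤ K)
    {ε : ℝ} (hε : 0 < ε) (m : ℕ) :
    ∀ᵐ f ∂((volume : Measure Fr).restrict (UU m)), ∃ C : ℝ, 0 ≤ C ∧ ∀ p n : ℕ, n ≤ p →
      ∫ α in Icc (-α₀) α₀, κ p n α * JJ f (h α) ((2 : ℝ) ^ p) (2 ^ n) ≤ C * (((2 : ℝ) ^ p) ^ (1 + ε) * MB ((2 : ℝ) ^ p) (2 ^ n)) := by
  obtain ⟨C0, hC0⟩ := hmom (ε / 2) (by linarith) (UU m) (UU_compact m) (fun f hf => UU_pos hf)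
  have hX0 : ∀ p : ℕ, (0 : ℝ) < 2 ^ p := fun p => by positivity
  have hX1 : ∀ p : ℕ, (1 : ℝ) ≤ 2 ^ p := fun p => one_le_pow₀ (by norm_num)
  have hMB := fun p n : ℕ => (MB_pos (hX0 p) (hX0 n))
  obtain ⟨J, hJ⟩ : ∃ J : ℕ → ℕ → Fr → ℝ → ℝ, ∀ p n f α, J p n f α = JJ f (h α) ((2 : ℝ) ^ p) (2 ^ n) := ⟨_, fun _ _ _ _ => rfl⟩
  obtain ⟨D, hD⟩ : ∃ D : ℕ → ℕ → ℝ, ∀ p n, D p n = ((2 : ℝ) ^ p) ^ (1 + ε) * MB ((2 : ℝ) ^ p) (2 ^ n) := ⟨_, fun _ _ => rfl⟩
  obtain ⟨r, hr⟩ : ∃ r : ℝ, r = (2 : ℝ) ^ (-(ε / 2)) := ⟨_, rfl⟩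
  have hJc : ∀ p n, Continuous fun q : Fr × ℝ => J p n q.1 q.2 := by
    intro p n
    simp only [hJ]
    exact JJ_cont hc _ _
  have hJ0 : ∀ p n f α, 0 ≤ J p n f α := by
    intro p n f α
    rw [hJ]
    exact JJ_nonneg _ _ _ _
  have hD0 : ∀ p n, 0 < D p n := by
    intro p n
    rw [hD]
    exact mul_pos (rpow_pos_of_pos (hX0 p) _) (hMB p n)
  have hr0 : 0 ≤ r := by
    rw [hr]
    positivity
  have hr1 : r < 1 := by
    rw [hr]
    exact rpow_lt_one_of_one_lt_of_neg (by norm_num) (by linarith)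
  have hb : ∀ p n, n ≤ p → ∀ α ∈ Icc (-α₀) α₀, ∫ f in UU m, J p n f α ≤ max C0 0 * (r ^ p * D p n) := by
    intro p n hn α hα
    have h3 := hC0 (h α) (hP α hα) ((2 : ℝ) ^ p) (hX1 p) n (pow_le_pow_right₀ (by norm_num) hn)
    simp only [hJ]
    refine h3.trans ?_
    have h5 : ((2 : ℝ) ^ p) ^ (1 + ε / 2) = r ^ p * ((2 : ℝ) ^ p) ^ (1 + ε) := by
      rw [hr, ← rpow_natCast ((2 : ℝ) ^ (-(ε / 2))) p, ← rpow_mul (by norm_num), ← rpow_natCast 2 p, ← rpow_mul (by norm_num),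
        ← rpow_mul (by norm_num), ← rpow_add (by norm_num)]
      congr 1
      ring
    rw [hD, ← mul_assoc (r ^ p), ← h5]
    refine mul_le_mul_of_nonneg_right (le_max_left _ _) ?_
    exact mul_nonneg (rpow_nonneg (hX0 p).le _) (hMB p n).le
  have h7 := bc92 (UU_compact m) hJc hJ0 hκ hκ0 hκ1 hD0 (le_max_right C0 0) hr0 hr1 hb
  filter_upwards [h7] with f hf
  obtain ⟨C, hC, h8⟩ := hf
  refine ⟨C, hC, fun p n hn => ?_⟩
  have h9 := h8 p n hn
  simp only [hJ, hD] at h9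
  exact h9

/-- almost every frame -/
theorem ae_JJ {P : (ℝ × ℝ → ℝ) → Prop} (hmom : MomP P) {h : ℝ → ℝ × ℝ → ℝ}
    (hc : Continuous fun q : ℝ × (ℝ × ℝ) => h q.1 q.2) {α₀ : ℝ} (hP : ∀ α ∈ Icc (-α₀) α₀, P (h α)) {κ : ℕ → ℕ → ℝ → ℝ}
    (hκ : ∀ p n, Continuous (κ p n)) (hκ0 : ∀ p n α, 0 ≤ κ p n α) {K : ℝ} (hκ1 : ∀ p n, ∫ α in Icc (-α₀) α₀, κ p n α ≤ K) :
    ∀ᵐ f : Fr, 0 < fdet f → ∀ ε : ℝ, 0 < ε → ∃ C : ℝ, 0 ≤ C ∧ ∀ p n : ℕ, n ≤ p →
      ∫ α in Icc (-α₀) α₀, κ p n α * JJ f (h α) ((2 : ℝ) ^ p) (2 ^ n) ≤ C * (((2 : ℝ) ^ p) ^ (1 + ε) * MB ((2 : ℝ) ^ p) (2 ^ n)) := by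
  have h1 : ∀ᵐ f : Fr, ∀ (j m : ℕ), f ∈ UU m → ∃ C : ℝ, 0 ≤ C ∧ ∀ p n : ℕ, n ≤ p →
      ∫ α in Icc (-α₀) α₀, κ p n α * JJ f (h α) ((2 : ℝ) ^ p) (2 ^ n) ≤
        C * (((2 : ℝ) ^ p) ^ (1 + 1 / ((j : ℝ) + 1)) * MB ((2 : ℝ) ^ p) (2 ^ n)) := by
    rw [ae_all_iff]
    intro j
    rw [ae_all_iff]
    intro m
    have h2 := ae_one92 hmom hc hP hκ hκ0 hκ1 (ε := 1 / ((j : ℝ) + 1)) (by positivity) m
    exact (ae_restrict_iff' (UU_compact m).measurableSet).1 h2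
  filter_upwards [h1] with f hf hdet ε hε
  obtain ⟨m, hm⟩ := UU_exh hdet
  obtain ⟨j, hj⟩ := exists_nat_one_div_lt hε
  obtain ⟨C, hC, h2⟩ := hf j m hm
  refine ⟨C, hC, fun p n hn => (h2 p n hn).trans ?_⟩
  have hX1 : (1 : ℝ) ≤ 2 ^ p := one_le_pow₀ (by norm_num)
  refine mul_le_mul_of_nonneg_left (mul_le_mul_of_nonneg_right ?_ (MB_pos (by positivity) (by positivity)).le) hC
  exact rpow_le_rpow_of_exponent_le hX1 (by linarith)

end Pool.Agent.Helper92.LA
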