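import Pool.Agent.Helper92.LA.Defs

/-!
# LA-C1: functions of the argument are Lipschitz; homogeneous functions `hom γ`
-/

open MeasureTheory Real Set Filter Topology

set_option autoImplicit false

namespace Pool.Agent.Helper92.LA

open Pool.Agent.Helper22.AE
open Pool.Agent.Helper22.LP (Fr fv fk fdet cp nr tr hom LS nr_eq nr_pos nr_cos nr_sin tr_angle)

private lemma tr_range92 (v : ℝ × ℝ) : -π < tr v ∧ tr v ≤ π := by
  unfold tr
  exact ⟨Complex.neg_pi_lt_arg _, Complex.arg_le_pi _⟩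

/-- a representative of the difference of two arguments -/
private lemma rep92 (v w : ℝ × ℝ) : ∃ (δ : ℝ) (n : ℤ), |δ| ≤ π ∧ tr v = tr w + δ + n * (2 * π) := by
  obtain ⟨h1, h2⟩ := tr_range92 v
  obtain ⟨h3, h4⟩ := tr_range92 w
  have hpi := Real.pi_pos
  rcases lt_or_ge π (tr v - tr w) with h | h
  · refine ⟨tr v - tr w - 2 * π, 1, abs_le.2 ⟨by linarith, by linarith⟩, by push_cast; ring⟩
  rcases lt_or_ge (tr v - tr w) (-π) with h' | h'
  · refine ⟨tr v - tr w + 2 * π, -1, abs_le.2 ⟨by linarith, by linarith⟩, by push_cast; ring⟩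
  · exact ⟨tr v - tr w, 0, abs_le.2 ⟨by linarith, by linarith⟩, by push_cast; ring⟩

private lemma jordan92 {δ : ℝ} (h : |δ| ≤ π) : δ ^ 2 ≤ π ^ 2 / 4 * (2 - 2 * cos δ) := by
  have hpi := Real.pi_pos
  have h1 : 2 / π * (|δ| / 2) ≤ sin (|δ| / 2) := Real.mul_le_sin (by positivity) (by linarith)
  have h2 : |δ| ≤ π * sin (|δ| / 2) := by
    have h3 := mul_le_mul_of_nonneg_left h1 hpi.le
    have h4 : π * (2 / π * (|δ| / 2)) = |δ| := by field_simp
    linarith
  have h5 : cos δ = 1 - 2 * sin (|δ| / 2) ^ 2 := by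
    rw [← Real.cos_abs δ]
    have h6 : |δ| = 2 * (|δ| / 2) := by ring
    conv_lhs => rw [h6, Real.cos_two_mul]
    have h7 := Real.sin_sq_add_cos_sq (|δ| / 2)
    linarith
  have h6 : |δ| ^ 2 ≤ (π * sin (|δ| / 2)) ^ 2 := pow_le_pow_left₀ (abs_nonneg _) h2 2
  rw [sq_abs] at h6
  rw [h5]
  linarith

private lemma geom92 {a b c : ℝ} (ha : 0 ≤ a) (hb : 0 ≤ b) (hc1 : -1 ≤ c) (hc2 : c ≤ 1) :
    b ^ 2 * (2 - 2 * c) ≤ 4 * (a ^ 2 + b ^ 2 - 2 * a * b * c) := by
  rcases le_total c 0 with h | h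
  · have h1 : 0 ≤ -(a * b * c) := by
      have := mul_nonneg (mul_nonneg ha hb) (neg_nonneg.2 h)
      linarith
    nlinarith [mul_nonneg (sq_nonneg b) (show 0 ≤ 1 + c by linarith), sq_nonneg a]
  · nlinarith [sq_nonneg (a - b * c), mul_nonneg (sq_nonneg b) (mul_nonneg (show 0 ≤ 1 - c by linarith) (show 0 ≤ 1 + 2 * c by linarith))]

/-- the difference of the arguments times the length -/
private lemma arg_diff92 {v w : ℝ × ℝ} {δ : ℝ} {n : ℤ} (hδ : |δ| ≤ π) (he : tr v = tr w + δ + n * (2 * π)) :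
    |δ| * nr w ≤ 4 * nr (v.1 - w.1, v.2 - w.2) := by
  have hpi := Real.pi_pos
  have h1 : cos (tr v - tr w) = cos δ := by
    have : tr v - tr w = δ + n * (2 * π) := by linarith
    rw [this, Real.cos_add_int_mul_two_pi]
  have ha : 0 ≤ nr v := norm_nonneg _
  have hb : 0 ≤ nr w := norm_nonneg _
  have h2 : nr (v.1 - w.1, v.2 - w.2) ^ 2 = nr v ^ 2 + nr w ^ 2 - 2 * nr v * nr w * cos δ := by
    rw [nr_eq (v.1 - w.1, v.2 - w.2), sq_sqrt (by positivity), ← h1, Real.cos_sub]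
    simp only
    have e1 := nr_cos v
    have e2 := nr_sin v
    have e3 := nr_cos w
    have e4 := nr_sin w
    have e5 := Real.sin_sq_add_cos_sq (tr v)
    have e6 := Real.sin_sq_add_cos_sq (tr w)
    generalize nr v = A at *
    generalize nr w = B at *
    generalize tr v = s at *
    generalize tr w = t at *
    rw [e1, e2, e3, e4]
    linear_combination A ^ 2 * e5 + B ^ 2 * e6
  have h3 := jordan92 hδ
  have h4 := geom92 ha hb (Real.neg_one_le_cos δ) (Real.cos_le_one δ)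
  rw [← h2] at h4
  have h5 : (|δ| * nr w) ^ 2 ≤ (4 * nr (v.1 - w.1, v.2 - w.2)) ^ 2 := by
    rw [mul_pow, mul_pow, sq_abs]
    have h6 : δ ^ 2 * nr w ^ 2 ≤ π ^ 2 / 4 * (2 - 2 * cos δ) * nr w ^ 2 := mul_le_mul_of_nonneg_right h3 (sq_nonneg _)
    have h7 : π ^ 2 / 4 * (2 - 2 * cos δ) * nr w ^ 2 ≤ π ^ 2 / 4 * (4 * nr (v.1 - w.1, v.2 - w.2) ^ 2) := by
      have := mul_le_mul_of_nonneg_left h4 (show 0 ≤ π ^ 2 / 4 by positivity)
      linarith
    have h8 : π ^ 2 ≤ 16 := by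
      have := Real.pi_le_four
      nlinarith
    have h9 : π ^ 2 / 4 * (4 * nr (v.1 - w.1, v.2 - w.2) ^ 2) ≤ 4 ^ 2 * nr (v.1 - w.1, v.2 - w.2) ^ 2 := by
      have := mul_le_mul_of_nonneg_right h8 (sq_nonneg (nr (v.1 - w.1, v.2 - w.2)))
      linarith
    linarith
  exact abs_le_of_sq_le_sq' h5 (by
    have : 0 ≤ nr (v.1 - w.1, v.2 - w.2) := norm_nonneg _
    linarith) |>.2

/-- periodic Lipschitz functions of the argument -/
theorem per_lip {E : Type} [SeminormedAddCommGroup E] {F : ℝ → E} (hF : Function.Periodic F (2 * π)) {L : ℝ} (hL0 : 0 ≤ L)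
    (hL : ∀ x y, ‖F x - F y‖ ≤ L * |x - y|) (v w : ℝ × ℝ) :
    ‖F (tr v) - F (tr w)‖ * nr w ≤ 4 * L * nr (v.1 - w.1, v.2 - w.2) := by
  obtain ⟨δ, n, hδ, he⟩ := rep92 v w
  have h1 : F (tr v) = F (tr w + δ) := by
    rw [he]
    have := (hF.int_mul n) (tr w + δ)
    exact this
  have h2 := hL (tr w + δ) (tr w)
  rw [← h1, add_sub_cancel_left] at h2
  have h3 := arg_diff92 hδ he
  have hb : 0 ≤ nr w := norm_nonneg _
  calc ‖F (tr v) - F (tr w)‖ * nr w ≤ L * |δ| * nr w := mul_le_mul_of_nonneg_right h2 hb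
    _ = L * (|δ| * nr w) := by ring
    _ ≤ L * (4 * nr (v.1 - w.1, v.2 - w.2)) := mul_le_mul_of_nonneg_left h3 hL0
    _ = 4 * L * nr (v.1 - w.1, v.2 - w.2) := by ring

theorem nr_le_add (v : ℝ × ℝ) : nr v ≤ |v.1| + |v.2| := by
  rw [nr_eq]
  have h1 := abs_nonneg v.1
  have h2 := abs_nonneg v.2
  apply Real.sqrt_le_iff.2
  constructor
  · linarith
  · nlinarith [sq_abs v.1, sq_abs v.2]

theorem nr_sub_le (v w : ℝ × ℝ) : |nr v - nr w| ≤ nr (v.1 - w.1, v.2 - w.2) := by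
  have e : cp (v.1 - w.1, v.2 - w.2) = cp v - cp w := by
    unfold cp
    apply Complex.ext <;> simp
  unfold nr
  rw [e]
  exact abs_norm_sub_norm_le _ _

theorem nr_smul {s : ℝ} (hs : 0 < s) (v : ℝ × ℝ) : nr (s * v.1, s * v.2) = s * nr v := by
  rw [nr_eq, nr_eq]
  simp only
  rw [mul_pow, mul_pow, ← mul_add, sqrt_mul (sq_nonneg _), sqrt_sq hs.le]

theorem tr_smul {s : ℝ} (hs : 0 < s) (v : ℝ × ℝ) : tr (s * v.1, s * v.2) = tr v := by
  have e : cp (s * v.1, s * v.2) = (s : ℂ) * cp v := by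
    unfold cp
    apply Complex.ext <;> simp
  unfold tr
  rw [e, Complex.arg_real_mul _ hs]

theorem hom_smul (γ : ℝ → ℝ) {s : ℝ} (hs : 0 < s) (v : ℝ × ℝ) : hom γ (s * v.1, s * v.2) = s * hom γ v := by
  unfold hom
  rw [nr_smul hs, tr_smul hs]
  ring

/-- `hom γ` is Lipschitz -/
theorem hom_lip {γ : ℝ → ℝ} (hγ : Function.Periodic γ (2 * π)) {M L : ℝ} (hM : ∀ x, |γ x| ≤ M) (hL0 : 0 ≤ L)
    (hL : ∀ x y, |γ x - γ y| ≤ L * |x - y|) (v w : ℝ × ℝ) :
    |hom γ v - hom γ w| ≤ (M + 4 * L) * nr (v.1 - w.1, v.2 - w.2) := by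
  have hM0 : 0 ≤ M := (abs_nonneg _).trans (hM 0)
  have e : hom γ v - hom γ w = (nr v - nr w) * γ (tr v) + (γ (tr v) - γ (tr w)) * nr w := by
    unfold hom
    ring
  have h1 := per_lip hγ hL0 hL v w
  have h2 := nr_sub_le v w
  have hb : 0 ≤ nr w := norm_nonneg _
  have hd : 0 ≤ nr (v.1 - w.1, v.2 - w.2) := norm_nonneg _
  rw [e]
  refine (abs_add_le _ _).trans ?_
  rw [abs_mul, abs_mul, abs_of_nonneg hb]
  rw [Real.norm_eq_abs] at h1
  have h3 : |nr v - nr w| * |γ (tr v)| ≤ nr (v.1 - w.1, v.2 - w.2) * M := mul_le_mul h2 (hM _) (abs_nonneg _) hd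
  linarith

/-- `hom γ` belongs to the class of phases -/
theorem hom_HL {γ : ℝ → ℝ} (hγ : Function.Periodic γ (2 * π)) {M L : ℝ} (hM : ∀ x, |γ x| ≤ M) (hL0 : 0 ≤ L)
    (hL : ∀ x y, |γ x - γ y| ≤ L * |x - y|) : HL (M + 4 * L) (hom γ) := by
  have hM0 : 0 ≤ M := (abs_nonneg _).trans (hM 0)
  refine ⟨fun s v hs => hom_smul γ hs v, fun v w _ _ _ _ => ?_⟩
  refine (hom_lip hγ hM hL0 hL v w).trans (mul_le_mul_of_nonneg_left ?_ (by positivity))
  exact nr_le_add (v.1 - w.1, v.2 - w.2)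

/-- functions of the argument belong to the class of weights -/
theorem arg_WL {F : ℝ → ℂ} (hF : Function.Periodic F (2 * π)) {M L B : ℝ} (hM : ∀ x, ‖F x‖ ≤ M) (hL0 : 0 ≤ L)
    (hL : ∀ x y, ‖F x - F y‖ ≤ L * |x - y|) (hMB : M ≤ B) (hLB : 4 * L ≤ B) : WL B (fun v => F (tr v)) := by
  refine ⟨fun s v hs => ?_, fun v => (hM _).trans hMB, fun v w hv hw => ?_⟩
  · rw [tr_smul hs]
  · have h1 := per_lip hF hL0 hL v w
    have h2 : 1 ≤ nr w := by
      rw [nr_eq]
      apply Real.le_sqrt_of_sq_le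
      rcases le_total |w.1| |w.2| with h | h
      · rw [max_eq_right h] at hw
        have : w.2 ^ 2 = 1 := by
          rw [← sq_abs, hw]
          norm_num
        nlinarith [sq_nonneg w.1]
      · rw [max_eq_left h] at hw
        have : w.1 ^ 2 = 1 := by
          rw [← sq_abs, hw]
          norm_num
        nlinarith [sq_nonneg w.2]
    have h3 := nr_le_add (v.1 - w.1, v.2 - w.2)
    simp only at h3 ⊢
    calc ‖F (tr v) - F (tr w)‖ ≤ ‖F (tr v) - F (tr w)‖ * nr w := by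
          have := mul_le_mul_of_nonneg_left h2 (norm_nonneg (F (tr v) - F (tr w)))
          linarith
      _ ≤ 4 * L * nr (v.1 - w.1, v.2 - w.2) := h1
      _ ≤ 4 * L * (|v.1 - w.1| + |v.2 - w.2|) := mul_le_mul_of_nonneg_left h3 (by positivity)
      _ ≤ B * (|v.1 - w.1| + |v.2 - w.2|) := mul_le_mul_of_nonneg_right hLB (by positivity)

/-- joint continuity of a family `hom (γ α)` -/
theorem hom_joint {γ : ℝ → ℝ → ℝ} (hγ : ∀ α, Function.Periodic (γ α) (2 * π)) {M L : ℝ} (hM : ∀ α x, |γ α x| ≤ M) (hL0 : 0 ≤ L)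
    (hL : ∀ α x y, |γ α x - γ α y| ≤ L * |x - y|) (hα : ∀ x, Continuous fun α => γ α x) :
    Continuous fun q : ℝ × (ℝ × ℝ) => hom (γ q.1) q.2 := by
  have hM0 : 0 ≤ M := (abs_nonneg _).trans (hM 0 0)
  have h1 : Continuous fun q : (ℝ × ℝ) × ℝ => hom (γ q.2) q.1 := by
    refine continuous_prod_of_continuous_lipschitzWith (fun q : (ℝ × ℝ) × ℝ => hom (γ q.2) q.1) (Real.toNNReal (2 * (M + 4 * L))) ?_ ?_
    · intro v
      show Continuous fun α => nr v * γ α (tr v)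
      exact continuous_const.mul (hα _)
    · intro α
      refine LipschitzWith.of_dist_le_mul fun v w => ?_
      rw [Real.coe_toNNReal _ (by positivity), Real.dist_eq]
      refine (hom_lip (hγ α) (hM α) hL0 (hL α) v w).trans ?_
      have h2 := nr_le_add (v.1 - w.1, v.2 - w.2)
      have h3 : |v.1 - w.1| ≤ dist v w := by
        rw [← Real.dist_eq]
        exact le_max_left _ _
      have h4 : |v.2 - w.2| ≤ dist v w := by
        rw [← Real.dist_eq]
        exact le_max_right _ _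
      simp only at h2
      have h5 : nr (v.1 - w.1, v.2 - w.2) ≤ 2 * dist v w := by linarith
      have := mul_le_mul_of_nonneg_left h5 (show 0 ≤ M + 4 * L by positivity)
      linarith
  exact h1.comp (continuous_snd.prodMk continuous_fst)

end Pool.Agent.Helper92.LA
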