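import Pool.Agent.Helper22.OV.D5b
import Pool.Agent.Helper22.LP.Main
import Pool.Agent.Helper60.LT.Defs
import Pool.Agent.Helper92.LA.C1

/-!
# LA-C2: the phases `hom (ga H α)` belong to the classes `LT.Hom`, `HL`, the weights `wr H α` to `WL`
-/

open MeasureTheory Real Set Filter Topology

set_option autoImplicit false

namespace Pool.Agent.Helper92.LA

open Pool.Agent.Helper22.AE
open Pool.Agent.Helper22.AC (ga)
open Pool.Agent.Helper22.OV (oph oan gam qq sg sg_sq sg_abs qq_pos qq_le qq_sq per_deriv per_bdd per_min dshift dcomb rho_gam gam_contDiff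
  oph_contDiff oph_d2 oph_d3 oph_d4)
open Pool.Agent.Helper22.LP (Fr fv fk fdet cp nr tr hom LS wr nr_eq nr_pos nr_cos nr_sin tr_angle)

private theorem core92 {H : ℝ → ℝ} (h5 : ContDiff ℝ 5 H) {m M : ℝ} (hm : 0 < m) (hM' : 1 ≤ M) (hmr : ∀ x, m ≤ rho H x)
    (b0' : ∀ x, |rho H x| ≤ M) (b1' : ∀ x, |deriv (rho H) x| ≤ M) (b2' : ∀ x, |deriv (deriv (rho H)) x| ≤ M)
    (b3' : ∀ x, |deriv (deriv (deriv (rho H))) x| ≤ M) {α : ℝ} (hα1 : |α| ≤ 1) (hα2 : |α| ≤ m / (8 * M)) (j : ℕ) (s : Bool) {η : ℝ}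
    (hη : η = 0) :
    ContDiff ℝ 4 (oph (gam H α η) j s) ∧
      (∀ x, |x| ≤ 2 → m / 48 ≤ deriv (deriv (oph (gam H α η) j s)) x) ∧
      (∀ x, |x| ≤ 2 → |deriv (deriv (oph (gam H α η) j s)) x| ≤ 200 * M ∧
        |deriv (deriv (deriv (oph (gam H α η) j s))) x| ≤ 200 * M ∧
        |deriv (deriv (deriv (deriv (oph (gam H α η) j s)))) x| ≤ 200 * M) := by
  have hη1 : |η| ≤ 1 := by
    rw [hη, abs_zero]
    norm_num
  have hη2 : |η| ≤ m / 8 := by
    rw [hη, abs_zero]
    positivity
  obtain ⟨r, hr⟩ : ∃ r : ℝ → ℝ, r = rho H := ⟨_, rfl⟩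
  rw [← hr] at hmr b0' b1' b2' b3'
  have b0 := b0'
  have b1 := b1'
  have b2 := b2'
  have b3 := b3'
  have h3 : ContDiff ℝ 4 (deriv H) := ((contDiff_succ_iff_deriv (n := 4)).1 h5).2.2
  have h4 : ContDiff ℝ 3 (deriv (deriv H)) := ((contDiff_succ_iff_deriv (n := 3)).1 h3).2.2
  have hr3 : ContDiff ℝ 3 r := by
    rw [hr]
    exact (h5.of_le (by norm_num)).add h4
  have hr2 : ContDiff ℝ 2 (deriv r) := ((contDiff_succ_iff_deriv (n := 2)).1 hr3).2.2
  have hcos1 : |cos α| ≤ 1 := Real.abs_cos_le_one α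
  have hsin1 : |sin α| ≤ 1 := Real.abs_sin_le_one α
  have hsin2 : |sin α| ≤ |α| := Real.abs_sin_le_abs
  have hcos2 : 1 / 2 ≤ cos α := by
    have h := Real.one_sub_sq_div_two_le_cos (x := α)
    have h2 : α ^ 2 ≤ 1 := by
      rw [← sq_abs]
      exact pow_le_one₀ (abs_nonneg _) hα1
    linarith
  have hg4 := gam_contDiff h5 α η
  -- `g = rho γ` and its derivatives
  have eg := rho_gam h5 α η
  rw [← hr] at eg
  have hr2' : ContDiff ℝ 2 r := hr3.of_le (by norm_num)
  have eg1 : deriv (rho (gam H α η)) = fun t => deriv r (t + α) * cos α - deriv (deriv r) (t + α) * sin α := by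
    rw [eg]
    exact dcomb hr2' α _ _ _
  have eg2 : deriv (deriv (rho (gam H α η))) = fun t => deriv (deriv r) (t + α) * cos α -
      deriv (deriv (deriv r)) (t + α) * sin α := by
    rw [eg1]
    have := dcomb hr2 α (cos α) (sin α) 0
    simpa using this
  have hab : ∀ a b : ℝ, |a| ≤ M → |b| ≤ M → |a * cos α - b * sin α| ≤ 2 * M := by
    intro a b ha hb
    have h1 : |a * cos α| ≤ M := by
      rw [abs_mul]
      calc |a| * |cos α| ≤ M * 1 := mul_le_mul ha hcos1 (abs_nonneg _) (by linarith)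
        _ = M := mul_one M
    have h2 : |b * sin α| ≤ M := by
      rw [abs_mul]
      calc |b| * |sin α| ≤ M * 1 := mul_le_mul hb hsin1 (abs_nonneg _) (by linarith)
        _ = M := mul_one M
    have := abs_sub (a * cos α) (b * sin α)
    linarith
  have g0 : ∀ t, |rho (gam H α η) t| ≤ 3 * M := by
    intro t
    rw [eg]
    have h1 := hab _ _ (b0 (t + α)) (b1 (t + α))
    have h2 : |η * cos α| ≤ 1 := by
      rw [abs_mul]
      exact mul_le_one₀ hη1 (abs_nonneg _) hcos1
    calc |r (t + α) * cos α - deriv r (t + α) * sin α + η * cos α| ≤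
        |r (t + α) * cos α - deriv r (t + α) * sin α| + |η * cos α| := abs_add_le _ _
      _ ≤ 3 * M := by linarith
  have g1 : ∀ t, |deriv (rho (gam H α η)) t| ≤ 2 * M := by
    intro t
    rw [eg1]
    exact hab _ _ (b1 _) (b2 _)
  have g2 : ∀ t, |deriv (deriv (rho (gam H α η))) t| ≤ 2 * M := by
    intro t
    rw [eg2]
    exact hab _ _ (b2 _) (b3 _)
  have glo : ∀ t, m / 4 ≤ rho (gam H α η) t := by
    intro t
    rw [eg]
    have h1 : m / 2 ≤ r (t + α) * cos α := by
      have := mul_le_mul (hmr (t + α)) hcos2 (by norm_num) (hm.le.trans (hmr (t + α)))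
      linarith
    have h2 : deriv r (t + α) * sin α ≤ m / 8 := by
      refine (le_abs_self _).trans ?_
      rw [abs_mul]
      have h3 : |deriv r (t + α)| * |sin α| ≤ M * (m / (8 * M)) :=
        mul_le_mul (b1 _) (hsin2.trans hα2) (abs_nonneg _) (by linarith)
      have h4 : M * (m / (8 * M)) = m / 8 := by field_simp
      linarith
    have h3 : -(m / 8) ≤ η * cos α := by
      have h4 : |η * cos α| ≤ m / 8 := by
        rw [abs_mul]
        calc |η| * |cos α| ≤ (m / 8) * 1 := mul_le_mul hη2 hcos1 (abs_nonneg _) (by positivity)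
          _ = m / 8 := mul_one _
      linarith [neg_le_of_abs_le h4]
    linarith
  have e2 := oph_d2 (hg4.of_le (by norm_num) : ContDiff ℝ 2 _) j s
  have e3 := oph_d3 (hg4.of_le (by norm_num) : ContDiff ℝ 3 _) j s
  have e4 := oph_d4 hg4 j s
  have hq0 := qq_pos
  have hq1 := qq_le
  refine ⟨oph_contDiff hg4 j s, ?_, ?_⟩
  · intro x hx
    rw [e2]
    have h1 : 1 / 5 ≤ qq x ^ 2 := by
      have h2 := qq_sq x
      have h3 : x ^ 2 ≤ 4 := by
        rw [← sq_abs]
        nlinarith [abs_nonneg x]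
      have h4 : 0 ≤ qq x ^ 2 := by positivity
      nlinarith
    have h2 : 2 / 5 ≤ qq x := by
      by_contra h
      push Not at h
      have := hq0 x
      nlinarith
    have h3 : 1 / 12 ≤ qq x ^ 3 := by
      have : qq x ^ 3 = qq x ^ 2 * qq x := by ring
      rw [this]
      have := hq0 x
      nlinarith
    have h4 := glo (oan j s x)
    calc m / 48 = 1 / 12 * (m / 4) := by ring
      _ ≤ qq x ^ 3 * rho (gam H α η) (oan j s x) := mul_le_mul h3 h4 (by positivity) (by positivity)
  · intro x hx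
    have hx2 : x ^ 2 ≤ 4 := by
      rw [← sq_abs]
      nlinarith [abs_nonneg x]
    have qn : ∀ n : ℕ, qq x ^ n ≤ 1 := fun n => pow_le_one₀ (hq0 x).le (hq1 x)
    have mb : ∀ (n : ℕ) (u C : ℝ), |u| ≤ C → |qq x ^ n * u| ≤ C := by
      intro n u C hu
      rw [abs_mul, abs_of_nonneg (pow_nonneg (hq0 x).le n)]
      calc qq x ^ n * |u| ≤ 1 * C := mul_le_mul (qn n) hu (abs_nonneg _) zero_le_one
        _ = C := one_mul C
    have G0 := g0 (oan j s x)
    have G1 := g1 (oan j s x)
    have G2 := g2 (oan j s x)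
    rw [e4, e3, e2]
    refine ⟨mb 3 _ _ (G0.trans (by linarith)), mb 5 _ _ ?_, mb 7 _ _ ?_⟩
    · have h1 : |sg s * deriv (rho (gam H α η)) (oan j s x)| ≤ 2 * M := by
        rw [abs_mul, sg_abs, one_mul]
        exact G1
      have h2 : |3 * x * rho (gam H α η) (oan j s x)| ≤ 18 * M := by
        rw [abs_mul, abs_mul, abs_of_pos (by norm_num : (0 : ℝ) < 3)]
        have := mul_le_mul hx G0 (abs_nonneg _) (by norm_num)
        nlinarith
      have := abs_sub (sg s * deriv (rho (gam H α η)) (oan j s x)) (3 * x * rho (gam H α η) (oan j s x))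
      linarith
    · have h1 : |8 * x * sg s * deriv (rho (gam H α η)) (oan j s x)| ≤ 32 * M := by
        rw [abs_mul, abs_mul, abs_mul, sg_abs, abs_of_pos (by norm_num : (0 : ℝ) < 8)]
        have := mul_le_mul hx G1 (abs_nonneg _) (by norm_num)
        nlinarith
      have h2 : |(12 * x ^ 2 - 3) * rho (gam H α η) (oan j s x)| ≤ 135 * M := by
        rw [abs_mul]
        have h3 : |12 * x ^ 2 - 3| ≤ 45 := by
          rw [abs_le]
          constructor <;> nlinarith [sq_nonneg x]
        have := mul_le_mul h3 G0 (abs_nonneg _) (by norm_num)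
        linarith
      have h3 := abs_sub (deriv (deriv (rho (gam H α η))) (oan j s x))
        (8 * x * sg s * deriv (rho (gam H α η)) (oan j s x))
      have h4 := abs_add_le (deriv (deriv (rho (gam H α η))) (oan j s x) -
        8 * x * sg s * deriv (rho (gam H α η)) (oan j s x)) ((12 * x ^ 2 - 3) * rho (gam H α η) (oan j s x))
      linarith

private theorem slice92 {γ : ℝ → ℝ} (hγ : Function.Periodic γ (2 * π)) (θ : ℝ) :
    Pool.Agent.Helper60.LT.sl (hom γ) θ = oph (fun t => γ (t + θ)) 0 true := by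
  funext τ
  have hs : 0 < sqrt (1 + τ ^ 2) := sqrt_pos.2 (by positivity)
  have hs2 : sqrt (1 + τ ^ 2) ^ 2 = 1 + τ ^ 2 := sq_sqrt (by positivity)
  have hc : cos (arctan τ) = 1 / sqrt (1 + τ ^ 2) := Real.cos_arctan τ
  have hsn : sin (arctan τ) = τ / sqrt (1 + τ ^ 2) := Real.sin_arctan τ
  have e1 : cos θ - τ * sin θ = sqrt (1 + τ ^ 2) * cos (θ + arctan τ) := by
    rw [Real.cos_add, hc, hsn]
    field_simp
  have e2 : sin θ + τ * cos θ = sqrt (1 + τ ^ 2) * sin (θ + arctan τ) := by
    rw [Real.sin_add, hc, hsn]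
    field_simp
  have h1 : γ (tr (cos θ - τ * sin θ, sin θ + τ * cos θ)) = γ (θ + arctan τ) := tr_angle hs e1 e2 hγ
  have h2 : nr (cos θ - τ * sin θ, sin θ + τ * cos θ) = sqrt (1 + τ ^ 2) := by
    rw [nr_eq]
    simp only
    congr 1
    have := Real.sin_sq_add_cos_sq θ
    linear_combination (1 + τ ^ 2) * this
  unfold Pool.Agent.Helper60.LT.sl hom oph oan
  rw [h1, h2]
  simp only [if_true, Nat.cast_zero, zero_mul, zero_add]
  rw [add_comm θ]

private theorem lip92 {E : Type} [NormedAddCommGroup E] [NormedSpace ℝ E] {F : ℝ → E} (hd : Differentiable ℝ F) {L : ℝ}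
    (hb : ∀ x, ‖deriv F x‖ ≤ L) (x y : ℝ) : ‖F x - F y‖ ≤ L * |x - y| := by
  have h := Convex.norm_image_sub_le_of_norm_deriv_le (f := F) (s := univ) (C := L) (fun z _ => hd z) (fun z _ => hb z)
    convex_univ (mem_univ y) (mem_univ x)
  rwa [Real.norm_eq_abs] at h

/-- the family of phases and weights of an oval -/
theorem fam {H : ℝ → ℝ} (hH : IsSupp H) (h5 : ContDiff ℝ 5 H) : ∃ α₀ c₁ B : ℝ, 0 < α₀ ∧ α₀ < π / 2 ∧ 0 < c₁ ∧ c₁ ≤ 1 ∧ 1 ≤ B ∧
    (Continuous fun q : ℝ × (ℝ × ℝ) => hom (ga H q.1) q.2) ∧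
    ∀ α ∈ Icc (-α₀) α₀, Pool.Agent.Helper60.LT.Hom c₁ B (hom (ga H α)) ∧ HL B (hom (ga H α)) ∧ WL B (wr H α) ∧ WL B (fun _ => 1) := by
  have hpi := Real.pi_gt_three
  obtain ⟨r, hr⟩ : ∃ r : ℝ → ℝ, r = rho H := ⟨_, rfl⟩
  have h3 : ContDiff ℝ 4 (deriv H) := ((contDiff_succ_iff_deriv (n := 4)).1 h5).2.2
  have h4 : ContDiff ℝ 3 (deriv (deriv H)) := ((contDiff_succ_iff_deriv (n := 3)).1 h3).2.2
  have hr3 : ContDiff ℝ 3 r := by
    rw [hr]
    exact (h5.of_le (by norm_num)).add h4
  have hr2 : ContDiff ℝ 2 (deriv r) := ((contDiff_succ_iff_deriv (n := 2)).1 hr3).2.2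
  have hr1 : ContDiff ℝ 1 (deriv (deriv r)) := ((contDiff_succ_iff_deriv (n := 1)).1 hr2).2.2
  have hr0 : Continuous (deriv (deriv (deriv r))) := hr1.continuous_deriv le_rfl
  have hrp : Function.Periodic r (2 * π) := by
    have hp2 := per_deriv (per_deriv hH.per)
    intro x
    have e1 := hH.per x
    have e2 := hp2 x
    simp only [hr, rho, e1, e2]
  have hrpos : ∀ x, 0 < r x := by
    intro x
    rw [hr]
    exact hH.rho_pos x
  obtain ⟨m, hm, hmr⟩ := per_min hrp hr3.continuous hrpos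
  obtain ⟨M0, hM00, hM0⟩ := per_bdd hrp hr3.continuous
  obtain ⟨M1, hM10, hM1⟩ := per_bdd (per_deriv hrp) hr2.continuous
  obtain ⟨M2, hM20, hM2⟩ := per_bdd (per_deriv (per_deriv hrp)) hr1.continuous
  obtain ⟨M3, hM30, hM3⟩ := per_bdd (per_deriv (per_deriv (per_deriv hrp))) hr0
  obtain ⟨A0, hA00, hA0⟩ := per_bdd hH.per h5.continuous
  obtain ⟨A1, hA10, hA1⟩ := per_bdd (per_deriv hH.per) h3.continuous
  obtain ⟨A2, hA20, hA2⟩ := per_bdd (per_deriv (per_deriv hH.per)) h4.continuous
  obtain ⟨M, hMd⟩ : ∃ M : ℝ, M = M0 + M1 + M2 + M3 + 1 := ⟨_, rfl⟩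
  have hM' : 1 ≤ M := by linarith
  obtain ⟨B, hBd⟩ : ∃ B : ℝ, B = 200 * M + (A0 + A1 + 4 * (A1 + A2)) + 4 * M1 := ⟨_, rfl⟩
  have hB1 : 1 ≤ B := by linarith
  -- bounds of `ga`
  have hcos : ∀ α : ℝ, |cos α| ≤ 1 := Real.abs_cos_le_one
  have hsin : ∀ α : ℝ, |sin α| ≤ 1 := Real.abs_sin_le_one
  have hcomb : ∀ (a b x y α : ℝ), |x| ≤ a → |y| ≤ b → |x * cos α - y * sin α| ≤ a + b := by
    intro a b x y α hx hy
    have h1 : |x * cos α| ≤ a := by
      rw [abs_mul]
      calc |x| * |cos α| ≤ a * 1 := mul_le_mul hx (hcos α) (abs_nonneg _) ((abs_nonneg _).trans hx)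
        _ = a := mul_one a
    have h2 : |y * sin α| ≤ b := by
      rw [abs_mul]
      calc |y| * |sin α| ≤ b * 1 := mul_le_mul hy (hsin α) (abs_nonneg _) ((abs_nonneg _).trans hy)
        _ = b := mul_one b
    have := abs_sub (x * cos α) (y * sin α)
    linarith
  have hgaM : ∀ α x, |ga H α x| ≤ A0 + A1 := by
    intro α x
    unfold ga
    exact hcomb _ _ _ _ _ (hA0 _) (hA1 _)
  have hgap : ∀ α, Function.Periodic (ga H α) (2 * π) := by
    intro α x
    unfold ga
    have e1 := hH.per (x + α)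
    have e2 := per_deriv hH.per (x + α)
    have e3 : x + 2 * π + α = x + α + 2 * π := by ring
    rw [e3, e1, e2]
  have hgaL : ∀ α x y, |ga H α x - ga H α y| ≤ (A1 + A2) * |x - y| := by
    intro α x y
    have hd : Differentiable ℝ (ga H α) := by
      have h6 : Differentiable ℝ H := h5.differentiable (by norm_num)
      have h7 : Differentiable ℝ (deriv H) := h3.differentiable (by norm_num)
      unfold ga
      exact ((h6.comp (by fun_prop)).mul_const _).sub ((h7.comp (by fun_prop)).mul_const _)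
    have hdv : ∀ x, ‖deriv (ga H α) x‖ ≤ A1 + A2 := by
      intro x
      have e1 : ga H α = fun t => H (t + α) * cos α - deriv H (t + α) * sin α + 0 := by
        funext t
        unfold ga
        ring
      rw [e1, dcomb (h5.of_le (by norm_num)) α, Real.norm_eq_abs]
      exact hcomb _ _ _ _ _ (hA1 _) (hA2 _)
    have := lip92 hd hdv x y
    rwa [Real.norm_eq_abs] at this
  have hgac : ∀ x, Continuous fun α => ga H α x := by
    intro x
    have h6 := h5.continuous
    have h7 := h3.continuous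
    unfold ga
    exact ((h6.comp (by fun_prop)).mul continuous_cos).sub ((h7.comp (by fun_prop)).mul continuous_sin)
  have hjoint : Continuous fun q : ℝ × (ℝ × ℝ) => hom (ga H q.1) q.2 :=
    hom_joint hgap hgaM (by positivity) hgaL hgac
  refine ⟨min 1 (m / (8 * M)), min 1 (m / 48), B, lt_min one_pos (by positivity), (min_le_left _ _).trans_lt (by linarith),
    lt_min one_pos (by positivity), min_le_left _ _, hB1, hjoint, ?_⟩
  intro α hα
  have hα' : |α| ≤ min 1 (m / (8 * M)) := abs_le.2 hα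
  have hα1 : |α| ≤ 1 := hα'.trans (min_le_left _ _)
  have hα2 : |α| ≤ m / (8 * M) := hα'.trans (min_le_right _ _)
  refine ⟨⟨?_, fun s v hs => hom_smul _ hs v, fun θ => ?_⟩, ?_, ?_, ?_⟩
  · exact hjoint.comp (continuous_const.prodMk continuous_id)
  · -- the slice in the direction `θ`
    obtain ⟨G, hG⟩ : ∃ G : ℝ → ℝ, G = fun x => H (x + θ) := ⟨_, rfl⟩
    have g5 : ContDiff ℝ 5 G := by
      rw [hG]
      exact h5.comp (by fun_prop)
    have g1 : deriv G = fun x => deriv H (x + θ) := by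
      rw [hG]
      exact dshift θ
    have g2 : deriv (deriv G) = fun x => deriv (deriv H) (x + θ) := by
      rw [g1]
      exact dshift θ
    have gr : rho G = fun x => r (x + θ) := by
      funext x
      unfold rho
      rw [g2, hG, hr]
      rfl
    have gr1 : deriv (rho G) = fun x => deriv r (x + θ) := by
      rw [gr]
      exact dshift θ
    have gr2 : deriv (deriv (rho G)) = fun x => deriv (deriv r) (x + θ) := by
      rw [gr1]
      exact dshift θ
    have gr3 : deriv (deriv (deriv (rho G))) = fun x => deriv (deriv (deriv r)) (x + θ) := by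
      rw [gr2]
      exact dshift θ
    have e1 : (fun t => ga H α (t + θ)) = gam G α 0 := by
      funext t
      unfold gam ga
      rw [g1, hG]
      simp only
      have e2 : t + θ + α = t + α + θ := by ring
      rw [e2]
      ring
    rw [slice92 (hgap α) θ, e1]
    obtain ⟨c1, c2, c3⟩ := core92 g5 hm hM' (by rw [gr]; exact fun x => hmr _) (by rw [gr]; exact fun x => (hM0 _).trans (by linarith))
      (by rw [gr1]; exact fun x => (hM1 _).trans (by linarith)) (by rw [gr2]; exact fun x => (hM2 _).trans (by linarith))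
      (by rw [gr3]; exact fun x => (hM3 _).trans (by linarith)) hα1 hα2 0 true (η := 0) rfl
    have h200 : 200 * M ≤ B := by linarith
    refine ⟨c1, fun τ hτ => (min_le_right _ _).trans (c2 τ (by linarith)), fun τ hτ => ?_, fun τ hτ => ?_, fun τ hτ => ?_⟩
    · exact (c3 τ (by linarith)).1.trans h200
    · exact (c3 τ (by linarith)).2.1.trans h200
    · exact (c3 τ (by linarith)).2.2.trans h200
  · have h6 := hom_HL (hgap α) (hgaM α) (by positivity) (hgaL α)
    refine ⟨h6.hom, fun v w h7 h8 h9 h10 => (h6.lip v w h7 h8 h9 h10).trans (mul_le_mul_of_nonneg_right ?_ (by positivity))⟩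
    linarith
  · have h6 : WL B (fun v => (fun t => ((rho H (t + α) : ℝ) : ℂ)) (tr v)) := by
      refine arg_WL (F := fun t => ((rho H (t + α) : ℝ) : ℂ)) (M := M0) (L := M1) ?_ ?_ hM10 ?_ (by linarith) (by linarith)
      · intro x
        simp only
        have e3 : x + 2 * π + α = x + α + 2 * π := by ring
        rw [e3, ← hr, hrp]
      · intro x
        rw [Complex.norm_real, Real.norm_eq_abs, ← hr]
        exact hM0 _
      · intro x y
        rw [← Complex.ofReal_sub, Complex.norm_real, ← hr]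
        have := lip92 (hr3.differentiable (by norm_num)) (fun x => by rw [Real.norm_eq_abs]; exact hM1 x) (x + α) (y + α)
        rwa [show x + α - (y + α) = x - y by ring] at this
    exact h6
  · exact ⟨fun _ _ _ => rfl, fun _ => by simpa using hB1, fun v w _ _ => by simpa using mul_nonneg (by linarith : (0 : ℝ) ≤ B) (by positivity)⟩

end Pool.Agent.Helper92.LA
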