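import Pool.Agent.Helper22.LP.Defs

/-!
# LA-D2: null sets of frames and of bases
-/

open MeasureTheory Real Set Filter Topology

set_option autoImplicit false

namespace Pool.Agent.Helper92.LA

open Pool.Agent.Helper22.LP (Fr fdet)

/-- the dual basis -/
noncomputable def dl (f : Fr) : Fr :=
  ((f.2.2 / fdet f, -f.2.1 / fdet f), (-f.1.2 / fdet f, f.1.1 / fdet f))

theorem fdet_dl {f : Fr} (hf : fdet f ≠ 0) : fdet (dl f) = 1 / fdet f := by
  have e : fdet (dl f) = (f.2.2 / fdet f) * (f.1.1 / fdet f) - (-f.2.1 / fdet f) * (-f.1.2 / fdet f) := rfl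
  have e2 : fdet f = f.1.1 * f.2.2 - f.1.2 * f.2.1 := rfl
  rw [e]
  field_simp
  rw [e2]
  ring

theorem dl_dl {f : Fr} (hf : fdet f ≠ 0) : dl (dl f) = f := by
  have h1 := fdet_dl hf
  have e : dl (dl f) = (((dl f).2.2 / fdet (dl f), -(dl f).2.1 / fdet (dl f)), (-(dl f).1.2 / fdet (dl f), (dl f).1.1 / fdet (dl f))) := rfl
  rw [e, h1]
  have e1 : (dl f).2.2 = f.1.1 / fdet f := rfl
  have e2 : (dl f).2.1 = -f.1.2 / fdet f := rfl
  have e3 : (dl f).1.2 = -f.2.1 / fdet f := rfl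
  have e4 : (dl f).1.1 = f.2.2 / fdet f := rfl
  rw [e1, e2, e3, e4]
  ext
  · simp only
    field_simp
  · simp only
    field_simp
  · simp only
    field_simp
  · simp only
    field_simp

theorem dl_diff : DifferentiableOn ℝ dl {f | fdet f ≠ 0} := by
  intro f hf
  have h1 : DifferentiableAt ℝ fdet f := by
    unfold fdet
    fun_prop
  have h2 : fdet f ≠ 0 := hf
  have h3 : DifferentiableAt ℝ (fun f => (fdet f)⁻¹) f := h1.inv h2
  have a : DifferentiableAt ℝ (fun f : Fr => f.2.2) f := by fun_prop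
  have b : DifferentiableAt ℝ (fun f : Fr => -f.2.1) f := by fun_prop
  have c : DifferentiableAt ℝ (fun f : Fr => -f.1.2) f := by fun_prop
  have d : DifferentiableAt ℝ (fun f : Fr => f.1.1) f := by fun_prop
  have e : dl = fun f : Fr => ((f.2.2 * (fdet f)⁻¹, -f.2.1 * (fdet f)⁻¹), (-f.1.2 * (fdet f)⁻¹, f.1.1 * (fdet f)⁻¹)) := by
    funext f
    unfold dl
    simp only [div_eq_mul_inv]
  rw [e]
  exact (((a.mul h3).prodMk (b.mul h3)).prodMk ((c.mul h3).prodMk (d.mul h3))).differentiableWithinAt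

instance haar2_92 : (volume : Measure (ℝ × ℝ)).IsAddHaarMeasure :=
  inferInstanceAs ((volume : Measure ℝ).prod (volume : Measure ℝ)).IsAddHaarMeasure

instance haar4_92 : (volume : Measure Fr).IsAddHaarMeasure :=
  inferInstanceAs ((volume : Measure (ℝ × ℝ)).prod (volume : Measure (ℝ × ℝ))).IsAddHaarMeasure

/-- from almost every frame to almost every basis -/
theorem ae_dual {P : Fr → Prop} (h : ∀ᵐ f : Fr, 0 < fdet f → P f) : ∀ᵐ f : Fr, 0 < fdet f → P (dl f) := by
  rw [ae_iff] at h ⊢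
  have h1 : {f : Fr | ¬(0 < fdet f → P (dl f))} ⊆ dl '' {f : Fr | ¬(0 < fdet f → P f)} := by
    intro f hf
    have hf' : ¬(0 < fdet f → P (dl f)) := hf
    rw [Classical.not_imp] at hf'
    obtain ⟨h2, h3⟩ := hf'
    refine ⟨dl f, ?_, dl_dl h2.ne'⟩
    show ¬(0 < fdet (dl f) → P (dl f))
    rw [Classical.not_imp]
    refine ⟨?_, h3⟩
    rw [fdet_dl h2.ne']
    positivity
  refine measure_mono_null h1 ?_
  refine addHaar_image_eq_zero_of_differentiableOn_of_addHaar_eq_zero volume (dl_diff.mono ?_) h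
  intro f hf
  have hf' : ¬(0 < fdet f → P f) := hf
  rw [Classical.not_imp] at hf'
  exact hf'.1.ne'

/-- exchange of the two vectors -/
theorem ae_swap {P : Fr → Prop} (h : ∀ᵐ f : Fr, P f) : ∀ᵐ f : Fr, P (f.2, f.1) := by
  have h1 : MeasurePreserving (Prod.swap : Fr → Fr) volume volume := Measure.measurePreserving_swap
  exact h1.quasiMeasurePreserving.ae h

private theorem line92 {x : ℝ × ℝ} (hx : x ≠ 0) : volume {y : ℝ × ℝ | x.1 * y.2 - x.2 * y.1 = 0} = 0 := by
  obtain ⟨S, hS⟩ : ∃ S : Submodule ℝ (ℝ × ℝ), ∀ y, y ∈ S ↔ x.1 * y.2 - x.2 * y.1 = 0 := by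
    refine ⟨{ carrier := {y | x.1 * y.2 - x.2 * y.1 = 0}, add_mem' := ?_, zero_mem' := ?_, smul_mem' := ?_ }, fun y => Iff.rfl⟩
    · intro y z hy hz
      have h1 : x.1 * y.2 - x.2 * y.1 = 0 := hy
      have h2 : x.1 * z.2 - x.2 * z.1 = 0 := hz
      show x.1 * (y + z).2 - x.2 * (y + z).1 = 0
      rw [Prod.fst_add, Prod.snd_add]
      linear_combination h1 + h2
    · show x.1 * (0 : ℝ × ℝ).2 - x.2 * (0 : ℝ × ℝ).1 = 0
      simp
    · intro c y hy
      have h1 : x.1 * y.2 - x.2 * y.1 = 0 := hy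
      show x.1 * (c • y).2 - x.2 * (c • y).1 = 0
      rw [Prod.smul_fst, Prod.smul_snd, smul_eq_mul, smul_eq_mul]
      linear_combination c * h1
  have hne : S ≠ ⊤ := by
    intro h
    have h1 : ((-x.2, x.1) : ℝ × ℝ) ∈ S := by
      rw [h]
      trivial
    rw [hS] at h1
    simp only at h1
    have h2 : x.1 ^ 2 + x.2 ^ 2 = 0 := by linarith
    apply hx
    ext
    · have : x.1 ^ 2 = 0 := by nlinarith [sq_nonneg x.1, sq_nonneg x.2]
      simpa using this
    · have : x.2 ^ 2 = 0 := by nlinarith [sq_nonneg x.1, sq_nonneg x.2]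
      simpa using this
  have h1 := Measure.addHaar_submodule (volume : Measure (ℝ × ℝ)) S hne
  have h2 : {y : ℝ × ℝ | x.1 * y.2 - x.2 * y.1 = 0} = (S : Set (ℝ × ℝ)) := by
    ext y
    exact (hS y).symm
  rw [h2]
  exact h1

/-- the determinant vanishes on a null set -/
theorem ae_det : ∀ᵐ f : Fr, fdet f ≠ 0 := by
  have hm : MeasurableSet {f : Fr | fdet f = 0} := by
    have h1 : Continuous fdet := by
      unfold fdet
      fun_prop
    exact (isClosed_eq h1 continuous_const).measurableSet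
  have h0 : (volume : Measure Fr) {f : Fr | fdet f = 0} = 0 := by
    rw [Measure.volume_eq_prod, Measure.measure_prod_null hm]
    have h1 : ∀ᵐ x : ℝ × ℝ, x ≠ 0 := by
      rw [ae_iff]
      simp
    filter_upwards [h1] with x hx
    exact line92 hx
  rw [ae_iff]
  simpa using h0

end Pool.Agent.Helper92.LA
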