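import Pool.Agent.Helper22.LP.P2
import Pool.Agent.Helper22.OV.Shift
import Pool.Agent.Helper92.LA.D1
import Pool.Agent.Helper92.LA.D2

/-!
# LA-D3: almost every lattice
-/

open MeasureTheory Real Set Filter Topology

set_option autoImplicit false

namespace Pool.Agent.Helper92.LA

open Pool.Agent.Helper22.AE
open Pool.Agent.Helper22.AC (cntc ga)
open Pool.Agent.Helper22.LP (Fr fdet Hf Hf_isSupp dom_lin area_lin)

/-- the number of points of the lattice `ℤ a + ℤ b` in `c + R · dom H`, `ab = (a, b)` -/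
noncomputable def lcnt (ab : Fr) (H : ℝ → ℝ) (c : ℝ × ℝ) (R : ℝ) : ℝ :=
  (Nat.card {k : ℤ × ℤ // ∀ t : ℝ, ((k.1 : ℝ) * ab.1.1 + (k.2 : ℝ) * ab.2.1 - c.1) * cos t +
    ((k.1 : ℝ) * ab.1.2 + (k.2 : ℝ) * ab.2.2 - c.2) * sin t ≤ R * H t} : ℝ)

theorem lcnt_eq {H : ℝ → ℝ} (hp : Function.Periodic H (2 * π)) {ab : Fr} (h : fdet ab ≠ 0) (c : ℝ × ℝ) (R : ℝ) :
    lcnt ab H c R = cntc (Hf H (dl ab)) ((dl ab).1.1 * c.1 + (dl ab).1.2 * c.2, (dl ab).2.1 * c.1 + (dl ab).2.2 * c.2) R := by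
  unfold lcnt cntc
  congr 1
  refine Nat.card_congr (Equiv.subtypeEquivRight fun k => ?_)
  have hd : fdet (dl ab) ≠ 0 := by
    rw [fdet_dl h]
    positivity
  have h1 := dom_lin hp hd R
  have e11 : (dl ab).1.1 = ab.2.2 / fdet ab := rfl
  have e12 : (dl ab).1.2 = -ab.2.1 / fdet ab := rfl
  have e21 : (dl ab).2.1 = -ab.1.2 / fdet ab := rfl
  have e22 : (dl ab).2.2 = ab.1.1 / fdet ab := rfl
  obtain ⟨D, hD⟩ : ∃ D : ℝ, D = fdet ab := ⟨_, rfl⟩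
  have hD0 : D ≠ 0 := by rwa [hD]
  have hD2 : D = ab.1.1 * ab.2.2 - ab.1.2 * ab.2.1 := hD
  rw [← hD] at e11 e12 e21 e22
  -- the coordinates of `k₁ a + k₂ b`
  have c1 : (dl ab).1.1 * ((k.1 : ℝ) * ab.1.1 + (k.2 : ℝ) * ab.2.1 - c.1) + (dl ab).1.2 * ((k.1 : ℝ) * ab.1.2 + (k.2 : ℝ) * ab.2.2 - c.2) =
      (k.1 : ℝ) - ((dl ab).1.1 * c.1 + (dl ab).1.2 * c.2) := by
    rw [e11, e12]
    field_simp
    rw [hD2]
    ring
  have c2 : (dl ab).2.1 * ((k.1 : ℝ) * ab.1.1 + (k.2 : ℝ) * ab.2.1 - c.1) + (dl ab).2.2 * ((k.1 : ℝ) * ab.1.2 + (k.2 : ℝ) * ab.2.2 - c.2) =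
      (k.2 : ℝ) - ((dl ab).2.1 * c.1 + (dl ab).2.2 * c.2) := by
    rw [e21, e22]
    field_simp
    rw [hD2]
    ring
  have key : ((k.1 : ℝ) * ab.1.1 + (k.2 : ℝ) * ab.2.1 - c.1, (k.1 : ℝ) * ab.1.2 + (k.2 : ℝ) * ab.2.2 - c.2) ∈ dom (fun t => R * H t) ↔
      ((k.1 : ℝ) - ((dl ab).1.1 * c.1 + (dl ab).1.2 * c.2), (k.2 : ℝ) - ((dl ab).2.1 * c.1 + (dl ab).2.2 * c.2)) ∈
        dom (fun t => R * Hf H (dl ab) t) := by
    rw [h1]
    constructor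
    · intro hq
      refine ⟨_, hq, ?_⟩
      simp only
      rw [c1, c2]
    · rintro ⟨q, hq, he⟩
      have he1 := congrArg Prod.fst he
      have he2 := congrArg Prod.snd he
      simp only at he1 he2
      rw [← c1] at he1
      rw [← c2] at he2
      -- injectivity
      set P : ℝ := (k.1 : ℝ) * ab.1.1 + (k.2 : ℝ) * ab.2.1 - c.1 with hP
      set Q : ℝ := (k.1 : ℝ) * ab.1.2 + (k.2 : ℝ) * ab.2.2 - c.2 with hQ
      have hdd : (dl ab).1.1 * (dl ab).2.2 - (dl ab).1.2 * (dl ab).2.1 ≠ 0 := hd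
      have q1 : (q.1 - P) * ((dl ab).1.1 * (dl ab).2.2 - (dl ab).1.2 * (dl ab).2.1) = 0 := by
        linear_combination (dl ab).2.2 * he1 - (dl ab).1.2 * he2
      have q2 : (q.2 - Q) * ((dl ab).1.1 * (dl ab).2.2 - (dl ab).1.2 * (dl ab).2.1) = 0 := by
        linear_combination (dl ab).1.1 * he2 - (dl ab).2.1 * he1
      have q3 : q.1 = P := by
        have := (mul_eq_zero.1 q1).resolve_right hdd
        linarith
      have q4 : q.2 = Q := by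
        have := (mul_eq_zero.1 q2).resolve_right hdd
        linarith
      have q5 : q = (P, Q) := by
        ext
        · exact q3
        · exact q4
      rwa [q5] at hq
  exact key

theorem lcnt_swap (ab : Fr) (H : ℝ → ℝ) (c : ℝ × ℝ) (R : ℝ) : lcnt (ab.2, ab.1) H c R = lcnt ab H c R := by
  unfold lcnt
  congr 1
  refine Nat.card_congr ((Equiv.prodComm ℤ ℤ).subtypeEquiv fun k => ?_)
  simp only [Equiv.prodComm_apply, Prod.fst_swap, Prod.snd_swap]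
  constructor
  · intro h t
    have := h t
    linarith
  · intro h t
    have := h t
    linarith

/-- every oval containing the origin, almost every lattice -/
theorem lattice_supp {H : ℝ → ℝ} (hH : IsSupp H) (h5 : ContDiff ℝ 5 H)
    (hmom : ∀ c₁ B : ℝ, 0 < c₁ → c₁ ≤ 1 → 1 ≤ B → MomP (Pool.Agent.Helper60.LT.Hom c₁ B)) :
    ∀ᵐ ab : Fr, fdet ab ≠ 0 ∧ ∀ ε : ℝ, 0 < ε → ∃ C : ℝ, ∀ R : ℝ, 1 ≤ R → ∀ c : ℝ × ℝ,
      |lcnt ab H c R - area H * R ^ 2 / abs (fdet ab)| ≤ C * R ^ (5 / 9 + ε) := by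
  have h1 := ae_dual (frame_ae hH h5 hmom)
  have h2 : ∀ᵐ ab : Fr, 0 < fdet ab → ∀ ε : ℝ, 0 < ε → ∃ C : ℝ, ∀ R : ℝ, 1 ≤ R → ∀ c : ℝ × ℝ,
      |lcnt ab H c R - area H * R ^ 2 / abs (fdet ab)| ≤ C * R ^ (5 / 9 + ε) := by
    filter_upwards [h1] with ab h hd ε hε
    obtain ⟨C, hC⟩ := h hd ε hε
    refine ⟨C, fun R hR c => ?_⟩
    have h3 := hC R hR ((dl ab).1.1 * c.1 + (dl ab).1.2 * c.2, (dl ab).2.1 * c.1 + (dl ab).2.2 * c.2)
    have hdl : fdet (dl ab) ≠ 0 := by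
      rw [fdet_dl hd.ne']
      positivity
    rw [← lcnt_eq hH.per hd.ne', area_lin hH.per hdl, fdet_dl hd.ne', abs_div, abs_one] at h3
    have e : 1 / |fdet ab| * area H * R ^ 2 = area H * R ^ 2 / |fdet ab| := by ring
    rwa [e] at h3
  have h3 := ae_swap h2
  filter_upwards [h2, h3, ae_det] with ab h4 h5 h6
  refine ⟨h6, fun ε hε => ?_⟩
  rcases lt_or_gt_of_ne h6 with h7 | h7
  · have e : fdet (ab.2, ab.1) = -fdet ab := by
      unfold fdet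
      simp only
      ring
    obtain ⟨C, hC⟩ := h5 (by rw [e]; linarith) ε hε
    refine ⟨C, fun R hR c => ?_⟩
    have h8 := hC R hR c
    rwa [lcnt_swap, e, abs_neg] at h8
  · exact h4 h7 ε hε

/-- every oval, almost every lattice -/
theorem lattice_ae {H : ℝ → ℝ} (h5 : ContDiff ℝ 5 H) (hp : Function.Periodic H (2 * π)) (hr : ∀ t, 0 < H t + deriv (deriv H) t)
    (hmom : ∀ c₁ B : ℝ, 0 < c₁ → c₁ ≤ 1 → 1 ≤ B → MomP (Pool.Agent.Helper60.LT.Hom c₁ B)) :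
    ∀ᵐ ab : Fr, fdet ab ≠ 0 ∧ ∀ ε : ℝ, 0 < ε → ∃ C : ℝ, ∀ R : ℝ, 1 ≤ R → ∀ c : ℝ × ℝ,
      |lcnt ab H c R - area H * R ^ 2 / abs (fdet ab)| ≤ C * R ^ (5 / 9 + ε) := by
  obtain ⟨v, hv⟩ := Pool.Agent.Helper22.OV.exists_shift (h5.of_le (by norm_num)) hp hr
  filter_upwards [lattice_supp hv (Pool.Agent.Helper22.OV.shf_smooth v h5) hmom] with ab h
  refine ⟨h.1, fun ε hε => ?_⟩
  obtain ⟨C, hC⟩ := h.2 ε hε
  refine ⟨C, fun R hR c => ?_⟩
  have h1 := hC R hR (c.1 - R * v.1, c.2 - R * v.2)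
  rw [Pool.Agent.Helper22.OV.area_shf] at h1
  have h2 : lcnt ab (Pool.Agent.Helper22.OV.shf H v) (c.1 - R * v.1, c.2 - R * v.2) R = lcnt ab H c R := by
    unfold lcnt
    congr 1
    refine Nat.card_congr (Equiv.subtypeEquivRight fun k => ?_)
    refine forall_congr' fun t => ?_
    unfold Pool.Agent.Helper22.OV.shf
    simp only
    constructor
    · intro h
      linarith
    · intro h
      linarith
  rwa [h2] at h1

end Pool.Agent.Helper92.LA
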