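import Pool.Agent.Helper92.DT.R0
import Pool.Agent.Helper22.LP.Defs

/-!
# LA (MP_fb29e9_nt): almost every lattice, from the moment theorem to the count. Definitions

Frames `Fr`, `fk`, `fdet`, `nr`, `LS` from Helper22.LP.Defs.
-/

open MeasureTheory Real Set Filter Topology

set_option autoImplicit false

namespace Pool.Agent.Helper92.LA

open Pool.Agent.Helper22.AE
open Pool.Agent.Helper92.GC (dt sqa)
open Pool.Agent.Helper92.DT (m12)
open Pool.Agent.Helper22.LP (Fr fv fk fdet nr tr hom LS)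

/-- bounded frames -/
structure Fb (M : ℝ) (f : Fr) : Prop where
  a : |f.1.1| ≤ M
  b : |f.1.2| ≤ M
  c : |f.2.1| ≤ M
  d : |f.2.2| ≤ M
  det : 1 ≤ M * |fdet f|

/-- phases: homogeneous of degree 1 and Lipschitz with constant `B` on the square `|v₁|, |v₂| ≤ 1` -/
structure HL (B : ℝ) (h : ℝ × ℝ → ℝ) : Prop where
  hom : ∀ (s : ℝ) (v : ℝ × ℝ), 0 < s → h (s * v.1, s * v.2) = s * h v
  lip : ∀ v w : ℝ × ℝ, |v.1| ≤ 1 → |v.2| ≤ 1 → |w.1| ≤ 1 → |w.2| ≤ 1 → |h v - h w| ≤ B * (|v.1 - w.1| + |v.2 - w.2|)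

/-- weights: homogeneous of degree 0, bounded by `B` and Lipschitz with constant `B` on the boundary of the square -/
structure WL (B : ℝ) (w : ℝ × ℝ → ℂ) : Prop where
  hom : ∀ (s : ℝ) (v : ℝ × ℝ), 0 < s → w (s * v.1, s * v.2) = w v
  bdd : ∀ v : ℝ × ℝ, ‖w v‖ ≤ B
  lip : ∀ v v' : ℝ × ℝ, max |v.1| |v.2| = 1 → max |v'.1| |v'.2| = 1 → ‖w v - w v'‖ ≤ B * (|v.1 - v'.1| + |v.2 - v'.2|)

/-- the twelfth moment over the centres and over `r` -/
noncomputable def JJ (f : Fr) (h : ℝ × ℝ → ℝ) (X : ℝ) (N : ℕ) : ℝ :=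
  ∫ r in Icc (X / 4) (8 * X), m12 (sqa N) (fun k => ee (r * h (fk f k)))

/-- the bound of the moment theorem -/
noncomputable def MB (X N : ℝ) : ℝ := N ^ 12 + N ^ 18 * (X * N) ^ (-(3 / 2) : ℝ) + N ^ 22 * (X * N) ^ (-(5 / 2) : ℝ)

end Pool.Agent.Helper92.LA
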