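import Pool.Agent.Helper92.LA.E4

/-!
# LA-E5: the twentieth mean over the radii of the supremum over the centres, one dyadic interval
-/

open MeasureTheory Real Set Filter Topology

set_option autoImplicit false

namespace Pool.Agent.Helper92.LA

open Pool.Agent.Helper22.AE
open Pool.Agent.Helper22.AC (cntc ga)
open Pool.Agent.Helper22.OV (o3_k0_cont o3_k0_nonneg cntc_bdd)
open Pool.Agent.Helper92.GC (dt sqa)
open Pool.Agent.Helper22.LP (Fr fv fk fdet cp nr tr hom LS wr Hf Hf_isSupp nr_eq nr_pos)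

private theorem fb_e5 {f : Fr} (hf : fdet f ≠ 0) : ∃ M : ℝ, 1 ≤ M ∧ Fb M f := by
  have h0 : 0 < |fdet f| := abs_pos.2 hf
  refine ⟨1 + |f.1.1| + |f.1.2| + |f.2.1| + |f.2.2| + 1 / |fdet f|, ?_, ?_⟩
  · have := abs_nonneg f.1.1
    have := abs_nonneg f.1.2
    have := abs_nonneg f.2.1
    have := abs_nonneg f.2.2
    have : 0 ≤ 1 / |fdet f| := by positivity
    linarith
  · have h1 := abs_nonneg f.1.1
    have h2 := abs_nonneg f.1.2
    have h3 := abs_nonneg f.2.1
    have h4 := abs_nonneg f.2.2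
    have h5 : 0 ≤ 1 / |fdet f| := by positivity
    refine ⟨by linarith, by linarith, by linarith, by linarith, ?_⟩
    have h6 : 1 = 1 / |fdet f| * |fdet f| := by field_simp
    calc (1 : ℝ) = 1 / |fdet f| * |fdet f| := h6
      _ ≤ _ := mul_le_mul_of_nonneg_right (by linarith) h0.le

private theorem k0_mass_e5 {α₀ β : ℝ} (h0 : 0 < α₀) (h1 : α₀ < π / 2) (hβ : 0 < β) : ∫ α in Icc (-α₀) α₀, k0 β α ≤ 20 := by
  have hpi := Real.pi_pos
  have h2 := k0_int hβ
  rw [intervalIntegral.integral_of_le (by linarith)] at h2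
  refine le_trans (setIntegral_mono_set ?_ (Eventually.of_forall (o3_k0_nonneg hβ)) (Eventually.of_forall ?_)) h2
  · rw [← integrableOn_Icc_iff_integrableOn_Ioc]
    exact (o3_k0_cont hβ).continuousOn.integrableOn_compact isCompact_Icc
  · intro x hx
    exact ⟨by linarith [hx.1], by linarith [hx.2]⟩

/-- Hoelder, in the form which is needed -/
private theorem hold_e5 {α₀ : ℝ} {κ J : ℝ → ℝ} (hκ : Continuous κ) (hκ0 : ∀ α, 0 ≤ κ α) (hJ : Continuous J) (hJ0 : ∀ α, 0 ≤ J α)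
    (hκ1 : ∫ α in Icc (-α₀) α₀, κ α ≤ 20) {l : ℝ} (hl : 0 < l) (hJ1 : ∫ α in Icc (-α₀) α₀, κ α * J α ≤ l ^ 12) :
    ∫ α in Icc (-α₀) α₀, κ α * J α ^ (1 / 12 : ℝ) ≤ 21 * l := by
  have hpt : ∀ α, κ α * J α ^ (1 / 12 : ℝ) ≤ l * κ α + 1 / l ^ 11 * (κ α * J α) := by
    intro α
    have h1 : J α ^ (1 / 12 : ℝ) ≤ l + 1 / l ^ 11 * J α := by
      obtain ⟨y, hy⟩ : ∃ y : ℝ, y = J α ^ (1 / 12 : ℝ) := ⟨_, rfl⟩
      have hy0 : 0 ≤ y := by
        rw [hy]
        exact rpow_nonneg (hJ0 α) _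
      have hy12 : y ^ 12 = J α := by
        rw [hy, ← rpow_natCast, ← rpow_mul (hJ0 α)]
        norm_num
      rw [← hy, ← hy12]
      rcases le_total y l with h | h
      · have : 0 ≤ 1 / l ^ 11 * y ^ 12 := by positivity
        linarith
      · have h2 : l ^ 11 ≤ y ^ 11 := pow_le_pow_left₀ hl.le h 11
        have h3 : y ≤ 1 / l ^ 11 * y ^ 12 := by
          rw [one_div, inv_mul_eq_div, le_div_iff₀ (by positivity)]
          calc y * l ^ 11 ≤ y * y ^ 11 := mul_le_mul_of_nonneg_left h2 hy0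
            _ = y ^ 12 := by ring
        linarith
    calc κ α * J α ^ (1 / 12 : ℝ) ≤ κ α * (l + 1 / l ^ 11 * J α) := mul_le_mul_of_nonneg_left h1 (hκ0 α)
      _ = _ := by ring
  have hJc : Continuous fun α => J α ^ (1 / 12 : ℝ) := hJ.rpow_const fun _ => Or.inr (by norm_num)
  calc ∫ α in Icc (-α₀) α₀, κ α * J α ^ (1 / 12 : ℝ) ≤ ∫ α in Icc (-α₀) α₀, (l * κ α + 1 / l ^ 11 * (κ α * J α)) := by
        refine setIntegral_mono_on ?_ ?_ measurableSet_Icc fun α _ => hpt α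
        · exact (hκ.mul hJc).continuousOn.integrableOn_compact isCompact_Icc
        · exact ((continuous_const.mul hκ).add (continuous_const.mul (hκ.mul hJ))).continuousOn.integrableOn_compact isCompact_Icc
    _ = l * (∫ α in Icc (-α₀) α₀, κ α) + 1 / l ^ 11 * ∫ α in Icc (-α₀) α₀, κ α * J α := by
        rw [integral_add, integral_const_mul, integral_const_mul]
        · exact (continuous_const.mul hκ).continuousOn.integrableOn_compact isCompact_Icc
        · exact (continuous_const.mul (hκ.mul hJ)).continuousOn.integrableOn_compact isCompact_Icc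
    _ ≤ l * 20 + 1 / l ^ 11 * l ^ 12 := by
        have h2 : 0 ≤ 1 / l ^ 11 := by positivity
        have := mul_le_mul_of_nonneg_left hκ1 hl.le
        have := mul_le_mul_of_nonneg_left hJ1 h2
        linarith
    _ = 21 * l := by
        field_simp
        ring

/-- the trivial bound of the sums -/
private theorem ls_triv_e5 {M B : ℝ} (hM : 1 ≤ M) {f : Fr} (hf : Fb M f) {h : ℝ × ℝ → ℝ} {w : ℝ × ℝ → ℂ} (hw : WL B w) {i N : ℕ}
    (hi : i ≤ 2) (hN : 1 ≤ N) (r : ℝ) (c : ℝ × ℝ) : ‖LS f h w i N r c‖ ≤ 25 * (2 * M ^ 2) ^ 2 * B * (N : ℝ) ^ 2 := by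
  classical
  have hB : 0 ≤ B := (norm_nonneg _).trans (hw.bdd (0, 0))
  have hNr : (1 : ℝ) ≤ N := by exact_mod_cast hN
  have hM2 : 1 ≤ 2 * M ^ 2 := by nlinarith
  have hterm : ∀ k ∈ sqa N, ‖(((N : ℝ) / nr (fk f k) : ℝ) : ℂ) ^ i * w (fk f k) * ee (r * h (fk f k) + dt k c)‖ ≤ (2 * M ^ 2) ^ 2 * B := by
    intro k hk
    rw [norm_mul, norm_mul, norm_pow, ee_norm, mul_one, Complex.norm_real, Real.norm_eq_abs]
    obtain ⟨⟨a, b⟩, c', d⟩ := f
    obtain ⟨h1, -, -⟩ := fr_bd hM hf hk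
    have h2 : max |lf a c' k| |lf b d k| ≤ nr (fk ((a, b), c', d) k) := by
      rw [nr_eq]
      have e1 : (fk ((a, b), c', d) k).1 = lf a c' k := by
        unfold fk fv lf
        simp only
        ring
      have e2 : (fk ((a, b), c', d) k).2 = lf b d k := by
        unfold fk fv lf
        simp only
        ring
      rw [e1, e2]
      refine max_le ?_ ?_
      · apply Real.le_sqrt_of_sq_le
        rw [sq_abs]
        linarith [sq_nonneg (lf b d k)]
      · apply Real.le_sqrt_of_sq_le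
        rw [sq_abs]
        linarith [sq_nonneg (lf a c' k)]
    have h3 : (N : ℝ) ≤ 2 * M ^ 2 * nr (fk ((a, b), c', d) k) :=
      h1.trans (mul_le_mul_of_nonneg_left h2 (by positivity))
    have h4 : 0 < nr (fk ((a, b), c', d) k) := by
      by_contra hn
      push Not at hn
      have := mul_nonpos_of_nonneg_of_nonpos (show 0 ≤ 2 * M ^ 2 by positivity) hn
      linarith
    have h5 : |(N : ℝ) / nr (fk ((a, b), c', d) k)| ≤ 2 * M ^ 2 := by
      rw [abs_of_nonneg (by positivity), div_le_iff₀ h4]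
      exact h3
    have h6 : |(N : ℝ) / nr (fk ((a, b), c', d) k)| ^ i ≤ (2 * M ^ 2) ^ 2 :=
      (pow_le_pow_left₀ (abs_nonneg _) h5 i).trans (pow_le_pow_right₀ hM2 hi)
    exact mul_le_mul h6 (hw.bdd _) (norm_nonneg _) (by positivity)
  have hcard : ((sqa N).card : ℝ) ≤ 25 * (N : ℝ) ^ 2 := by
    have h1 : (sqa N).card ≤ (box (2 * N)).card := Finset.card_le_card (Finset.filter_subset _ _)
    have h2 : (box (2 * N)).card = (4 * N + 1) ^ 2 := by
      unfold box
      rw [Finset.card_product, Int.card_Icc]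
      have : (((2 * N : ℕ) : ℤ) + 1 - -((2 * N : ℕ) : ℤ)).toNat = 4 * N + 1 := by omega
      rw [this]
      ring
    rw [h2] at h1
    have h3 : ((sqa N).card : ℝ) ≤ (4 * (N : ℝ) + 1) ^ 2 := by exact_mod_cast h1
    refine h3.trans ?_
    nlinarith
  unfold LS
  refine (norm_sum_le _ _).trans ((Finset.sum_le_sum hterm).trans ?_)
  rw [Finset.sum_const, nsmul_eq_mul]
  have := mul_le_mul_of_nonneg_right hcard (show 0 ≤ (2 * M ^ 2) ^ 2 * B by positivity)
  linarith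

private lemma key_e5 {z G : ℝ} (hz : 0 ≤ z) (h : z ^ 12 ≤ G) : z ≤ G ^ (1 / 12 : ℝ) := by
  calc z = (z ^ 12) ^ (1 / 12 : ℝ) := by
        rw [← rpow_natCast, ← rpow_mul hz]
        norm_num
    _ ≤ G ^ (1 / 12 : ℝ) := rpow_le_rpow (by positivity) h (by norm_num)

private lemma mb_e5 (x n : ℝ) : MB (exp x) (exp n) ≤ 3 * exp (mue x n) := by
  unfold MB
  have h12 : exp n ^ 12 = exp (12 * n) := by
    rw [← exp_nat_mul]
    norm_num
  have h18 : exp n ^ 18 = exp (18 * n) := by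
    rw [← exp_nat_mul]
    norm_num
  have h22 : exp n ^ 22 = exp (22 * n) := by
    rw [← exp_nat_mul]
    norm_num
  rw [h12, h18, h22, ← exp_add x n, ← exp_mul, ← exp_mul, ← exp_add, ← exp_add]
  have m1 : 12 * n ≤ mue x n := le_max_left _ _
  have m2 : 39 / 2 * n - 5 / 2 * x ≤ mue x n := le_max_right _ _
  have t1 : exp (12 * n) ≤ exp (mue x n) := exp_le_exp.2 m1
  have t2 : exp (18 * n + (x + n) * -(3 / 2)) ≤ exp (mue x n) := by
    rw [exp_le_exp]
    linarith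
  have t3 : exp (22 * n + (x + n) * -(5 / 2)) ≤ exp (mue x n) := by
    rw [exp_le_exp]
    linarith
  linarith

private lemma bxe_e5 {x n e : ℝ} (hn : 0 ≤ n) (hnx : n ≤ x / 2) (he : 0 < e) (he1 : e ≤ 1 / 1000) :
    0 ≤ bxe x n e ∧ 8 * bxe x n e + 6 * x - 16 * n + ((1 + e) * x + mue x n) ≤ (11 + 2 * e) * x ∧
      8 * bxe x n e + 6 * x - 18 * n ≤ (10 + 2 * e) * x ∧ 8 * bxe x n e ≤ (10 + 2 * e) * x := by
  have hx : 0 ≤ x := by linarith
  have hex : 0 ≤ e * x := mul_nonneg he.le hx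
  have hex1 : e * x ≤ 1 / 1000 * x := mul_le_mul_of_nonneg_right he1 hx
  unfold bxe
  split_ifs with h
  · have hm : mue x n = 12 * n := by
      unfold mue
      exact max_eq_left (by linarith)
    rw [hm]
    refine ⟨by linarith, by linarith, by linarith, by linarith⟩
  · push Not at h
    unfold mue
    rcases le_total (39 / 2 * n - 5 / 2 * x) (12 * n) with h1 | h1
    · rw [max_eq_left h1]
      refine ⟨by linarith, by linarith, by linarith, by linarith⟩
    · rw [max_eq_right h1]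
      refine ⟨by linarith, by linarith, by linarith, by linarith⟩

private lemma y20_e5 {x n A I l Cy C₅ P : ℝ} (hI0 : 0 ≤ I) (hI : I ≤ 21 * l) (hl : l ^ 12 = C₅ * exp (2 * n) * P + 1)
    (hsup : exp (x / 2 - 3 / 2 * n) * I + 1 ≤ Cy * exp A) :
    (exp (x / 2 - 3 / 2 * n) * I + 1) ^ 20 ≤ Cy ^ 8 * (2 ^ 11 * 21 ^ 12) *
      (C₅ * (exp (8 * A + 6 * x - 16 * n) * P) + exp (8 * A + 6 * x - 18 * n) + exp (8 * A)) := by
  have hy0 : 0 ≤ exp (x / 2 - 3 / 2 * n) * I + 1 := by positivity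
  have h1 : (exp (x / 2 - 3 / 2 * n)) ^ 12 = exp (6 * x - 18 * n) := by
    rw [← exp_nat_mul]
    congr 1
    push_cast
    ring
  have h3 : I ^ 12 ≤ 21 ^ 12 * (C₅ * exp (2 * n) * P + 1) := by
    rw [← hl, ← mul_pow]
    exact pow_le_pow_left₀ hI0 hI 12
  have h4 := add_pow_le (a := exp (x / 2 - 3 / 2 * n) * I) (b := 1) (by positivity) zero_le_one 12
  rw [mul_pow, h1, one_pow] at h4
  have h5 : exp (6 * x - 18 * n) * I ^ 12 ≤ exp (6 * x - 18 * n) * (21 ^ 12 * (C₅ * exp (2 * n) * P + 1)) :=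
    mul_le_mul_of_nonneg_left h3 (exp_pos _).le
  have h6 : exp (6 * x - 18 * n) * exp (2 * n) = exp (6 * x - 16 * n) := by
    rw [← exp_add]
    congr 1
    ring
  have h7 : exp (6 * x - 18 * n) * (21 ^ 12 * (C₅ * exp (2 * n) * P + 1)) =
      21 ^ 12 * (C₅ * (exp (6 * x - 16 * n) * P) + exp (6 * x - 18 * n)) := by
    rw [← h6]
    ring
  have h8 : (exp (x / 2 - 3 / 2 * n) * I + 1) ^ 12 ≤ 2 ^ 11 * 21 ^ 12 * (C₅ * (exp (6 * x - 16 * n) * P) + exp (6 * x - 18 * n) + 1) := by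
    refine h4.trans ?_
    norm_num at h5 h7 ⊢
    linarith
  have h9 : (exp (x / 2 - 3 / 2 * n) * I + 1) ^ 8 ≤ Cy ^ 8 * exp (8 * A) := by
    have h10 : exp (8 * A) = exp A ^ 8 := by
      rw [← exp_nat_mul]
      congr 1
    rw [h10, ← mul_pow]
    exact pow_le_pow_left₀ hy0 hsup 8
  have e1 : exp (8 * A) * exp (6 * x - 16 * n) = exp (8 * A + 6 * x - 16 * n) := by
    rw [← exp_add]
    congr 1
    ring
  have e2 : exp (8 * A) * exp (6 * x - 18 * n) = exp (8 * A + 6 * x - 18 * n) := by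
    rw [← exp_add]
    congr 1
    ring
  have h0 : 0 ≤ Cy ^ 8 * exp (8 * A) := (pow_nonneg hy0 8).trans h9
  calc (exp (x / 2 - 3 / 2 * n) * I + 1) ^ 20 = (exp (x / 2 - 3 / 2 * n) * I + 1) ^ 8 * (exp (x / 2 - 3 / 2 * n) * I + 1) ^ 12 := by ring
    _ ≤ Cy ^ 8 * exp (8 * A) * (2 ^ 11 * 21 ^ 12 * (C₅ * (exp (6 * x - 16 * n) * P) + exp (6 * x - 18 * n) + 1)) :=
        mul_le_mul h9 h8 (pow_nonneg hy0 12) h0
    _ = _ := by
        rw [← e1, ← e2]
        ring

private lemma psum_e5 {n1 : ℕ} {x : ℝ} {y : ℕ → ℝ} (hx : 0 ≤ x) (hy : ∀ i, 0 ≤ y i) :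
    (x + ∑ i ∈ Finset.range n1, y i) ^ 20 ≤ ((n1 : ℝ) + 1) ^ 19 * (x ^ 20 + ∑ i ∈ Finset.range n1, y i ^ 20) := by
  obtain ⟨F, h0, h1⟩ : ∃ F : ℕ → ℝ, F 0 = x ∧ ∀ i, F (i + 1) = y i := ⟨fun i => Nat.casesOn i x y, rfl, fun _ => rfl⟩
  have h2 := pow_sum_le_card_mul_sum_pow (s := Finset.range (n1 + 1)) (f := F) (fun i _ => by
    cases i with
    | zero =>
      rw [h0]
      exact hx
    | succ i =>
      rw [h1]
      exact hy i) 19
  rw [Finset.sum_range_succ', Finset.sum_range_succ', Finset.card_range] at h2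
  simp only [h0, h1] at h2
  push_cast at h2
  rw [add_comm x, add_comm (x ^ 20)]
  exact h2

/-- one frame, one dyadic interval -/
theorem mean_core20 {H : ℝ → ℝ} {α₀ B : ℝ} (ha0 : 0 < α₀) (ha1 : α₀ < π / 2) (hB : 1 ≤ B)
    (hjc : Continuous fun q : ℝ × (ℝ × ℝ) => hom (ga H q.1) q.2)
    (hfam : ∀ α ∈ Icc (-α₀) α₀, HL B (hom (ga H α)) ∧ WL B (wr H α) ∧ WL B (fun _ => 1)) {f : Fr} (hf : fdet f ≠ 0)
    (hlpt : LPT H f) {e : ℝ} (he : 0 < e) (he1 : e ≤ 1 / 1000) {C₁ : ℝ} (hC₁ : 0 ≤ C₁)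
    (hJ : ∀ p n : ℕ, n ≤ p → ∫ α in Icc (-α₀) α₀, k0 (1 / sqrt ((2 : ℝ) ^ p * ((2 ^ n : ℕ) : ℝ))) α * JJ f (hom (ga H α)) ((2 : ℝ) ^ p) (2 ^ n) ≤
      C₁ * (((2 : ℝ) ^ p) ^ (1 + e) * MB ((2 : ℝ) ^ p) (2 ^ n))) :
    ∃ C R₁ : ℝ, 0 ≤ C ∧ 4 ≤ R₁ ∧ ∀ p : ℕ, R₁ ≤ (2 : ℝ) ^ p →
      ∫⁻ R in Icc ((2 : ℝ) ^ p) (2 * (2 : ℝ) ^ p), sup20 (fun c R => cntc (Hf H f) c R - area (Hf H f) * R ^ 2) R ≤
        ENNReal.ofReal (C * ((2 : ℝ) ^ p) ^ (11 + 40 * e)) := by
  classical
  obtain ⟨M, hM, hfb⟩ := fb_e5 hf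
  obtain ⟨C₂, hC₂, hls⟩ := ls_pt (M := M) (B := B) hM
  obtain ⟨C₆, hC₆, hlj⟩ := ls_le (M := M) (B := B) hM
  obtain ⟨C₃, R₁, κ₀, hC₃, hR₁, hκ₀, hlp⟩ := hlpt (1 / 2 - e) e α₀ (by linarith) (by linarith) he ha0 ha1
  obtain ⟨T, hT⟩ : ∃ T : ℝ, T = 25 * (2 * M ^ 2) ^ 2 * B := ⟨_, rfl⟩
  have hT0 : 0 ≤ T := by
    rw [hT]
    positivity
  obtain ⟨D, hD⟩ : ∃ D : ℝ, D = 3 * C₁ * C₆ + 1 := ⟨_, rfl⟩
  have hD1 : 1 ≤ D := by
    rw [hD]
    have : 0 ≤ 3 * C₁ * C₆ := by positivity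
    linarith
  have hD0 : 0 < D := by linarith
  have hD12 : 3 * C₁ * C₆ ≤ D ^ 12 := by
    have h1 : D ≤ D ^ 12 := by
      calc D = D ^ 1 := (pow_one D).symm
        _ ≤ D ^ 12 := pow_le_pow_right₀ hD1 (by norm_num)
    linarith
  obtain ⟨Cy, hCy⟩ : ∃ Cy : ℝ, Cy = 20 * T + 21 * D + 1 := ⟨_, rfl⟩
  have hCy0 : 0 ≤ Cy := by
    rw [hCy]
    positivity
  obtain ⟨K, hK⟩ : ∃ K : ℝ, K = Cy ^ 8 * (2 ^ 11 * 21 ^ 12) := ⟨_, rfl⟩
  have hK0 : 0 ≤ K := by
    rw [hK]
    positivity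
  refine ⟨C₃ ^ 20 * (2 / e + 2) ^ 20 * (1 + K * (6 * C₁ * C₂ + 2)), max (max R₁ 4) (κ₀ ^ (1 / (1 / 2 - e))), by positivity,
    (le_max_right _ _).trans (le_max_left _ _), ?_⟩
  intro p hp
  obtain ⟨X, hX⟩ : ∃ X : ℝ, X = (2 : ℝ) ^ p := ⟨_, rfl⟩
  rw [← hX] at hp ⊢
  have hX4 : 4 ≤ X := ((le_max_right _ _).trans (le_max_left _ _)).trans hp
  have hXR1 : R₁ ≤ X := ((le_max_left _ _).trans (le_max_left _ _)).trans hp
  have hX1 : 1 ≤ X := by linarith
  have hX0 : 0 < X := by linarith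
  obtain ⟨d, hd⟩ : ∃ d : ℝ, d = κ₀ * X ^ (-(1 / 2 - e)) := ⟨_, rfl⟩
  have hd0 : 0 < d := by
    rw [hd]
    positivity
  have hd1 : d ≤ 1 := by
    have h1 : κ₀ ^ (1 / (1 / 2 - e)) ≤ X := (le_max_right _ _).trans hp
    have h2 : κ₀ ≤ X ^ (1 / 2 - e) := by
      have h3 := rpow_le_rpow (by positivity) h1 (show 0 ≤ 1 / 2 - e by linarith)
      rw [← rpow_mul hκ₀.le, one_div_mul_cancel (by linarith), rpow_one] at h3
      exact h3
    rw [hd, rpow_neg hX0.le, ← div_eq_mul_inv, div_le_one (by positivity)]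
    exact h2
  obtain ⟨x, hx⟩ : ∃ x : ℝ, x = log X := ⟨_, rfl⟩
  have hXx : X = exp x := by
    rw [hx, exp_log hX0]
  have hXpow : ∀ y : ℝ, X ^ y = exp (y * x) := by
    intro y
    rw [hXx, ← exp_mul, mul_comm]
  obtain ⟨n1, hn1⟩ : ∃ n1 : ℕ, n1 = ⌈(1 / 2 : ℝ) * p⌉₊ := ⟨_, rfl⟩
  have hXp : ∀ y : ℝ, X ^ y = (2 : ℝ) ^ (p * y) := by
    intro y
    rw [hX, ← rpow_natCast 2 p, ← rpow_mul (by norm_num)]
  have hn1a : X ^ (1 / 2 - e + e) ≤ 2 ^ n1 := by
    rw [hXp, ← rpow_natCast]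
    refine rpow_le_rpow_of_exponent_le (by norm_num) ?_
    rw [hn1]
    have : (p : ℝ) * (1 / 2 - e + e) = 1 / 2 * p := by ring
    rw [this]
    exact Nat.le_ceil _
  have hn1b : ∀ n < n1, (n : ℝ) < 1 / 2 * p := by
    intro n hn
    rw [hn1] at hn
    exact Nat.lt_ceil.1 hn
  have hnp : ∀ n < n1, n ≤ p := by
    intro n hn
    have h1 := hn1b n hn
    have h2 : (0 : ℝ) ≤ p := Nat.cast_nonneg p
    have h3 : (n : ℝ) < p := by linarith
    exact_mod_cast h3.le
  have hn1c : (n1 : ℝ) + 1 ≤ (2 / e + 2) * X ^ e := by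
    have h1 : (n1 : ℝ) < 1 / 2 * p + 1 := by
      rw [hn1]
      exact Nat.ceil_lt_add_one (by positivity)
    have h2 : log X ≤ X ^ e / e := log_le_rpow_div hX0.le he
    have h3 : (1 : ℝ) / 2 < log 2 := by
      have := log_two_gt_d9
      linarith
    have h4 : log X = p * log 2 := by
      rw [hX, log_pow]
    have h5 : (p : ℝ) * (1 / 2) ≤ X ^ e / e := by
      have : (p : ℝ) * (1 / 2) ≤ p * log 2 := mul_le_mul_of_nonneg_left h3.le (Nat.cast_nonneg p)
      linarith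
    have h6 : 1 ≤ X ^ e := one_le_rpow hX1 he.le
    have h8 : 2 / e * X ^ e = 2 * (X ^ e / e) := by ring
    have h9 : 0 ≤ X ^ e / e := by positivity
    linarith
  obtain ⟨ν, hν⟩ : ∃ ν : ℕ → ℝ, ∀ n, ν n = n * log 2 := ⟨_, fun _ => rfl⟩
  have hNr : ∀ n : ℕ, ((2 ^ n : ℕ) : ℝ) = (2 : ℝ) ^ n := fun n => by push_cast; rfl
  have hNe : ∀ n : ℕ, ((2 ^ n : ℕ) : ℝ) = exp (ν n) := by
    intro n
    rw [hNr, hν, exp_nat_mul, exp_log (by norm_num)]
  have hν0 : ∀ n, 0 ≤ ν n := by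
    intro n
    rw [hν]
    have := log_two_gt_d9
    positivity
  have hνx : ∀ n < n1, ν n ≤ x / 2 := by
    intro n hn
    have h1 := hn1b n hn
    have h2 : x = p * log 2 := by
      rw [hx, hX, log_pow]
    have h3 : 0 < log 2 := log_pos (by norm_num)
    rw [hν, h2]
    have := mul_le_mul_of_nonneg_right h1.le h3.le
    linarith
  -- the functions
  have hN1 : ∀ n : ℕ, 1 ≤ 2 ^ n := fun n => Nat.one_le_two_pow
  have hNr1 : ∀ n : ℕ, (1 : ℝ) ≤ ((2 ^ n : ℕ) : ℝ) := fun n => by exact_mod_cast hN1 n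
  have hβ : ∀ n : ℕ, 0 < 1 / sqrt (X * ((2 ^ n : ℕ) : ℝ)) := by
    intro n
    have := hNr1 n
    positivity
  obtain ⟨κ, hκd⟩ : ∃ κ : ℕ → ℝ → ℝ, ∀ n, κ n = k0 (1 / sqrt (X * ((2 ^ n : ℕ) : ℝ))) := ⟨_, fun _ => rfl⟩
  have hκc : ∀ n, Continuous (κ n) := by
    intro n
    rw [hκd]
    exact o3_k0_cont (hβ n)
  have hκ0 : ∀ n α, 0 ≤ κ n α := by
    intro n α
    rw [hκd]
    exact o3_k0_nonneg (hβ n) α
  have hκ1 : ∀ n, ∫ α in Icc (-α₀) α₀, κ n α ≤ 20 := by
    intro n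
    rw [hκd]
    exact k0_mass_e5 ha0 ha1 (hβ n)
  obtain ⟨W, hWd⟩ : ∃ W : ℕ → ℝ → ℝ → ℝ, ∀ n α r, W n α r = MR f (hom (ga H α)) r (2 ^ n) := ⟨_, fun _ _ _ => rfl⟩
  have hWc : ∀ n, Continuous fun q : ℝ × ℝ => W n q.1 q.2 := by
    intro n
    simp only [hWd]
    exact MR_cont (h := fun α => hom (ga H α)) hjc f (2 ^ n)
  have hW0 : ∀ n α r, 0 ≤ W n α r := by
    intro n α r
    rw [hWd]
    exact MR_nonneg _ _ _ _
  obtain ⟨Q, hQd⟩ : ∃ Q : ℕ → ℝ → ℝ, ∀ n α, Q n α = JJ f (hom (ga H α)) X (2 ^ n) := ⟨_, fun _ _ => rfl⟩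
  have hQc : ∀ n, Continuous (Q n) := by
    intro n
    have h1 := JJ_cont (h := fun α => hom (ga H α)) hjc X (2 ^ n)
    have h2 : Continuous fun α : ℝ => ((f, α) : Fr × ℝ) := continuous_const.prodMk continuous_id
    have h3 := h1.comp h2
    have h4 : Q n = (fun q : Fr × ℝ => JJ q.1 (hom (ga H q.2)) X (2 ^ n)) ∘ fun α : ℝ => ((f, α) : Fr × ℝ) := by
      funext α
      rw [hQd]
      rfl
    rw [h4]
    exact h3
  have hQ0 : ∀ n α, 0 ≤ Q n α := by
    intro n α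
    rw [hQd]
    exact JJ_nonneg _ _ _ _
  have hQi : ∀ n < n1, ∫ α in Icc (-α₀) α₀, κ n α * Q n α ≤ C₁ * (3 * exp ((1 + e) * x + mue x (ν n))) := by
    intro n hn
    have h4 := hJ p n (hnp n hn)
    rw [← hX, ← hκd n] at h4
    simp only [← hQd] at h4
    refine h4.trans (mul_le_mul_of_nonneg_left ?_ hC₁)
    have h5 : MB X (2 ^ n) ≤ 3 * exp (mue x (ν n)) := by
      rw [← hNr, hNe, hXx]
      exact mb_e5 _ _
    calc X ^ (1 + e) * MB X (2 ^ n) ≤ X ^ (1 + e) * (3 * exp (mue x (ν n))) := mul_le_mul_of_nonneg_left h5 (by positivity)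
      _ = 3 * exp ((1 + e) * x + mue x (ν n)) := by
          rw [hXpow, exp_add]
          ring
  obtain ⟨P, hPd⟩ : ∃ P : ℕ → ℝ → ℝ, ∀ n R, P n R = ∫ α in Icc (-α₀) α₀, κ n α * (W n α (R + d) + W n α (R - d)) := ⟨_, fun _ _ => rfl⟩
  have hP0 : ∀ n R, 0 ≤ P n R := by
    intro n R
    rw [hPd]
    exact integral_nonneg fun α => mul_nonneg (hκ0 n α) (add_nonneg (hW0 n α _) (hW0 n α _))
  have hWp : ∀ n (s : ℝ), Continuous fun q : ℝ × ℝ => W n q.2 (q.1 + s) := by
    intro n s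
    exact (hWc n).comp (continuous_snd.prodMk (continuous_fst.add continuous_const))
  have hWq : ∀ n, Continuous fun q : ℝ × ℝ => κ n q.2 * (W n q.2 (q.1 + d) + W n q.2 (q.1 - d)) := by
    intro n
    refine ((hκc n).comp continuous_snd).mul ((hWp n d).add ?_)
    simpa only [sub_eq_add_neg] using hWp n (-d)
  have hPc : ∀ n, Continuous (P n) := by
    intro n
    have h1 : P n = fun R => ∫ α in Icc (-α₀) α₀, κ n α * (W n α (R + d) + W n α (R - d)) := funext (hPd n)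
    rw [h1]
    exact continuous_parametric_integral_of_continuous (f := fun (R : ℝ) (α : ℝ) => κ n α * (W n α (R + d) + W n α (R - d))) (hWq n) isCompact_Icc
  have hPint : ∀ n < n1, ∫ R in Icc X (2 * X), P n R ≤ 6 * C₁ * exp ((1 + e) * x + mue x (ν n)) := by
    intro n hn
    have h1 : ∫ R in Icc X (2 * X), P n R = ∫ α in Icc (-α₀) α₀, κ n α * ∫ R in Icc X (2 * X), (W n α (R + d) + W n α (R - d)) := by
      simp only [hPd]
      rw [integral_integral_swap]
      · refine integral_congr_ae (Eventually.of_forall fun α => ?_)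
        simp only
        rw [integral_const_mul]
      · rw [Measure.prod_restrict]
        exact (hWq n).continuousOn.integrableOn_compact (isCompact_Icc.prod isCompact_Icc)
    have hcα : ∀ (α s : ℝ), Continuous fun R => W n α (R + s) := by
      intro α s
      exact (hWc n).comp (continuous_const.prodMk (continuous_id.add continuous_const))
    have hin : ∀ α, ∫ R in Icc X (2 * X), (W n α (R + d) + W n α (R - d)) ≤ 2 * Q n α := by
      intro α
      have h2 : ∀ s : ℝ, |s| ≤ 2 → ∫ R in Icc X (2 * X), W n α (R + s) ≤ Q n α := by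
        intro s hs
        rw [hQd]
        simp only [hWd]
        exact MR_int f (hom (ga H α)) (2 ^ n) hX4 hs
      have h3 := h2 d (by rw [abs_of_pos hd0]; linarith)
      have h4 := h2 (-d) (by rw [abs_neg, abs_of_pos hd0]; linarith)
      have h5 : ∫ R in Icc X (2 * X), (W n α (R + d) + W n α (R - d)) =
          (∫ R in Icc X (2 * X), W n α (R + d)) + ∫ R in Icc X (2 * X), W n α (R + -d) := by
        simp only [sub_eq_add_neg]
        exact integral_add ((hcα α d).continuousOn.integrableOn_compact isCompact_Icc) ((hcα α (-d)).continuousOn.integrableOn_compact isCompact_Icc)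
      rw [h5]
      linarith
    have hJi : Continuous fun α => ∫ R in Icc X (2 * X), (W n α (R + d) + W n α (R - d)) := by
      refine continuous_parametric_integral_of_continuous (f := fun (α : ℝ) (R : ℝ) => W n α (R + d) + W n α (R - d)) ?_ isCompact_Icc
      have q1 : ∀ s : ℝ, Continuous fun q : ℝ × ℝ => W n q.1 (q.2 + s) := fun s => (hWc n).comp (continuous_fst.prodMk (continuous_snd.add continuous_const))
      refine (q1 d).add ?_
      simpa only [sub_eq_add_neg] using q1 (-d)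
    have h2 : ∫ α in Icc (-α₀) α₀, κ n α * ∫ R in Icc X (2 * X), (W n α (R + d) + W n α (R - d)) ≤ ∫ α in Icc (-α₀) α₀, κ n α * (2 * Q n α) := by
      refine setIntegral_mono_on ?_ ?_ measurableSet_Icc fun α _ => mul_le_mul_of_nonneg_left (hin α) (hκ0 n α)
      · exact ((hκc n).mul hJi).continuousOn.integrableOn_compact isCompact_Icc
      · exact ((hκc n).mul (continuous_const.mul (hQc n))).continuousOn.integrableOn_compact isCompact_Icc
    have h3 : ∫ α in Icc (-α₀) α₀, κ n α * (2 * Q n α) = 2 * ∫ α in Icc (-α₀) α₀, κ n α * Q n α := by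
      rw [← integral_const_mul]
      refine integral_congr_ae (Eventually.of_forall fun α => ?_)
      simp only
      ring
    have h4 := hQi n hn
    rw [h1]
    linarith
  obtain ⟨A, hA⟩ : ∃ A : ℕ → ℝ, ∀ n, A n = bxe x (ν n) e := ⟨_, fun _ => rfl⟩
  -- the majorant
  obtain ⟨Φ, hΦd⟩ : ∃ Φ : ℝ → ℝ, ∀ R, Φ R = C₃ ^ 20 * (((n1 : ℝ) + 1) ^ 19 * (X ^ (10 + 20 * e) +
    ∑ n ∈ Finset.range n1, K * (C₂ * (exp (8 * A n + 6 * x - 16 * ν n) * P n R) + exp (8 * A n + 6 * x - 18 * ν n) + exp (8 * A n)))) :=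
      ⟨_, fun _ => rfl⟩
  have hc3 : ∀ n, Continuous fun R => K * (C₂ * (exp (8 * A n + 6 * x - 16 * ν n) * P n R) + exp (8 * A n + 6 * x - 18 * ν n) + exp (8 * A n)) :=
    fun n => continuous_const.mul (((continuous_const.mul (continuous_const.mul (hPc n))).add continuous_const).add continuous_const)
  have hΦc : Continuous Φ := by
    have h1 : Φ = fun R => C₃ ^ 20 * (((n1 : ℝ) + 1) ^ 19 * (X ^ (10 + 20 * e) +
      ∑ n ∈ Finset.range n1, K * (C₂ * (exp (8 * A n + 6 * x - 16 * ν n) * P n R) + exp (8 * A n + 6 * x - 18 * ν n) + exp (8 * A n)))) := funext hΦd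
    rw [h1]
    exact continuous_const.mul (continuous_const.mul (continuous_const.add (continuous_finsetSum _ fun n _ => hc3 n)))
  have hΦ0 : ∀ R, 0 ≤ Φ R := by
    intro R
    rw [hΦd]
    refine mul_nonneg (by positivity) (mul_nonneg (by positivity) (add_nonneg (by positivity) (Finset.sum_nonneg fun n _ => ?_)))
    have := hP0 n R
    positivity
  have hΦint : ∫ R in Icc X (2 * X), Φ R ≤ C₃ ^ 20 * (2 / e + 2) ^ 20 * (1 + K * (6 * C₁ * C₂ + 2)) * X ^ (11 + 40 * e) := by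
    have hvol : ∀ z : ℝ, ∫ _R in Icc X (2 * X), z = X * z := by
      intro z
      rw [setIntegral_const, Measure.real, Real.volume_Icc, ENNReal.toReal_ofReal (by linarith), smul_eq_mul]
      ring
    have hcon : ∀ g : ℝ → ℝ, Continuous g → IntegrableOn g (Icc X (2 * X)) := fun g hg =>
      hg.continuousOn.integrableOn_compact isCompact_Icc
    have e3 : ∀ n, ∫ R in Icc X (2 * X), K * (C₂ * (exp (8 * A n + 6 * x - 16 * ν n) * P n R) + exp (8 * A n + 6 * x - 18 * ν n) + exp (8 * A n)) =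
        K * (C₂ * (exp (8 * A n + 6 * x - 16 * ν n) * (∫ R in Icc X (2 * X), P n R)) + X * exp (8 * A n + 6 * x - 18 * ν n) + X * exp (8 * A n)) := by
      intro n
      have c1 : Continuous fun R => exp (8 * A n + 6 * x - 16 * ν n) * P n R := continuous_const.mul (hPc n)
      have c2 : Continuous fun R => C₂ * (exp (8 * A n + 6 * x - 16 * ν n) * P n R) := continuous_const.mul c1
      have c3 : Continuous fun R => C₂ * (exp (8 * A n + 6 * x - 16 * ν n) * P n R) + exp (8 * A n + 6 * x - 18 * ν n) := c2.add continuous_const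
      have i1 : ∫ R in Icc X (2 * X), (C₂ * (exp (8 * A n + 6 * x - 16 * ν n) * P n R) + exp (8 * A n + 6 * x - 18 * ν n) + exp (8 * A n)) =
          (∫ R in Icc X (2 * X), (C₂ * (exp (8 * A n + 6 * x - 16 * ν n) * P n R) + exp (8 * A n + 6 * x - 18 * ν n))) +
            ∫ _R in Icc X (2 * X), exp (8 * A n) := integral_add (hcon _ c3) (hcon _ continuous_const)
      have i2 : ∫ R in Icc X (2 * X), (C₂ * (exp (8 * A n + 6 * x - 16 * ν n) * P n R) + exp (8 * A n + 6 * x - 18 * ν n)) =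
          (∫ R in Icc X (2 * X), C₂ * (exp (8 * A n + 6 * x - 16 * ν n) * P n R)) +
            ∫ _R in Icc X (2 * X), exp (8 * A n + 6 * x - 18 * ν n) := integral_add (hcon _ c2) (hcon _ continuous_const)
      rw [integral_const_mul, i1, i2, integral_const_mul, integral_const_mul, hvol, hvol]
    have e4 : ∫ R in Icc X (2 * X), (X ^ (10 + 20 * e) + ∑ n ∈ Finset.range n1, K * (C₂ * (exp (8 * A n + 6 * x - 16 * ν n) * P n R) +
        exp (8 * A n + 6 * x - 18 * ν n) + exp (8 * A n))) = X * X ^ (10 + 20 * e) +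
        ∑ n ∈ Finset.range n1, K * (C₂ * (exp (8 * A n + 6 * x - 16 * ν n) * (∫ R in Icc X (2 * X), P n R)) +
          X * exp (8 * A n + 6 * x - 18 * ν n) + X * exp (8 * A n)) := by
      rw [integral_add (hcon (fun _ => X ^ (10 + 20 * e)) continuous_const)
        (hcon (fun R => ∑ n ∈ Finset.range n1, K * (C₂ * (exp (8 * A n + 6 * x - 16 * ν n) * P n R) + exp (8 * A n + 6 * x - 18 * ν n) +
          exp (8 * A n))) (continuous_finsetSum _ fun n _ => hc3 n)), hvol, integral_finsetSum _ fun n _ => hcon _ (hc3 n)]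
      congr 1
      exact Finset.sum_congr rfl fun n _ => e3 n
    have e1 : ∫ R in Icc X (2 * X), Φ R = C₃ ^ 20 * (((n1 : ℝ) + 1) ^ 19 * (X * X ^ (10 + 20 * e) +
        ∑ n ∈ Finset.range n1, K * (C₂ * (exp (8 * A n + 6 * x - 16 * ν n) * (∫ R in Icc X (2 * X), P n R)) +
          X * exp (8 * A n + 6 * x - 18 * ν n) + X * exp (8 * A n)))) := by
      simp only [hΦd]
      rw [integral_const_mul, integral_const_mul, e4]
    have hXa : X * X ^ (10 + 20 * e) = X ^ (11 + 20 * e) := by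
      rw [← rpow_one_add' hX0.le (by linarith)]
      congr 1
      ring
    have hx0 : 0 ≤ x := by
      rw [hx]
      exact log_nonneg hX1
    have hterm : ∀ n ∈ Finset.range n1, K * (C₂ * (exp (8 * A n + 6 * x - 16 * ν n) * (∫ R in Icc X (2 * X), P n R)) +
          X * exp (8 * A n + 6 * x - 18 * ν n) + X * exp (8 * A n)) ≤ K * (6 * C₁ * C₂ + 2) * X ^ (11 + 20 * e) := by
      intro n hn
      have hn' := Finset.mem_range.1 hn
      have h1 := hPint n hn'
      obtain ⟨-, f1, f2, f3⟩ := bxe_e5 (hν0 n) (hνx n hn') he he1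
      rw [← hA] at f1 f2 f3
      have hex : 0 ≤ e * x := mul_nonneg he.le hx0
      have g1 : exp (8 * A n + 6 * x - 16 * ν n) * (∫ R in Icc X (2 * X), P n R) ≤ 6 * C₁ * X ^ (11 + 20 * e) := by
        calc exp (8 * A n + 6 * x - 16 * ν n) * (∫ R in Icc X (2 * X), P n R) ≤
              exp (8 * A n + 6 * x - 16 * ν n) * (6 * C₁ * exp ((1 + e) * x + mue x (ν n))) := mul_le_mul_of_nonneg_left h1 (exp_pos _).le
          _ = 6 * C₁ * exp (8 * A n + 6 * x - 16 * ν n + ((1 + e) * x + mue x (ν n))) := by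
              rw [exp_add (8 * A n + 6 * x - 16 * ν n)]
              ring
          _ ≤ 6 * C₁ * X ^ (11 + 20 * e) := by
              refine mul_le_mul_of_nonneg_left ?_ (by positivity)
              rw [hXpow, exp_le_exp]
              linarith
      have g2 : X * exp (8 * A n + 6 * x - 18 * ν n) ≤ X ^ (11 + 20 * e) := by
        calc X * exp (8 * A n + 6 * x - 18 * ν n) = exp (x + (8 * A n + 6 * x - 18 * ν n)) := by
              rw [exp_add, ← hXx]
          _ ≤ X ^ (11 + 20 * e) := by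
              rw [hXpow, exp_le_exp]
              linarith
      have g3 : X * exp (8 * A n) ≤ X ^ (11 + 20 * e) := by
        calc X * exp (8 * A n) = exp (x + 8 * A n) := by
              rw [exp_add, ← hXx]
          _ ≤ X ^ (11 + 20 * e) := by
              rw [hXpow, exp_le_exp]
              linarith
      have g4 := mul_le_mul_of_nonneg_left g1 hC₂.le
      calc K * (C₂ * (exp (8 * A n + 6 * x - 16 * ν n) * (∫ R in Icc X (2 * X), P n R)) + X * exp (8 * A n + 6 * x - 18 * ν n) +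
            X * exp (8 * A n)) ≤ K * (C₂ * (6 * C₁ * X ^ (11 + 20 * e)) + X ^ (11 + 20 * e) + X ^ (11 + 20 * e)) :=
            mul_le_mul_of_nonneg_left (by linarith) hK0
        _ = _ := by ring
    have hsum := Finset.sum_le_sum hterm
    rw [Finset.sum_const, Finset.card_range, nsmul_eq_mul] at hsum
    rw [e1, hXa]
    have hA0 : 0 ≤ X ^ (11 + 20 * e) := by positivity
    have hn0 : (0 : ℝ) ≤ n1 := Nat.cast_nonneg n1
    obtain ⟨S, hS⟩ : ∃ S : ℝ, S = ∑ n ∈ Finset.range n1, K * (C₂ * (exp (8 * A n + 6 * x - 16 * ν n) * (∫ R in Icc X (2 * X), P n R)) +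
          X * exp (8 * A n + 6 * x - 18 * ν n) + X * exp (8 * A n)) := ⟨_, rfl⟩
    rw [← hS] at hsum ⊢
    have h1 : X ^ (11 + 20 * e) + S ≤ ((n1 : ℝ) + 1) * ((1 + K * (6 * C₁ * C₂ + 2)) * X ^ (11 + 20 * e)) := by
      have h2 : 0 ≤ K * (6 * C₁ * C₂ + 2) * X ^ (11 + 20 * e) := by positivity
      have h3 : 0 ≤ (n1 : ℝ) * X ^ (11 + 20 * e) := by positivity
      have h4 : ((n1 : ℝ) + 1) * ((1 + K * (6 * C₁ * C₂ + 2)) * X ^ (11 + 20 * e)) =
        X ^ (11 + 20 * e) + n1 * (K * (6 * C₁ * C₂ + 2) * X ^ (11 + 20 * e)) + (n1 : ℝ) * X ^ (11 + 20 * e) +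
          K * (6 * C₁ * C₂ + 2) * X ^ (11 + 20 * e) := by ring
      rw [h4]
      linarith
    have h5 : C₃ ^ 20 * (((n1 : ℝ) + 1) ^ 19 * (X ^ (11 + 20 * e) + S)) ≤
        C₃ ^ 20 * (((n1 : ℝ) + 1) ^ 19 * (((n1 : ℝ) + 1) * ((1 + K * (6 * C₁ * C₂ + 2)) * X ^ (11 + 20 * e)))) :=
      mul_le_mul_of_nonneg_left (mul_le_mul_of_nonneg_left h1 (by positivity)) (by positivity)
    refine h5.trans ?_
    have h6 : ((n1 : ℝ) + 1) ^ 20 ≤ ((2 / e + 2) * X ^ e) ^ 20 := pow_le_pow_left₀ (by positivity) hn1c 20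
    have h7 : (X ^ e) ^ 20 * X ^ (11 + 20 * e) = X ^ (11 + 40 * e) := by
      rw [← rpow_natCast, ← rpow_mul hX0.le, ← rpow_add hX0]
      congr 1
      push_cast
      ring
    calc C₃ ^ 20 * (((n1 : ℝ) + 1) ^ 19 * (((n1 : ℝ) + 1) * ((1 + K * (6 * C₁ * C₂ + 2)) * X ^ (11 + 20 * e)))) =
          C₃ ^ 20 * (((n1 : ℝ) + 1) ^ 20 * ((1 + K * (6 * C₁ * C₂ + 2)) * X ^ (11 + 20 * e))) := by ring
      _ ≤ C₃ ^ 20 * (((2 / e + 2) * X ^ e) ^ 20 * ((1 + K * (6 * C₁ * C₂ + 2)) * X ^ (11 + 20 * e))) :=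
          mul_le_mul_of_nonneg_left (mul_le_mul_of_nonneg_right h6 (by positivity)) (by positivity)
      _ = C₃ ^ 20 * (2 / e + 2) ^ 20 * (1 + K * (6 * C₁ * C₂ + 2)) * ((X ^ e) ^ 20 * X ^ (11 + 20 * e)) := by ring
      _ = _ := by rw [h7]
  -- the pointwise bound
  have hpoint : ∀ R ∈ Icc X (2 * X), sup20 (fun c R => cntc (Hf H f) c R - area (Hf H f) * R ^ 2) R ≤ ENNReal.ofReal (Φ R) := by
    intro R hR
    obtain ⟨G, hG⟩ : ∃ G : ℕ → ℝ → ℝ, ∀ n α, G n α = C₂ * ((2 ^ n : ℕ) : ℝ) ^ 2 * (W n α (R + d) + W n α (R - d)) := ⟨_, fun _ _ => rfl⟩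
    have hGc : ∀ n, Continuous (G n) := by
      intro n
      have h1 : G n = fun α => C₂ * ((2 ^ n : ℕ) : ℝ) ^ 2 * (W n α (R + d) + W n α (R - d)) := funext (hG n)
      rw [h1]
      exact continuous_const.mul (((hWc n).comp (continuous_id.prodMk continuous_const)).add ((hWc n).comp (continuous_id.prodMk continuous_const)))
    have hG0 : ∀ n α, 0 ≤ G n α := by
      intro n α
      rw [hG]
      exact mul_nonneg (by positivity) (add_nonneg (hW0 _ _ _) (hW0 _ _ _))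
    obtain ⟨U, hU⟩ : ∃ U : ℕ → ℝ → ℝ, ∀ n α, U n α = C₆ * ((2 ^ n : ℕ) : ℝ) ^ 3 * Q n α := ⟨_, fun _ _ => rfl⟩
    have hUc : ∀ n, Continuous (U n) := by
      intro n
      have h1 : U n = fun α => C₆ * ((2 ^ n : ℕ) : ℝ) ^ 3 * Q n α := funext (hU n)
      rw [h1]
      exact continuous_const.mul (hQc n)
    have hU0 : ∀ n α, 0 ≤ U n α := by
      intro n α
      rw [hU]
      exact mul_nonneg (by positivity) (hQ0 _ _)
    obtain ⟨s, hs1, hs2⟩ : ∃ s : ℕ → ℝ → ℝ, (∀ n, ν n ≤ x / 9 → s n = fun _ => T * ((2 ^ n : ℕ) : ℝ) ^ 2) ∧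
        ∀ n, ¬ν n ≤ x / 9 → s n = fun α => U n α ^ (1 / 12 : ℝ) :=
      ⟨fun n => if ν n ≤ x / 9 then (fun _ => T * ((2 ^ n : ℕ) : ℝ) ^ 2) else (fun α => U n α ^ (1 / 12 : ℝ)),
        fun n hn => if_pos hn, fun n hn => if_neg hn⟩
    have hsc : ∀ n, Continuous (s n) := by
      intro n
      by_cases hn : ν n ≤ x / 9
      · rw [hs1 n hn]
        exact continuous_const
      · rw [hs2 n hn]
        exact (hUc n).rpow_const fun _ => Or.inr (by norm_num)
    have hs0 : ∀ n α, 0 ≤ s n α := by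
      intro n α
      by_cases hn : ν n ≤ x / 9
      · rw [hs1 n hn]
        positivity
      · rw [hs2 n hn]
        exact rpow_nonneg (hU0 n α) _
    obtain ⟨g, hg⟩ : ∃ g : ℕ → ℝ → ℝ, ∀ n α, g n α = min (G n α ^ (1 / 12 : ℝ)) (s n α) := ⟨_, fun _ _ => rfl⟩
    have hGp : ∀ n, Continuous fun α => G n α ^ (1 / 12 : ℝ) := fun n => (hGc n).rpow_const fun _ => Or.inr (by norm_num)
    have hgc : ∀ n, Continuous (g n) := by
      intro n
      have h1 : g n = fun α => min (G n α ^ (1 / 12 : ℝ)) (s n α) := funext (hg n)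
      rw [h1]
      exact (hGp n).min (hsc n)
    have hpt : ∀ n < n1, ∀ α ∈ Icc (-α₀) α₀, ∀ r : ℝ, (r = R + κ₀ * X ^ (-(1 / 2 - e)) ∨ r = R - κ₀ * X ^ (-(1 / 2 - e))) → ∀ c : ℝ × ℝ,
        ‖LS f (hom (ga H α)) (wr H α) 1 (2 ^ n) r c‖ ≤ g n α ∧ ‖LS f (hom (ga H α)) (fun _ => 1) 2 (2 ^ n) r c‖ ≤ g n α := by
      intro n hn α hα r hr c
      rw [← hd] at hr
      obtain ⟨hHL, hW1, hW2⟩ := hfam α hα
      have hWr : W n α r ≤ W n α (R + d) + W n α (R - d) := by
        rcases hr with h | h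
        · rw [h]
          have := hW0 n α (R - d)
          linarith
        · rw [h]
          have := hW0 n α (R + d)
          linarith
      have hrm : r ∈ Icc (X / 2) (4 * X) := by
        rcases hr with h | h
        · rw [h]
          exact ⟨by linarith [hR.1], by linarith [hR.2]⟩
        · rw [h]
          exact ⟨by linarith [hR.1], by linarith [hR.2]⟩
      have main : ∀ (w : ℝ × ℝ → ℂ) (i : ℕ), WL B w → i ≤ 2 → ‖LS f (hom (ga H α)) w i (2 ^ n) r c‖ ≤ g n α := by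
        intro w i hw hi
        rw [hg]
        refine le_min ?_ ?_
        · refine key_e5 (norm_nonneg _) ?_
          rw [hG]
          have h1 := hls f hfb _ hHL w hw i hi (2 ^ n) (hN1 n) r c
          rw [← hWd] at h1
          exact h1.trans (mul_le_mul_of_nonneg_left hWr (by positivity))
        · by_cases hn9 : ν n ≤ x / 9
          · rw [hs1 n hn9, hT]
            exact ls_triv_e5 hM hfb hw hi (hN1 n) r c
          · rw [hs2 n hn9]
            refine key_e5 (norm_nonneg _) ?_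
            rw [hU, hQd]
            exact hlj f hfb _ hHL w hw i hi (2 ^ n) (hN1 n) X hX1 r hrm c
      exact ⟨main _ 1 hW1 (by norm_num), main _ 2 hW2 (by norm_num)⟩
    have hmain := hlp X hXR1 n1 hn1a R hR g (fun n _ => (hgc n).continuousOn.integrableOn_compact isCompact_Icc) hpt
    obtain ⟨I, hI⟩ : ∃ I : ℕ → ℝ, ∀ n, I n = ∫ α in Icc (-α₀) α₀, κ n α * g n α := ⟨_, fun _ => rfl⟩
    have hg0 : ∀ n α, 0 ≤ g n α := by
      intro n α
      rw [hg]
      exact le_min (rpow_nonneg (hG0 n α) _) (hs0 n α)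
    have hI0 : ∀ n, 0 ≤ I n := by
      intro n
      rw [hI]
      exact integral_nonneg fun α => mul_nonneg (hκ0 n α) (hg0 n α)
    have hIG : ∀ n, I n ≤ ∫ α in Icc (-α₀) α₀, κ n α * G n α ^ (1 / 12 : ℝ) := by
      intro n
      rw [hI]
      refine setIntegral_mono_on ?_ ?_ measurableSet_Icc fun α _ => mul_le_mul_of_nonneg_left ?_ (hκ0 n α)
      · exact ((hκc n).mul (hgc n)).continuousOn.integrableOn_compact isCompact_Icc
      · exact ((hκc n).mul (hGp n)).continuousOn.integrableOn_compact isCompact_Icc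
      · rw [hg]
        exact min_le_left _ _
    have hIs : ∀ n, I n ≤ ∫ α in Icc (-α₀) α₀, κ n α * s n α := by
      intro n
      rw [hI]
      refine setIntegral_mono_on ?_ ?_ measurableSet_Icc fun α _ => mul_le_mul_of_nonneg_left ?_ (hκ0 n α)
      · exact ((hκc n).mul (hgc n)).continuousOn.integrableOn_compact isCompact_Icc
      · exact ((hκc n).mul (hsc n)).continuousOn.integrableOn_compact isCompact_Icc
      · rw [hg]
        exact min_le_right _ _
    obtain ⟨y, hy⟩ : ∃ y : ℕ → ℝ, ∀ n, y n = X ^ (1 / 2 : ℝ) * ((2 ^ n : ℕ) : ℝ) ^ (-(3 / 2) : ℝ) * I n + 1 := ⟨_, fun _ => rfl⟩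
    have hpre : ∀ n, X ^ (1 / 2 : ℝ) * ((2 ^ n : ℕ) : ℝ) ^ (-(3 / 2) : ℝ) = exp (x / 2 - 3 / 2 * ν n) := by
      intro n
      rw [hXpow, hNe, ← exp_mul, ← exp_add]
      congr 1
      ring
    have hy0 : ∀ n, 0 ≤ y n := by
      intro n
      rw [hy]
      have := hI0 n
      have := hNr1 n
      positivity
    have hsup : ∀ n ∈ Finset.range n1, exp (x / 2 - 3 / 2 * ν n) * I n + 1 ≤ Cy * exp (A n) := by
      intro n hn
      have hn' := Finset.mem_range.1 hn
      obtain ⟨f0, -, -, -⟩ := bxe_e5 (hν0 n) (hνx n hn') he he1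
      rw [← hA] at f0
      have hone : 1 ≤ exp (A n) := one_le_exp f0
      have hE0 : 0 < exp (A n) := exp_pos _
      have hI2 := hIs n
      by_cases hn9 : ν n ≤ x / 9
      · have hAn : A n = x / 2 + ν n / 2 := by
          rw [hA]
          unfold bxe
          exact if_pos hn9
        rw [hs1 n hn9, integral_mul_const] at hI2
        have h1 : I n ≤ 20 * (T * ((2 ^ n : ℕ) : ℝ) ^ 2) := hI2.trans (mul_le_mul_of_nonneg_right (hκ1 n) (by positivity))
        have h2 : exp (x / 2 - 3 / 2 * ν n) * (20 * (T * ((2 ^ n : ℕ) : ℝ) ^ 2)) = 20 * T * exp (A n) := by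
          rw [hNe, ← exp_nat_mul, hAn]
          have h3 : exp (x / 2 - 3 / 2 * ν n) * exp ((2 : ℕ) * ν n) = exp (x / 2 + ν n / 2) := by
            rw [← exp_add]
            congr 1
            push_cast
            ring
          rw [← h3]
          ring
        have h4 := mul_le_mul_of_nonneg_left h1 (exp_pos (x / 2 - 3 / 2 * ν n)).le
        rw [h2] at h4
        rw [hCy]
        have h5 : 0 ≤ 21 * D * exp (A n) := by positivity
        linarith
      · have hAn : A n = x / 2 - 3 / 2 * ν n + (3 * ν n + (1 + e) * x + mue x (ν n)) / 12 := by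
          rw [hA]
          unfold bxe
          exact if_neg hn9
        rw [hs2 n hn9] at hI2
        obtain ⟨l, hl⟩ : ∃ l : ℝ, l = D * exp ((3 * ν n + (1 + e) * x + mue x (ν n)) / 12) := ⟨_, rfl⟩
        have hl0 : 0 < l := by
          rw [hl]
          positivity
        have hl12 : l ^ 12 = D ^ 12 * exp (3 * ν n + (1 + e) * x + mue x (ν n)) := by
          rw [hl, mul_pow, ← exp_nat_mul]
          congr 2
          push_cast
          ring
        have h1 : ∫ α in Icc (-α₀) α₀, κ n α * U n α ≤ l ^ 12 := by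
          have h2 : ∫ α in Icc (-α₀) α₀, κ n α * U n α = C₆ * ((2 ^ n : ℕ) : ℝ) ^ 3 * ∫ α in Icc (-α₀) α₀, κ n α * Q n α := by
            rw [← integral_const_mul]
            refine integral_congr_ae (Eventually.of_forall fun α => ?_)
            simp only
            rw [hU]
            ring
          rw [h2, hl12]
          have h3 := hQi n hn'
          have h4 : ((2 ^ n : ℕ) : ℝ) ^ 3 * exp ((1 + e) * x + mue x (ν n)) = exp (3 * ν n + (1 + e) * x + mue x (ν n)) := by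
            rw [hNe, ← exp_nat_mul, ← exp_add]
            congr 1
            push_cast
            ring
          calc C₆ * ((2 ^ n : ℕ) : ℝ) ^ 3 * ∫ α in Icc (-α₀) α₀, κ n α * Q n α ≤
                C₆ * ((2 ^ n : ℕ) : ℝ) ^ 3 * (C₁ * (3 * exp ((1 + e) * x + mue x (ν n)))) := mul_le_mul_of_nonneg_left h3 (by positivity)
            _ = 3 * C₁ * C₆ * (((2 ^ n : ℕ) : ℝ) ^ 3 * exp ((1 + e) * x + mue x (ν n))) := by ring
            _ ≤ D ^ 12 * exp (3 * ν n + (1 + e) * x + mue x (ν n)) := by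
                rw [h4]
                exact mul_le_mul_of_nonneg_right hD12 (exp_pos _).le
        have h2 := hold_e5 (hκc n) (hκ0 n) (hUc n) (hU0 n) (hκ1 n) hl0 h1
        have h3 : exp (x / 2 - 3 / 2 * ν n) * (21 * l) = 21 * D * exp (A n) := by
          rw [hl, hAn, exp_add (x / 2 - 3 / 2 * ν n)]
          ring
        have h4 := mul_le_mul_of_nonneg_left (hI2.trans h2) (exp_pos (x / 2 - 3 / 2 * ν n)).le
        rw [h3] at h4
        rw [hCy]
        have h5 : 0 ≤ 20 * T * exp (A n) := by positivity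
        linarith
    have hyt : ∀ n ∈ Finset.range n1, y n ^ 20 ≤
        K * (C₂ * (exp (8 * A n + 6 * x - 16 * ν n) * P n R) + exp (8 * A n + 6 * x - 18 * ν n) + exp (8 * A n)) := by
      intro n hn
      have hPn := hP0 n R
      obtain ⟨l, hl⟩ : ∃ l : ℝ, l = (C₂ * exp (2 * ν n) * P n R + 1) ^ (1 / 12 : ℝ) := ⟨_, rfl⟩
      have hb0 : 0 < C₂ * exp (2 * ν n) * P n R + 1 := by positivity
      have hl0 : 0 < l := by
        rw [hl]
        exact rpow_pos_of_pos hb0 _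
      have hl12 : l ^ 12 = C₂ * exp (2 * ν n) * P n R + 1 := by
        rw [hl, ← rpow_natCast, ← rpow_mul hb0.le]
        norm_num
      rw [hy, hpre, hK]
      refine y20_e5 (hI0 n) ?_ hl12 (hsup n hn)
      refine (hIG n).trans (hold_e5 (hκc n) (hκ0 n) (hGc n) (hG0 n) (hκ1 n) hl0 ?_)
      have h2 : ∫ α in Icc (-α₀) α₀, κ n α * G n α = C₂ * exp (2 * ν n) * P n R := by
        have h3 : ((2 ^ n : ℕ) : ℝ) ^ 2 = exp (2 * ν n) := by
          rw [hNe, ← exp_nat_mul]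
          norm_num
        rw [hPd, ← integral_const_mul]
        refine integral_congr_ae (Eventually.of_forall fun α => ?_)
        simp only
        rw [hG, h3]
        ring
      rw [h2, hl12]
      linarith
    have hx0 : 0 ≤ X ^ (1 / 2 + e) := by positivity
    refine sup20_le (y := C₃ * (X ^ (1 / 2 + e) + ∑ n ∈ Finset.range n1, y n)) (fun c => ?_) ?_ ?_
    · have h1 := hmain c
      have h2 : (1 : ℝ) - (1 / 2 - e) = 1 / 2 + e := by ring
      rw [h2] at h1
      simp only [← hκd, ← hI, ← hy] at h1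
      exact h1
    · exact mul_nonneg hC₃.le (add_nonneg hx0 (Finset.sum_nonneg fun n _ => hy0 n))
    · rw [mul_pow, hΦd]
      refine mul_le_mul_of_nonneg_left ?_ (by positivity)
      refine (psum_e5 hx0 hy0).trans (mul_le_mul_of_nonneg_left ?_ (by positivity))
      have h3 : (X ^ (1 / 2 + e)) ^ 20 = X ^ (10 + 20 * e) := by
        rw [← rpow_natCast, ← rpow_mul hX0.le]
        congr 1
        push_cast
        ring
      rw [h3]
      exact add_le_add le_rfl (Finset.sum_le_sum hyt)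
  calc ∫⁻ R in Icc X (2 * X), sup20 (fun c R => cntc (Hf H f) c R - area (Hf H f) * R ^ 2) R ≤
        ∫⁻ R in Icc X (2 * X), ENNReal.ofReal (Φ R) := setLIntegral_mono' measurableSet_Icc hpoint
    _ = ENNReal.ofReal (∫ R in Icc X (2 * X), Φ R) := by
        rw [ofReal_integral_eq_lintegral_ofReal (hΦc.continuousOn.integrableOn_compact isCompact_Icc) (Eventually.of_forall hΦ0)]
    _ ≤ _ := ENNReal.ofReal_le_ofReal hΦint

end Pool.Agent.Helper92.LA
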