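import Pool.Agent.Helper92.LA.D3
import Pool.Agent.Helper92.LA.E5

/-!
# LA-E6: the twentieth mean over the radii of the supremum over the centres, almost every lattice
-/

open MeasureTheory Real Set Filter Topology

set_option autoImplicit false

namespace Pool.Agent.Helper92.LA

open Pool.Agent.Helper22.AE
open Pool.Agent.Helper22.AC (cntc ga)
open Pool.Agent.Helper22.OV (o3_k0_cont o3_k0_nonneg cntc_bdd)
open Pool.Agent.Helper22.LP (Fr fdet hom Hf Hf_isSupp dom_lin area_lin)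

private theorem dyad_e6 {F : ℝ → ENNReal} {C b : ℝ} (hC : 0 ≤ C) (hb : 1 ≤ b)
    (h : ∀ p : ℕ, ∫⁻ R in Icc ((2 : ℝ) ^ p) (2 * (2 : ℝ) ^ p), F R ≤ ENNReal.ofReal (C * ((2 : ℝ) ^ p) ^ b)) {X : ℝ} (hX : 1 ≤ X) :
    ∫⁻ R in Icc 1 X, F R ≤ ENNReal.ofReal (C * 2 ^ b * X ^ b) := by
  have h1 : ∀ P : ℕ, ∫⁻ R in Icc 1 ((2 : ℝ) ^ P), F R ≤ ENNReal.ofReal (C * ((2 : ℝ) ^ P) ^ b) := by
    intro P
    induction P with
    | zero =>
      rw [pow_zero, Icc_self, Measure.restrict_singleton, volume_singleton, zero_smul, lintegral_zero_measure]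
      exact bot_le
    | succ P ih =>
      have h2 : Icc 1 ((2 : ℝ) ^ (P + 1)) ⊆ Icc 1 ((2 : ℝ) ^ P) ∪ Icc ((2 : ℝ) ^ P) (2 * (2 : ℝ) ^ P) := by
        intro x hx
        rw [pow_succ, mul_comm] at hx
        rcases le_total x ((2 : ℝ) ^ P) with h3 | h3
        · exact Or.inl ⟨hx.1, h3⟩
        · exact Or.inr ⟨h3, hx.2⟩
      have h4 : (2 : ℝ) ≤ 2 ^ b := by
        calc (2 : ℝ) = 2 ^ (1 : ℝ) := (rpow_one 2).symm
          _ ≤ 2 ^ b := rpow_le_rpow_of_exponent_le (by norm_num) hb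
      have h5 : 0 ≤ C * ((2 : ℝ) ^ P) ^ b := by positivity
      calc ∫⁻ R in Icc 1 ((2 : ℝ) ^ (P + 1)), F R ≤ ∫⁻ R in Icc 1 ((2 : ℝ) ^ P) ∪ Icc ((2 : ℝ) ^ P) (2 * (2 : ℝ) ^ P), F R :=
            lintegral_mono_set h2
        _ ≤ (∫⁻ R in Icc 1 ((2 : ℝ) ^ P), F R) + ∫⁻ R in Icc ((2 : ℝ) ^ P) (2 * (2 : ℝ) ^ P), F R := lintegral_union_le _ _ _
        _ ≤ ENNReal.ofReal (C * ((2 : ℝ) ^ P) ^ b) + ENNReal.ofReal (C * ((2 : ℝ) ^ P) ^ b) := add_le_add ih (h P)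
        _ = ENNReal.ofReal (C * ((2 : ℝ) ^ P) ^ b + C * ((2 : ℝ) ^ P) ^ b) := (ENNReal.ofReal_add h5 h5).symm
        _ ≤ ENNReal.ofReal (C * ((2 : ℝ) ^ (P + 1)) ^ b) := by
            refine ENNReal.ofReal_le_ofReal ?_
            rw [pow_succ, mul_rpow (by positivity) (by norm_num)]
            have h6 := mul_le_mul_of_nonneg_left h4 h5
            linarith
  obtain ⟨P, hp1, hp2⟩ := exists_nat_pow_near hX (show (1 : ℝ) < 2 by norm_num)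
  have h2 : Icc 1 X ⊆ Icc 1 ((2 : ℝ) ^ (P + 1)) := Icc_subset_Icc le_rfl hp2.le
  refine (lintegral_mono_set h2).trans ((h1 (P + 1)).trans (ENNReal.ofReal_le_ofReal ?_))
  rw [mul_assoc, ← mul_rpow (by norm_num) (by linarith)]
  refine mul_le_mul_of_nonneg_left (rpow_le_rpow (by positivity) ?_ (by linarith)) hC
  rw [pow_succ]
  linarith

theorem sup20_mono {E E' : ℝ × ℝ → ℝ → ℝ} {R : ℝ} (h : ∀ c, ∃ c', |E c R| ≤ |E' c' R|) : sup20 E R ≤ sup20 E' R := by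
  unfold sup20
  refine pow_le_pow_left' (iSup_le fun c => ?_) 20
  obtain ⟨c', hc'⟩ := h c
  exact (ENNReal.ofReal_le_ofReal hc').trans (le_iSup (fun c => ENNReal.ofReal |E' c R|) c')

/-- the error for a frame -/
noncomputable def Ef2 (H : ℝ → ℝ) (f : Fr) (c : ℝ × ℝ) (R : ℝ) : ℝ := cntc (Hf H f) c R - area (Hf H f) * R ^ 2

/-- the error for a lattice -/
noncomputable def El2 (H : ℝ → ℝ) (ab : Fr) (c : ℝ × ℝ) (R : ℝ) : ℝ := lcnt ab H c R - area H * R ^ 2 / abs (fdet ab)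

private theorem mean_all_e6 {H : ℝ → ℝ} (hH : IsSupp H) {f : Fr} (hf : fdet f ≠ 0) {C R₁ b : ℝ} (hC : 0 ≤ C) (hb : 1 ≤ b)
    (h : ∀ p : ℕ, R₁ ≤ (2 : ℝ) ^ p → ∫⁻ R in Icc ((2 : ℝ) ^ p) (2 * (2 : ℝ) ^ p), sup20 (Ef2 H f) R ≤ ENNReal.ofReal (C * ((2 : ℝ) ^ p) ^ b)) :
    ∃ C : ℝ, ∀ X : ℝ, 1 ≤ X → ∫⁻ R in Icc 1 X, sup20 (Ef2 H f) R ≤ ENNReal.ofReal (C * X ^ b) := by
  obtain ⟨C₄, hC₄⟩ := cntc_bdd (Hf_isSupp hH hf) (2 * R₁)
  have h0 : ∀ p : ℕ, ∫⁻ R in Icc ((2 : ℝ) ^ p) (2 * (2 : ℝ) ^ p), sup20 (Ef2 H f) R ≤ ENNReal.ofReal ((C + |C₄| ^ 20) * ((2 : ℝ) ^ p) ^ b) := by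
    intro p
    have hp : (1 : ℝ) ≤ 2 ^ p := one_le_pow₀ (by norm_num)
    have hpb : (2 : ℝ) ^ p ≤ ((2 : ℝ) ^ p) ^ b := by
      calc (2 : ℝ) ^ p = ((2 : ℝ) ^ p) ^ (1 : ℝ) := (rpow_one _).symm
        _ ≤ _ := rpow_le_rpow_of_exponent_le hp hb
    have hC4 : 0 ≤ |C₄| ^ 20 := by positivity
    have hz : 0 ≤ ((2 : ℝ) ^ p) ^ b := by positivity
    rcases le_total R₁ ((2 : ℝ) ^ p) with h1 | h1
    · refine (h p h1).trans (ENNReal.ofReal_le_ofReal ?_)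
      have := mul_nonneg hC4 hz
      linarith
    · have h2 : ∀ R ∈ Icc ((2 : ℝ) ^ p) (2 * (2 : ℝ) ^ p), sup20 (Ef2 H f) R ≤ ENNReal.ofReal (|C₄| ^ 20) := by
        intro R hR
        refine sup20_le (y := |C₄|) (fun c => ?_) (abs_nonneg _) le_rfl
        unfold Ef2
        exact (hC₄ R (by linarith [hR.1]) (by linarith [hR.2]) c).trans (le_abs_self _)
      calc ∫⁻ R in Icc ((2 : ℝ) ^ p) (2 * (2 : ℝ) ^ p), sup20 (Ef2 H f) R ≤
            ∫⁻ _R in Icc ((2 : ℝ) ^ p) (2 * (2 : ℝ) ^ p), ENNReal.ofReal (|C₄| ^ 20) := setLIntegral_mono' measurableSet_Icc h2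
        _ = ENNReal.ofReal (|C₄| ^ 20) * ENNReal.ofReal ((2 : ℝ) ^ p) := by
            rw [setLIntegral_const, Real.volume_Icc]
            congr 2
            ring
        _ = ENNReal.ofReal (|C₄| ^ 20 * (2 : ℝ) ^ p) := (ENNReal.ofReal_mul hC4).symm
        _ ≤ _ := by
            refine ENNReal.ofReal_le_ofReal ?_
            have q1 := mul_le_mul_of_nonneg_left hpb hC4
            have q2 := mul_nonneg hC hz
            linarith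
  refine ⟨(C + |C₄| ^ 20) * 2 ^ b, fun X hX => ?_⟩
  exact dyad_e6 (by positivity) hb h0 hX

/-- almost every frame with positive determinant -/
theorem frame_mean20_ae {H : ℝ → ℝ} (hH : IsSupp H) (h5 : ContDiff ℝ 5 H)
    (hmom : ∀ c₁ B : ℝ, 0 < c₁ → c₁ ≤ 1 → 1 ≤ B → MomP (Pool.Agent.Helper60.LT.Hom c₁ B)) (hlpt : ∀ f : Fr, fdet f ≠ 0 → LPT H f) :
    ∀ᵐ f : Fr, 0 < fdet f → ∀ ε : ℝ, 0 < ε → ∃ C : ℝ, ∀ X : ℝ, 1 ≤ X →
      ∫⁻ R in Icc 1 X, sup20 (Ef2 H f) R ≤ ENNReal.ofReal (C * X ^ (11 + ε)) := by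
  obtain ⟨α₀, c₁, B, ha0, ha1, hc₁, hc₁1, hB, hjc, hfam⟩ := fam hH h5
  have hβ : ∀ p n : ℕ, 0 < 1 / sqrt ((2 : ℝ) ^ p * ((2 ^ n : ℕ) : ℝ)) := by
    intro p n
    have : (0 : ℝ) < ((2 ^ n : ℕ) : ℝ) := by exact_mod_cast Nat.one_le_two_pow
    positivity
  have hk : ∀ p n : ℕ, ∫ α in Icc (-α₀) α₀, k0 (1 / sqrt ((2 : ℝ) ^ p * ((2 ^ n : ℕ) : ℝ))) α ≤ 20 := by
    intro p n
    have hpi := Real.pi_pos
    have h2 := k0_int (hβ p n)
    rw [intervalIntegral.integral_of_le (by linarith)] at h2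
    refine le_trans (setIntegral_mono_set ?_ (Eventually.of_forall (o3_k0_nonneg (hβ p n))) (Eventually.of_forall ?_)) h2
    · rw [← integrableOn_Icc_iff_integrableOn_Ioc]
      exact (o3_k0_cont (hβ p n)).continuousOn.integrableOn_compact isCompact_Icc
    · intro x hx
      exact ⟨by linarith [hx.1], by linarith [hx.2]⟩
  have h1 := ae_JJ (hmom c₁ B hc₁ hc₁1 hB) (h := fun α => hom (ga H α)) hjc (α₀ := α₀) (fun α hα => (hfam α hα).1)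
    (κ := fun p n => k0 (1 / sqrt ((2 : ℝ) ^ p * ((2 ^ n : ℕ) : ℝ)))) (fun p n => o3_k0_cont (hβ p n)) (fun p n => o3_k0_nonneg (hβ p n))
    (K := 20) hk
  filter_upwards [h1] with f hf hdet ε hε
  obtain ⟨e, he⟩ : ∃ e : ℝ, e = min (ε / 40) (1 / 1000) := ⟨_, rfl⟩
  have he0 : 0 < e := by
    rw [he]
    exact lt_min (by linarith) (by norm_num)
  have he1 : e ≤ 1 / 1000 := by
    rw [he]
    exact min_le_right _ _
  have he2 : 40 * e ≤ ε := by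
    have : e ≤ ε / 40 := by
      rw [he]
      exact min_le_left _ _
    linarith
  obtain ⟨C₁, hC₁, hJ⟩ := hf hdet e he0
  obtain ⟨C, R₁, hC, -, hdy⟩ := mean_core20 ha0 ha1 hB hjc (fun α hα => (hfam α hα).2) hdet.ne' (hlpt f hdet.ne') he0 he1 hC₁ hJ
  obtain ⟨C', hC'⟩ := mean_all_e6 hH hdet.ne' hC (b := 11 + 40 * e) (by linarith) hdy
  refine ⟨|C'|, fun X hX => (hC' X hX).trans (ENNReal.ofReal_le_ofReal ?_)⟩
  calc C' * X ^ (11 + 40 * e) ≤ |C'| * X ^ (11 + 40 * e) := mul_le_mul_of_nonneg_right (le_abs_self C') (by positivity)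
    _ ≤ |C'| * X ^ (11 + ε) := mul_le_mul_of_nonneg_left (rpow_le_rpow_of_exponent_le hX (by linarith)) (abs_nonneg C')

/-- every oval containing the origin, almost every lattice -/
theorem lattice_mean20_supp {H : ℝ → ℝ} (hH : IsSupp H) (h5 : ContDiff ℝ 5 H)
    (hmom : ∀ c₁ B : ℝ, 0 < c₁ → c₁ ≤ 1 → 1 ≤ B → MomP (Pool.Agent.Helper60.LT.Hom c₁ B)) (hlpt : ∀ f : Fr, fdet f ≠ 0 → LPT H f) :
    ∀ᵐ ab : Fr, fdet ab ≠ 0 ∧ ∀ ε : ℝ, 0 < ε → ∃ C : ℝ, ∀ X : ℝ, 1 ≤ X →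
      ∫⁻ R in Icc 1 X, sup20 (El2 H ab) R ≤ ENNReal.ofReal (C * X ^ (11 + ε)) := by
  have h1 := ae_dual (frame_mean20_ae hH h5 hmom hlpt)
  have h2 : ∀ᵐ ab : Fr, 0 < fdet ab → ∀ ε : ℝ, 0 < ε → ∃ C : ℝ, ∀ X : ℝ, 1 ≤ X →
      ∫⁻ R in Icc 1 X, sup20 (El2 H ab) R ≤ ENNReal.ofReal (C * X ^ (11 + ε)) := by
    filter_upwards [h1] with ab h hd ε hε
    obtain ⟨C, hC⟩ := h hd ε hε
    refine ⟨C, fun X hX => (lintegral_mono fun R => sup20_mono fun c => ?_).trans (hC X hX)⟩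
    refine ⟨((dl ab).1.1 * c.1 + (dl ab).1.2 * c.2, (dl ab).2.1 * c.1 + (dl ab).2.2 * c.2), ?_⟩
    have hdl : fdet (dl ab) ≠ 0 := by
      rw [fdet_dl hd.ne']
      positivity
    unfold El2 Ef2
    rw [← lcnt_eq hH.per hd.ne', area_lin hH.per hdl, fdet_dl hd.ne', abs_div, abs_one]
    have e : 1 / |fdet ab| * area H * R ^ 2 = area H * R ^ 2 / |fdet ab| := by ring
    rw [e]
  have h3 := ae_swap h2
  filter_upwards [h2, h3, ae_det] with ab h4 h5 h6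
  refine ⟨h6, fun ε hε => ?_⟩
  rcases lt_or_gt_of_ne h6 with h7 | h7
  · have e : fdet (ab.2, ab.1) = -fdet ab := by
      unfold fdet
      simp only
      ring
    obtain ⟨C, hC⟩ := h5 (by rw [e]; linarith) ε hε
    refine ⟨C, fun X hX => (lintegral_mono fun R => sup20_mono fun c => ⟨c, ?_⟩).trans (hC X hX)⟩
    unfold El2
    rw [lcnt_swap, e, abs_neg]
  · exact h4 h7 ε hε

/-- every oval, almost every lattice -/
theorem lattice_mean20 {H : ℝ → ℝ} (h5 : ContDiff ℝ 5 H) (hp : Function.Periodic H (2 * π)) (hr : ∀ t, 0 < H t + deriv (deriv H) t)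
    (hmom : ∀ c₁ B : ℝ, 0 < c₁ → c₁ ≤ 1 → 1 ≤ B → MomP (Pool.Agent.Helper60.LT.Hom c₁ B))
    (hlpt : ∀ H : ℝ → ℝ, IsSupp H → ∀ f : Fr, fdet f ≠ 0 → LPT H f) :
    ∀ᵐ ab : Fr, fdet ab ≠ 0 ∧ ∀ ε : ℝ, 0 < ε → ∃ C : ℝ, ∀ X : ℝ, 1 ≤ X →
      ∫⁻ R in Icc 1 X, (⨆ c : ℝ × ℝ, ENNReal.ofReal |lcnt ab H c R - area H * R ^ 2 / abs (fdet ab)|) ^ 20 ≤
        ENNReal.ofReal (C * X ^ (11 + ε)) := by
  obtain ⟨v, hv⟩ := Pool.Agent.Helper22.OV.exists_shift (h5.of_le (by norm_num)) hp hr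
  filter_upwards [lattice_mean20_supp hv (Pool.Agent.Helper22.OV.shf_smooth v h5) hmom (hlpt _ hv)] with ab h
  refine ⟨h.1, fun ε hε => ?_⟩
  obtain ⟨C, hC⟩ := h.2 ε hε
  refine ⟨C, fun X hX => ?_⟩
  have h1 : ∫⁻ R in Icc 1 X, sup20 (El2 H ab) R ≤ ENNReal.ofReal (C * X ^ (11 + ε)) := by
    refine (lintegral_mono fun R => sup20_mono fun c => ⟨(c.1 - R * v.1, c.2 - R * v.2), ?_⟩).trans (hC X hX)
    unfold El2
    rw [Pool.Agent.Helper22.OV.area_shf]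
    have h2 : lcnt ab (Pool.Agent.Helper22.OV.shf H v) (c.1 - R * v.1, c.2 - R * v.2) R = lcnt ab H c R := by
      unfold lcnt
      congr 1
      refine Nat.card_congr (Equiv.subtypeEquivRight fun k => ?_)
      refine forall_congr' fun t => ?_
      unfold Pool.Agent.Helper22.OV.shf
      simp only
      constructor
      · intro h
        linarith
      · intro h
        linarith
    rw [h2]
  exact h1

end Pool.Agent.Helper92.LA
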