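import Pool.Agent.Helper60.LT.G5
import Pool.Agent.Helper92.LA.D3

/-!
# LA-Fin: every oval, almost every lattice, exponent 5/9
-/

open MeasureTheory Real Set Filter Topology

set_option autoImplicit false

namespace Pool.Agent.Helper92.LA

open Pool.Agent.Helper22.AE
open Pool.Agent.Helper22.LP (Fr fdet)

theorem momP {c₁ B : ℝ} (hc : 0 < c₁) (hc1 : c₁ ≤ 1) (hB : 1 ≤ B) : MomP (Pool.Agent.Helper60.LT.Hom c₁ B) := by
  intro ε hε U hU hU0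
  obtain ⟨C, -, hC⟩ := Pool.Agent.Helper60.LT.mom_cpt' hε hc hc1 hB hU hU0
  refine ⟨C, fun h hh X hX n hn => ?_⟩
  rw [← mul_assoc]
  exact hC h hh X n hX hn

/-- every oval, almost every lattice -/
theorem lattice_main {H : ℝ → ℝ} (h5 : ContDiff ℝ 5 H) (hp : Function.Periodic H (2 * π)) (hr : ∀ t, 0 < H t + deriv (deriv H) t) :
    ∀ᵐ ab : Fr, fdet ab ≠ 0 ∧ ∀ ε : ℝ, 0 < ε → ∃ C : ℝ, ∀ R : ℝ, 1 ≤ R → ∀ c : ℝ × ℝ,
      |lcnt ab H c R - area H * R ^ 2 / abs (fdet ab)| ≤ C * R ^ (5 / 9 + ε) :=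
  lattice_ae h5 hp hr fun _ _ hc hc1 hB => momP hc hc1 hB

end Pool.Agent.Helper92.LA
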