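import Pool.Agent.Helper60.LQ.Two
import Pool.Agent.Helper92.LA.E6
import Pool.Agent.Helper92.LA.Fin

/-!
# LA-Fin3: every oval, almost every lattice: the twentieth mean over the radii of the supremum over the centres
-/

open MeasureTheory Real Set Filter Topology

set_option autoImplicit false

namespace Pool.Agent.Helper92.LA

open Pool.Agent.Helper22.AE
open Pool.Agent.Helper22.LP (Fr fdet)

theorem lpt_all (H : ℝ → ℝ) (hH : IsSupp H) (f : Fr) (hf : fdet f ≠ 0) : LPT H f := by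
  intro τ e2 α₀ h0 h1 he2 ha0 ha1
  obtain ⟨C, R₁, κ, hC, hR₁, hκ, h⟩ := Pool.Agent.Helper60.LQ.lp_two hH hf h0 h1 he2 ha0 ha1
  exact ⟨C, R₁, κ, hC, hR₁, hκ, fun R₀ hR₀ n1 hn1 R hR g hg hF c =>
    h R₀ hR₀ n1 hn1 R hR g hg (fun n hn α hα r _ hr c => hF n hn α hα r hr c) c⟩

/-- every oval, almost every lattice, both parts -/
theorem lattice_both20 {H : ℝ → ℝ} (h5 : ContDiff ℝ 5 H) (hp : Function.Periodic H (2 * π)) (hr : ∀ t, 0 < H t + deriv (deriv H) t) :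
    ∀ᵐ ab : Fr, fdet ab ≠ 0 ∧
      (∀ ε : ℝ, 0 < ε → ∃ C : ℝ, ∀ R : ℝ, 1 ≤ R → ∀ c : ℝ × ℝ,
        |lcnt ab H c R - area H * R ^ 2 / abs (fdet ab)| ≤ C * R ^ (5 / 9 + ε)) ∧
      ∀ ε : ℝ, 0 < ε → ∃ C : ℝ, ∀ X : ℝ, 1 ≤ X →
        ∫⁻ R in Icc 1 X, (⨆ c : ℝ × ℝ, ENNReal.ofReal |lcnt ab H c R - area H * R ^ 2 / abs (fdet ab)|) ^ 20 ≤
          ENNReal.ofReal (C * X ^ (11 + ε)) := by
  filter_upwards [lattice_main h5 hp hr, lattice_mean20 h5 hp hr (fun _ _ hc hc1 hB => momP hc hc1 hB) lpt_all] with ab h1 h2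
  exact ⟨h1.1, h1.2, h2.2⟩

end Pool.Agent.Helper92.LA
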