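import Pool.Agent.Helper92.LA.B1

/-!
# LA-E1: the sum `LS` is bounded by the local moment `JL`; the mean of `JL` over the radii
-/

open MeasureTheory Real Set Filter Topology

set_option autoImplicit false

namespace Pool.Agent.Helper92.LA

open Pool.Agent.Helper22.AE
open Pool.Agent.Helper92.GC
open Pool.Agent.Helper92.DT
open Pool.Agent.Helper22.LP (Fr fv fk fdet nr tr hom LS nr_eq)

/-- the twelfth moment over the centres and over `|r - R| ≤ 2` -/
noncomputable def JL (f : Fr) (h : ℝ × ℝ → ℝ) (R : ℝ) (N : ℕ) : ℝ :=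
  ∫ s in Icc (-2 : ℝ) 2, m12 (sqa N) (fun k => ee ((R + s) * h (fk f k)))

theorem JL_nonneg (f : Fr) (h : ℝ × ℝ → ℝ) (R : ℝ) (N : ℕ) : 0 ≤ JL f h R N :=
  integral_nonneg fun _ => m12_nonneg _ _

/-- continuity of the local moment -/
theorem JL_cont {h : ℝ → ℝ × ℝ → ℝ} (hc : Continuous fun q : ℝ × (ℝ × ℝ) => h q.1 q.2) (f : Fr) (N : ℕ) :
    Continuous fun q : ℝ × ℝ => JL f (h q.1) q.2 N := by
  unfold JL
  refine continuous_parametric_integral_of_continuous
    (f := fun (q : ℝ × ℝ) (s : ℝ) => m12 (sqa N) (fun k => ee ((q.2 + s) * h q.1 (fk f k)))) ?_ isCompact_Icc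
  unfold Function.uncurry
  refine m12_cont_coef (sqa N) (fun (q : (ℝ × ℝ) × ℝ) k => ee ((q.1.2 + q.2) * h q.1.1 (fk f k))) fun k _ => ?_
  refine ee_cont.comp (((continuous_snd.comp continuous_fst).add continuous_snd).mul ?_)
  exact hc.comp ((continuous_fst.comp continuous_fst).prodMk continuous_const)

private theorem card_e1 {N : ℕ} (hN : 1 ≤ N) : ((S6 (sqa N)).card : ℝ) ≤ 625 * (N : ℝ) ^ 2 := by
  have hNr : (1 : ℝ) ≤ N := by exact_mod_cast hN
  have hmem : ∀ p ∈ sqa N, (-(2 * N : ℤ) ≤ p.1 ∧ p.1 ≤ 2 * N) ∧ (-(2 * N : ℤ) ≤ p.2 ∧ p.2 ≤ 2 * N) := by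
    classical
    intro p hp
    unfold sqa at hp
    obtain ⟨-, -, h2, h3⟩ := Finset.mem_filter.1 hp
    have a1 := abs_le.1 h2.le
    have a2 := abs_le.1 h3.le
    exact ⟨a1, a2⟩
  have h3 : ∀ l ∈ S3 (sqa N), (-(6 * N : ℤ) ≤ l.1 ∧ l.1 ≤ 6 * N) ∧ (-(6 * N : ℤ) ≤ l.2 ∧ l.2 ≤ 6 * N) := by
    intro l hl
    unfold S3 at hl
    rw [Finset.mem_image] at hl
    obtain ⟨k, hk, rfl⟩ := hl
    rw [Finset.mem_product, Finset.mem_product] at hk
    obtain ⟨hk1, hk2, hk3⟩ := hk
    have a1 := hmem _ hk1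
    have a2 := hmem _ hk2
    have a3 := hmem _ hk3
    simp only [Prod.fst_add, Prod.snd_add]
    omega
  have hsub : S6 (sqa N) ⊆ Finset.Icc (-(12 * N : ℤ)) (12 * N) ×ˢ Finset.Icc (-(12 * N : ℤ)) (12 * N) := by
    intro l hl
    unfold S6 at hl
    rw [Finset.mem_image] at hl
    obtain ⟨k, hk, rfl⟩ := hl
    rw [Finset.mem_product] at hk
    obtain ⟨hk1, hk2⟩ := hk
    have a1 := h3 _ hk1
    have a2 := h3 _ hk2
    rw [Finset.mem_product, Finset.mem_Icc, Finset.mem_Icc]
    simp only [Prod.fst_add, Prod.snd_add]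
    omega
  have h1 := Finset.card_le_card hsub
  have h2 : (Finset.Icc (-(12 * N : ℤ)) (12 * N)).card = 24 * N + 1 := by
    rw [Int.card_Icc]
    omega
  rw [Finset.card_product, h2] at h1
  have h4 : ((S6 (sqa N)).card : ℝ) ≤ (24 * (N : ℝ) + 1) * (24 * (N : ℝ) + 1) := by exact_mod_cast h1
  nlinarith

/-- the pointwise bound by the local moment -/
theorem ls_loc {M B : ℝ} (hM : 1 ≤ M) : ∃ C : ℝ, 0 < C ∧ ∀ f : Fr, Fb M f → ∀ h : ℝ × ℝ → ℝ, HL B h → ∀ w : ℝ × ℝ → ℂ, WL B w →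
    ∀ i : ℕ, i ≤ 2 → ∀ N : ℕ, 1 ≤ N → ∀ R : ℝ, ∀ r ∈ Icc (R - 1) (R + 1), ∀ c : ℝ × ℝ,
      ‖LS f h w i N r c‖ ^ 12 ≤ C * (N : ℝ) ^ 3 * JL f h R N := by
  obtain ⟨C, hC, hmul⟩ := ls_mul (M := M) (B := B) hM
  refine ⟨625 * C ^ 12, by positivity, ?_⟩
  intro f hf h hh w hw i hi N hN R r hr c
  have hNr : (1 : ℝ) ≤ N := by exact_mod_cast hN
  have hN0 : (0 : ℝ) < N := by linarith
  obtain ⟨G, hG⟩ : ∃ G : ℝ → ℝ, G = fun r => m12 (sqa N) (fun k => ee (r * h (fk f k))) := ⟨_, rfl⟩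
  have hGc : Continuous G := by
    rw [hG]
    refine m12_cont_coef (sqa N) (fun (r : ℝ) k => ee (r * h (fk f k))) fun k _ => ?_
    exact ee_cont.comp (continuous_id.mul continuous_const)
  have hG0 : ∀ r, 0 ≤ G r := by
    intro r
    rw [hG]
    exact m12_nonneg _ _
  have hcard := card_e1 hN
  -- the bound for each `r'`
  have h1 : ∀ r' ∈ Icc r (r + 1 / N), ‖LS f h w i N r c‖ ^ 12 ≤ 625 * (N : ℝ) ^ 2 * C ^ 12 * G r' := by
    intro r' hr'
    have hs : |r - r'| ≤ 1 / N := by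
      rw [abs_le]
      constructor
      · linarith [hr'.2]
      · have := hr'.1
        have h2 : 0 ≤ 1 / (N : ℝ) := by positivity
        linarith
    have h2 := (hmul f hf h hh w hw i hi N hN (r - r') hs).2 (fun k => ee (r' * h (fk f k)))
    have h3 : LS f h w i N r c = tp (sqa N) (fun k => (((N : ℝ) / nr (fk f k) : ℝ) : ℂ) ^ i * w (fk f k) *
        ee ((r - r') * h (fk f k)) * ee (r' * h (fk f k))) c := by
      unfold LS tp
      refine Finset.sum_congr rfl fun k _ => ?_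
      have h4 : ee (r * h (fk f k) + dt k c) = ee ((r - r') * h (fk f k)) * ee (r' * h (fk f k)) * ee (dt k c) := by
        rw [← ee_add, ← ee_add]
        congr 1
        ring
      rw [h4]
      ring
    rw [h3]
    refine (nik12 _ _ _).trans ?_
    have h5 : m12 (sqa N) (fun k => (((N : ℝ) / nr (fk f k) : ℝ) : ℂ) ^ i * w (fk f k) *
        ee ((r - r') * h (fk f k)) * ee (r' * h (fk f k))) ≤ C ^ 12 * G r' := by
      rw [hG]
      exact h2
    calc ((S6 (sqa N)).card : ℝ) * m12 (sqa N) (fun k => (((N : ℝ) / nr (fk f k) : ℝ) : ℂ) ^ i * w (fk f k) *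
        ee ((r - r') * h (fk f k)) * ee (r' * h (fk f k))) ≤ 625 * (N : ℝ) ^ 2 * (C ^ 12 * G r') :=
          mul_le_mul hcard h5 (m12_nonneg _ _) (by positivity)
      _ = _ := by ring
  have hsub : Icc r (r + 1 / N) ⊆ Icc (R + -2) (R + 2) := by
    intro x hx
    have h2 : 1 / (N : ℝ) ≤ 1 := by
      rw [div_le_one hN0]
      exact hNr
    constructor
    · linarith [hx.1, hr.1]
    · linarith [hx.2, hr.2]
  have hvol : (volume (Icc r (r + 1 / (N : ℝ)))).toReal = 1 / N := by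
    rw [Real.volume_Icc, ENNReal.toReal_ofReal (by
      have : 0 ≤ 1 / (N : ℝ) := by positivity
      linarith)]
    ring
  have hJd : JL f h R N = ∫ r' in Icc (R + -2) (R + 2), G r' := by
    unfold JL
    rw [integral_Icc_eq_integral_Ioc, integral_Icc_eq_integral_Ioc, ← intervalIntegral.integral_of_le (by norm_num),
      ← intervalIntegral.integral_of_le (by linarith), ← intervalIntegral.integral_comp_add_left, hG]
  have hJ : ∫ r' in Icc r (r + 1 / N), G r' ≤ JL f h R N := by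
    rw [hJd]
    refine setIntegral_mono_set ?_ (Eventually.of_forall hG0) (Eventually.of_forall hsub)
    exact hGc.continuousOn.integrableOn_compact isCompact_Icc
  have h6 : ‖LS f h w i N r c‖ ^ 12 * (1 / N) ≤ 625 * (N : ℝ) ^ 2 * C ^ 12 * ∫ r' in Icc r (r + 1 / N), G r' := by
    have h7 : ∫ _r' in Icc r (r + 1 / (N : ℝ)), ‖LS f h w i N r c‖ ^ 12 ≤
        ∫ r' in Icc r (r + 1 / (N : ℝ)), 625 * (N : ℝ) ^ 2 * C ^ 12 * G r' := by
      refine setIntegral_mono_on ?_ ?_ measurableSet_Icc h1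
      · exact continuousOn_const.integrableOn_compact isCompact_Icc
      · exact (continuous_const.mul hGc).continuousOn.integrableOn_compact isCompact_Icc
    rw [integral_const_mul, setIntegral_const, Measure.real, hvol, smul_eq_mul] at h7
    linarith
  have h8 : ‖LS f h w i N r c‖ ^ 12 * (1 / N) ≤ 625 * (N : ℝ) ^ 2 * C ^ 12 * JL f h R N :=
    h6.trans (mul_le_mul_of_nonneg_left hJ (by positivity))
  calc ‖LS f h w i N r c‖ ^ 12 = ‖LS f h w i N r c‖ ^ 12 * (1 / N) * N := by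
        field_simp
    _ ≤ 625 * (N : ℝ) ^ 2 * C ^ 12 * JL f h R N * N := mul_le_mul_of_nonneg_right h8 hN0.le
    _ = 625 * C ^ 12 * (N : ℝ) ^ 3 * JL f h R N := by ring

/-- the mean of the local moment over the radii -/
theorem JL_int (f : Fr) (h : ℝ × ℝ → ℝ) (N : ℕ) {X : ℝ} (hX : 4 ≤ X) : ∫ R in Icc X (2 * X), JL f h R N ≤ 4 * JJ f h X N := by
  obtain ⟨G, hG⟩ : ∃ G : ℝ → ℝ, G = fun r => m12 (sqa N) (fun k => ee (r * h (fk f k))) := ⟨_, rfl⟩
  have hGc : Continuous G := by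
    rw [hG]
    refine m12_cont_coef (sqa N) (fun (r : ℝ) k => ee (r * h (fk f k))) fun k _ => ?_
    exact ee_cont.comp (continuous_id.mul continuous_const)
  have hG0 : ∀ r, 0 ≤ G r := by
    intro r
    rw [hG]
    exact m12_nonneg _ _
  have hJ : JJ f h X N = ∫ r in Icc (X / 4) (8 * X), G r := by
    unfold JJ
    rw [hG]
  have hs : ∀ s ∈ Icc (-2 : ℝ) 2, ∫ R in Icc X (2 * X), G (R + s) ≤ JJ f h X N := by
    intro s hs
    rw [hJ, integral_Icc_eq_integral_Ioc, ← intervalIntegral.integral_of_le (by linarith), intervalIntegral.integral_comp_add_right,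
      intervalIntegral.integral_of_le (by linarith), ← integral_Icc_eq_integral_Ioc]
    refine setIntegral_mono_set ?_ (Eventually.of_forall hG0) (Eventually.of_forall ?_)
    · exact hGc.continuousOn.integrableOn_compact isCompact_Icc
    · intro x hx
      constructor
      · linarith [hx.1, hs.1]
      · linarith [hx.2, hs.2]
  have e1 : ∀ R, JL f h R N = ∫ s in Icc (-2 : ℝ) 2, G (R + s) := by
    intro R
    unfold JL
    rw [hG]
  simp only [e1]
  have hc2 : Continuous (Function.uncurry fun (R s : ℝ) => G (R + s)) := hGc.comp (continuous_fst.add continuous_snd)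
  rw [integral_integral_swap]
  · have hc3 : Continuous fun s : ℝ => ∫ R in Icc X (2 * X), G (R + s) :=
      continuous_parametric_integral_of_continuous (f := fun (s : ℝ) (R : ℝ) => G (R + s))
        (hGc.comp (continuous_snd.add continuous_fst)) isCompact_Icc
    calc ∫ s in Icc (-2 : ℝ) 2, ∫ R in Icc X (2 * X), G (R + s) ≤ ∫ s in Icc (-2 : ℝ) 2, JJ f h X N := by
          refine setIntegral_mono_on ?_ ?_ measurableSet_Icc hs
          · exact hc3.continuousOn.integrableOn_compact isCompact_Icc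
          · exact continuousOn_const.integrableOn_compact isCompact_Icc
      _ = 4 * JJ f h X N := by
          rw [setIntegral_const, Measure.real, Real.volume_Icc, ENNReal.toReal_ofReal (by norm_num), smul_eq_mul]
          norm_num
  · rw [Measure.prod_restrict]
    exact hc2.continuousOn.integrableOn_compact (isCompact_Icc.prod isCompact_Icc)

end Pool.Agent.Helper92.LA
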