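import Pool.Agent.Helper22.OV.D2
import Pool.Agent.Helper22.LP.P1
import Pool.Agent.Helper92.LA.C2
import Pool.Agent.Helper92.LA.E1

/-!
# LA-E2: the twelfth mean over the radii of the supremum over the centres, one dyadic interval
-/

open MeasureTheory Real Set Filter Topology

set_option autoImplicit false

namespace Pool.Agent.Helper92.LA

open Pool.Agent.Helper22.AE
open Pool.Agent.Helper22.AC (cntc ga)
open Pool.Agent.Helper22.OV (o3_k0_cont o3_k0_nonneg cntc_bdd)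
open Pool.Agent.Helper92.GC (dt sqa)
open Pool.Agent.Helper22.LP (Fr fv fk fdet cp nr tr hom LS wr Hf Hf_isSupp nr_eq nr_pos)

/-- the local form of the reduction to the sums `LS`: for the radius `R` only the sums with `|r - R| ≤ 1` are used -/
def LPL (H : ℝ → ℝ) (f : Fr) : Prop := ∀ τ e2 α₀ : ℝ, 0 < τ → τ < 1 → 0 < e2 → 0 < α₀ → α₀ < π / 2 →
  ∃ C R₁ : ℝ, 0 < C ∧ 1 ≤ R₁ ∧ ∀ R₀ : ℝ, R₁ ≤ R₀ → ∀ n1 : ℕ, R₀ ^ (τ + e2) ≤ 2 ^ n1 → ∀ R ∈ Icc R₀ (2 * R₀),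
    ∀ g : ℕ → ℝ → ℝ, (∀ n < n1, IntegrableOn (g n) (Icc (-α₀) α₀)) →
    (∀ n < n1, ∀ α ∈ Icc (-α₀) α₀, ∀ r ∈ Icc (R - 1) (R + 1), ∀ c : ℝ × ℝ,
      ‖LS f (hom (ga H α)) (wr H α) 1 (2 ^ n) r c‖ ≤ g n α ∧ ‖LS f (hom (ga H α)) (fun _ => 1) 2 (2 ^ n) r c‖ ≤ g n α) →
    ∀ c : ℝ × ℝ, |cntc (Hf H f) c R - area (Hf H f) * R ^ 2| ≤
      C * (R₀ ^ (1 - τ) + ∑ n ∈ Finset.range n1, (R₀ ^ (1 / 2 : ℝ) * ((2 ^ n : ℕ) : ℝ) ^ (-(3 / 2) : ℝ) *
        (∫ α in Icc (-α₀) α₀, k0 (1 / sqrt (R₀ * (2 ^ n : ℕ))) α * g n α) + 1))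

private lemma mb_e2 {X N : ℝ} (hX : 1 ≤ X) (hN : 1 ≤ N) (hN2 : N ≤ X ^ (1 / 2 : ℝ)) : MB X N ≤ 3 * N ^ 15 := by
  have hX0 : 0 < X := by linarith
  have hN0 : 0 < N := by linarith
  unfold MB
  obtain ⟨x, rfl⟩ : ∃ x, X = exp x := ⟨log X, (exp_log hX0).symm⟩
  obtain ⟨n, rfl⟩ : ∃ n, N = exp n := ⟨log N, (exp_log hN0).symm⟩
  have hx : 0 ≤ x := one_le_exp_iff.1 hX
  have hn : 0 ≤ n := one_le_exp_iff.1 hN
  rw [← exp_mul, exp_le_exp] at hN2
  have h12 : exp n ^ 12 = exp (12 * n) := by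
    rw [← exp_nat_mul]
    norm_num
  have h15 : exp n ^ 15 = exp (15 * n) := by
    rw [← exp_nat_mul]
    norm_num
  have h18 : exp n ^ 18 = exp (18 * n) := by
    rw [← exp_nat_mul]
    norm_num
  have h22 : exp n ^ 22 = exp (22 * n) := by
    rw [← exp_nat_mul]
    norm_num
  rw [h12, h15, h18, h22, ← exp_add x n, ← exp_mul, ← exp_mul, ← exp_add, ← exp_add]
  have t1 : exp (12 * n) ≤ exp (15 * n) := by
    rw [exp_le_exp]
    linarith
  have t2 : exp (18 * n + (x + n) * -(3 / 2)) ≤ exp (15 * n) := by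
    rw [exp_le_exp]
    linarith
  have t3 : exp (22 * n + (x + n) * -(5 / 2)) ≤ exp (15 * n) := by
    rw [exp_le_exp]
    linarith
  linarith

private lemma psum_e2 {n1 : ℕ} {x : ℝ} {y : ℕ → ℝ} (hx : 0 ≤ x) (hy : ∀ i, 0 ≤ y i) :
    (x + ∑ i ∈ Finset.range n1, y i) ^ 12 ≤ ((n1 : ℝ) + 1) ^ 11 * (x ^ 12 + ∑ i ∈ Finset.range n1, y i ^ 12) := by
  obtain ⟨F, h0, h1⟩ : ∃ F : ℕ → ℝ, F 0 = x ∧ ∀ i, F (i + 1) = y i := ⟨fun i => Nat.casesOn i x y, rfl, fun _ => rfl⟩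
  have h2 := pow_sum_le_card_mul_sum_pow (s := Finset.range (n1 + 1)) (f := F) (fun i _ => by
    cases i with
    | zero =>
      rw [h0]
      exact hx
    | succ i =>
      rw [h1]
      exact hy i) 11
  rw [Finset.sum_range_succ', Finset.sum_range_succ', Finset.card_range] at h2
  simp only [h0, h1] at h2
  push_cast at h2
  rw [add_comm x, add_comm (x ^ 12)]
  exact h2

private lemma term_e2 {X N I l P C₂ : ℝ} (hX : 1 ≤ X) (hN : 1 ≤ N) (hI0 : 0 ≤ I) (hI : I ≤ 21 * l) (hl : l ^ 12 = C₂ * N ^ 3 * P + 1) :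
    (X ^ (1 / 2 : ℝ) * N ^ (-(3 / 2) : ℝ) * I + 1) ^ 12 ≤ 2 ^ 11 * 21 ^ 12 * (C₂ * (X ^ 6 * P / N ^ 15) + 2 * X ^ 6) := by
  have hX0 : 0 < X := by linarith
  have hN0 : 0 < N := by linarith
  have h1 : (X ^ (1 / 2 : ℝ)) ^ 12 = X ^ 6 := by
    rw [← rpow_natCast, ← rpow_mul hX0.le, ← rpow_natCast]
    norm_num
  have h2 : (N ^ (-(3 / 2) : ℝ)) ^ 12 = 1 / N ^ 18 := by
    rw [← rpow_natCast, ← rpow_mul hN0.le, one_div, ← rpow_natCast, ← rpow_neg hN0.le]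
    norm_num
  have h3 : I ^ 12 ≤ 21 ^ 12 * (C₂ * N ^ 3 * P + 1) := by
    rw [← hl, ← mul_pow]
    exact pow_le_pow_left₀ hI0 hI 12
  have h4 := add_pow_le (a := X ^ (1 / 2 : ℝ) * N ^ (-(3 / 2) : ℝ) * I) (b := 1) (by positivity) zero_le_one 12
  refine h4.trans ?_
  rw [mul_pow, mul_pow, h1, h2, one_pow]
  have h5 : X ^ 6 * (1 / N ^ 18) * I ^ 12 ≤ X ^ 6 * (1 / N ^ 18) * (21 ^ 12 * (C₂ * N ^ 3 * P + 1)) :=
    mul_le_mul_of_nonneg_left h3 (by positivity)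
  have h6 : X ^ 6 * (1 / N ^ 18) * (21 ^ 12 * (C₂ * N ^ 3 * P + 1)) = 21 ^ 12 * (C₂ * (X ^ 6 * P / N ^ 15) + X ^ 6 / N ^ 18) := by
    field_simp
  have h7 : X ^ 6 / N ^ 18 ≤ X ^ 6 := div_le_self (by positivity) (one_le_pow₀ hN)
  have h8 : 1 ≤ X ^ 6 := one_le_pow₀ hX
  norm_num at h5 h6 ⊢
  linarith

private theorem fb_e2 {f : Fr} (hf : fdet f ≠ 0) : ∃ M : ℝ, 1 ≤ M ∧ Fb M f := by
  have h0 : 0 < |fdet f| := abs_pos.2 hf
  refine ⟨1 + |f.1.1| + |f.1.2| + |f.2.1| + |f.2.2| + 1 / |fdet f|, ?_, ?_⟩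
  · have := abs_nonneg f.1.1
    have := abs_nonneg f.1.2
    have := abs_nonneg f.2.1
    have := abs_nonneg f.2.2
    have : 0 ≤ 1 / |fdet f| := by positivity
    linarith
  · have h1 := abs_nonneg f.1.1
    have h2 := abs_nonneg f.1.2
    have h3 := abs_nonneg f.2.1
    have h4 := abs_nonneg f.2.2
    have h5 : 0 ≤ 1 / |fdet f| := by positivity
    refine ⟨by linarith, by linarith, by linarith, by linarith, ?_⟩
    have h6 : 1 = 1 / |fdet f| * |fdet f| := by field_simp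
    calc (1 : ℝ) = 1 / |fdet f| * |fdet f| := h6
      _ ≤ _ := mul_le_mul_of_nonneg_right (by linarith) h0.le

private theorem k0_mass_e2 {α₀ β : ℝ} (h0 : 0 < α₀) (h1 : α₀ < π / 2) (hβ : 0 < β) : ∫ α in Icc (-α₀) α₀, k0 β α ≤ 20 := by
  have hpi := Real.pi_pos
  have h2 := k0_int hβ
  rw [intervalIntegral.integral_of_le (by linarith)] at h2
  refine le_trans (setIntegral_mono_set ?_ (Eventually.of_forall (o3_k0_nonneg hβ)) (Eventually.of_forall ?_)) h2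
  · rw [← integrableOn_Icc_iff_integrableOn_Ioc]
    exact (o3_k0_cont hβ).continuousOn.integrableOn_compact isCompact_Icc
  · intro x hx
    exact ⟨by linarith [hx.1], by linarith [hx.2]⟩

/-- Hoelder, in the form which is needed -/
private theorem hold_e2 {α₀ : ℝ} {κ J : ℝ → ℝ} (hκ : Continuous κ) (hκ0 : ∀ α, 0 ≤ κ α) (hJ : Continuous J) (hJ0 : ∀ α, 0 ≤ J α)
    (hκ1 : ∫ α in Icc (-α₀) α₀, κ α ≤ 20) {l : ℝ} (hl : 0 < l) (hJ1 : ∫ α in Icc (-α₀) α₀, κ α * J α ≤ l ^ 12) :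
    ∫ α in Icc (-α₀) α₀, κ α * J α ^ (1 / 12 : ℝ) ≤ 21 * l := by
  have hpt : ∀ α, κ α * J α ^ (1 / 12 : ℝ) ≤ l * κ α + 1 / l ^ 11 * (κ α * J α) := by
    intro α
    have h1 : J α ^ (1 / 12 : ℝ) ≤ l + 1 / l ^ 11 * J α := by
      obtain ⟨y, hy⟩ : ∃ y : ℝ, y = J α ^ (1 / 12 : ℝ) := ⟨_, rfl⟩
      have hy0 : 0 ≤ y := by
        rw [hy]
        exact rpow_nonneg (hJ0 α) _
      have hy12 : y ^ 12 = J α := by
        rw [hy, ← rpow_natCast, ← rpow_mul (hJ0 α)]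
        norm_num
      rw [← hy, ← hy12]
      rcases le_total y l with h | h
      · have : 0 ≤ 1 / l ^ 11 * y ^ 12 := by positivity
        linarith
      · have h2 : l ^ 11 ≤ y ^ 11 := pow_le_pow_left₀ hl.le h 11
        have h3 : y ≤ 1 / l ^ 11 * y ^ 12 := by
          rw [one_div, inv_mul_eq_div, le_div_iff₀ (by positivity)]
          calc y * l ^ 11 ≤ y * y ^ 11 := mul_le_mul_of_nonneg_left h2 hy0
            _ = y ^ 12 := by ring
        linarith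
    calc κ α * J α ^ (1 / 12 : ℝ) ≤ κ α * (l + 1 / l ^ 11 * J α) := mul_le_mul_of_nonneg_left h1 (hκ0 α)
      _ = _ := by ring
  have hJc : Continuous fun α => J α ^ (1 / 12 : ℝ) := hJ.rpow_const fun _ => Or.inr (by norm_num)
  calc ∫ α in Icc (-α₀) α₀, κ α * J α ^ (1 / 12 : ℝ) ≤ ∫ α in Icc (-α₀) α₀, (l * κ α + 1 / l ^ 11 * (κ α * J α)) := by
        refine setIntegral_mono_on ?_ ?_ measurableSet_Icc fun α _ => hpt α
        · exact (hκ.mul hJc).continuousOn.integrableOn_compact isCompact_Icc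
        · exact ((continuous_const.mul hκ).add (continuous_const.mul (hκ.mul hJ))).continuousOn.integrableOn_compact isCompact_Icc
    _ = l * (∫ α in Icc (-α₀) α₀, κ α) + 1 / l ^ 11 * ∫ α in Icc (-α₀) α₀, κ α * J α := by
        rw [integral_add, integral_const_mul, integral_const_mul]
        · exact (continuous_const.mul hκ).continuousOn.integrableOn_compact isCompact_Icc
        · exact (continuous_const.mul (hκ.mul hJ)).continuousOn.integrableOn_compact isCompact_Icc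
    _ ≤ l * 20 + 1 / l ^ 11 * l ^ 12 := by
        have h2 : 0 ≤ 1 / l ^ 11 := by positivity
        have := mul_le_mul_of_nonneg_left hκ1 hl.le
        have := mul_le_mul_of_nonneg_left hJ1 h2
        linarith
    _ = 21 * l := by
        field_simp
        ring

/-- the supremum over the centres of the error, to the twelfth power -/
noncomputable def sup12 (E : ℝ × ℝ → ℝ → ℝ) (R : ℝ) : ENNReal := (⨆ c : ℝ × ℝ, ENNReal.ofReal |E c R|) ^ 12

theorem sup12_le {E : ℝ × ℝ → ℝ → ℝ} {R y Φ : ℝ} (h : ∀ c, |E c R| ≤ y) (hy : 0 ≤ y) (hΦ : y ^ 12 ≤ Φ) : sup12 E R ≤ ENNReal.ofReal Φ := by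
  unfold sup12
  have h1 : (⨆ c : ℝ × ℝ, ENNReal.ofReal |E c R|) ≤ ENNReal.ofReal y := iSup_le fun c => ENNReal.ofReal_le_ofReal (h c)
  calc (⨆ c : ℝ × ℝ, ENNReal.ofReal |E c R|) ^ 12 ≤ (ENNReal.ofReal y) ^ 12 := pow_le_pow_left' h1 12
    _ = ENNReal.ofReal (y ^ 12) := (ENNReal.ofReal_pow hy 12).symm
    _ ≤ ENNReal.ofReal Φ := ENNReal.ofReal_le_ofReal hΦ

/-- one frame, one dyadic interval -/
theorem mean_core {H : ℝ → ℝ} {α₀ B : ℝ} (ha0 : 0 < α₀) (ha1 : α₀ < π / 2)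
    (hjc : Continuous fun q : ℝ × (ℝ × ℝ) => hom (ga H q.1) q.2)
    (hfam : ∀ α ∈ Icc (-α₀) α₀, HL B (hom (ga H α)) ∧ WL B (wr H α) ∧ WL B (fun _ => 1)) {f : Fr} (hf : fdet f ≠ 0)
    (hlpl : LPL H f) {e : ℝ} (he : 0 < e) (he1 : e ≤ 1 / 1000) {C₁ : ℝ} (hC₁ : 0 ≤ C₁)
    (hJ : ∀ p n : ℕ, n ≤ p → ∫ α in Icc (-α₀) α₀, k0 (1 / sqrt ((2 : ℝ) ^ p * ((2 ^ n : ℕ) : ℝ))) α * JJ f (hom (ga H α)) ((2 : ℝ) ^ p) (2 ^ n) ≤
      C₁ * (((2 : ℝ) ^ p) ^ (1 + e) * MB ((2 : ℝ) ^ p) (2 ^ n))) :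
    ∃ C R₁ : ℝ, 0 ≤ C ∧ 4 ≤ R₁ ∧ ∀ p : ℕ, R₁ ≤ (2 : ℝ) ^ p →
      ∫⁻ R in Icc ((2 : ℝ) ^ p) (2 * (2 : ℝ) ^ p), sup12 (fun c R => cntc (Hf H f) c R - area (Hf H f) * R ^ 2) R ≤
        ENNReal.ofReal (C * ((2 : ℝ) ^ p) ^ (7 + 24 * e)) := by
  obtain ⟨M, hM, hfb⟩ := fb_e2 hf
  obtain ⟨C₂, hC₂, hls⟩ := ls_loc (M := M) (B := B) hM
  obtain ⟨C₃, R₁, hC₃, hR₁, hlp⟩ := hlpl (1 / 2 - e) e α₀ (by linarith) (by linarith) he ha0 ha1
  obtain ⟨K, hK⟩ : ∃ K : ℝ, K = 2 ^ 11 * 21 ^ 12 := ⟨_, rfl⟩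
  have hK0 : 0 < K := by
    rw [hK]
    norm_num
  refine ⟨C₃ ^ 12 * (2 / e + 2) ^ 12 * (1 + K * (12 * C₁ * C₂ + 2)), max R₁ 4, by positivity, le_max_right _ _, ?_⟩
  intro p hp
  obtain ⟨X, hX⟩ : ∃ X : ℝ, X = (2 : ℝ) ^ p := ⟨_, rfl⟩
  rw [← hX] at hp ⊢
  have hX4 : 4 ≤ X := (le_max_right _ _).trans hp
  have hXR1 : R₁ ≤ X := (le_max_left _ _).trans hp
  have hX1 : 1 ≤ X := by linarith
  have hX0 : 0 < X := by linarith
  obtain ⟨n1, hn1⟩ : ∃ n1 : ℕ, n1 = ⌈(1 / 2 : ℝ) * p⌉₊ := ⟨_, rfl⟩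
  have hXp : ∀ y : ℝ, X ^ y = (2 : ℝ) ^ (p * y) := by
    intro y
    rw [hX, ← rpow_natCast 2 p, ← rpow_mul (by norm_num)]
  have hn1a : X ^ (1 / 2 - e + e) ≤ 2 ^ n1 := by
    rw [hXp, ← rpow_natCast]
    refine rpow_le_rpow_of_exponent_le (by norm_num) ?_
    rw [hn1]
    have : (p : ℝ) * (1 / 2 - e + e) = 1 / 2 * p := by ring
    rw [this]
    exact Nat.le_ceil _
  have hn1b : ∀ n < n1, (n : ℝ) < 1 / 2 * p := by
    intro n hn
    rw [hn1] at hn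
    exact Nat.lt_ceil.1 hn
  have hnp : ∀ n < n1, n ≤ p := by
    intro n hn
    have h1 := hn1b n hn
    have h2 : (0 : ℝ) ≤ p := Nat.cast_nonneg p
    have h3 : (n : ℝ) < p := by linarith
    exact_mod_cast h3.le
  have hnX : ∀ n < n1, (2 : ℝ) ^ n ≤ X ^ (1 / 2 : ℝ) := by
    intro n hn
    rw [hXp, ← rpow_natCast]
    refine rpow_le_rpow_of_exponent_le (by norm_num) ?_
    have h1 := hn1b n hn
    linarith
  have hn1c : (n1 : ℝ) + 1 ≤ (2 / e + 2) * X ^ e := by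
    have h1 : (n1 : ℝ) < 1 / 2 * p + 1 := by
      rw [hn1]
      exact Nat.ceil_lt_add_one (by positivity)
    have h2 : log X ≤ X ^ e / e := log_le_rpow_div hX0.le he
    have h3 : (1 : ℝ) / 2 < log 2 := by
      have := log_two_gt_d9
      linarith
    have h4 : log X = p * log 2 := by
      rw [hX, log_pow]
    have h5 : (p : ℝ) * (1 / 2) ≤ X ^ e / e := by
      have : (p : ℝ) * (1 / 2) ≤ p * log 2 := mul_le_mul_of_nonneg_left h3.le (Nat.cast_nonneg p)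
      linarith
    have h6 : 1 ≤ X ^ e := one_le_rpow hX1 he.le
    have h8 : 2 / e * X ^ e = 2 * (X ^ e / e) := by ring
    have h9 : 0 ≤ X ^ e / e := by positivity
    linarith
  -- the functions
  have hN1 : ∀ n : ℕ, 1 ≤ 2 ^ n := fun n => Nat.one_le_two_pow
  have hNr1 : ∀ n : ℕ, (1 : ℝ) ≤ ((2 ^ n : ℕ) : ℝ) := fun n => by exact_mod_cast hN1 n
  have hNr : ∀ n : ℕ, ((2 ^ n : ℕ) : ℝ) = (2 : ℝ) ^ n := fun n => by push_cast; rfl
  have hβ : ∀ n : ℕ, 0 < 1 / sqrt (X * ((2 ^ n : ℕ) : ℝ)) := by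
    intro n
    have := hNr1 n
    positivity
  obtain ⟨κ, hκd⟩ : ∃ κ : ℕ → ℝ → ℝ, ∀ n, κ n = k0 (1 / sqrt (X * ((2 ^ n : ℕ) : ℝ))) := ⟨_, fun _ => rfl⟩
  have hκc : ∀ n, Continuous (κ n) := by
    intro n
    rw [hκd]
    exact o3_k0_cont (hβ n)
  have hκ0 : ∀ n α, 0 ≤ κ n α := by
    intro n α
    rw [hκd]
    exact o3_k0_nonneg (hβ n) α
  have hκ1 : ∀ n, ∫ α in Icc (-α₀) α₀, κ n α ≤ 20 := by
    intro n
    rw [hκd]
    exact k0_mass_e2 ha0 ha1 (hβ n)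
  obtain ⟨J, hJd⟩ : ∃ J : ℕ → ℝ → ℝ → ℝ, ∀ n α R, J n α R = JL f (hom (ga H α)) R (2 ^ n) := ⟨_, fun _ _ _ => rfl⟩
  have hJc : ∀ n, Continuous fun q : ℝ × ℝ => J n q.1 q.2 := by
    intro n
    simp only [hJd]
    exact JL_cont (h := fun α => hom (ga H α)) hjc f (2 ^ n)
  have hJ0 : ∀ n α R, 0 ≤ J n α R := by
    intro n α R
    rw [hJd]
    exact JL_nonneg _ _ _ _
  obtain ⟨P, hPd⟩ : ∃ P : ℕ → ℝ → ℝ, ∀ n R, P n R = ∫ α in Icc (-α₀) α₀, κ n α * J n α R := ⟨_, fun _ _ => rfl⟩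
  have hP0 : ∀ n R, 0 ≤ P n R := by
    intro n R
    rw [hPd]
    exact integral_nonneg fun α => mul_nonneg (hκ0 n α) (hJ0 n α R)
  have hPc : ∀ n, Continuous (P n) := by
    intro n
    have h1 : P n = fun R => ∫ α in Icc (-α₀) α₀, κ n α * J n α R := funext (hPd n)
    rw [h1]
    refine continuous_parametric_integral_of_continuous (f := fun (R : ℝ) (α : ℝ) => κ n α * J n α R) ?_ isCompact_Icc
    exact ((hκc n).comp continuous_snd).mul ((hJc n).comp (continuous_snd.prodMk continuous_fst))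
  have hPint : ∀ n < n1, ∫ R in Icc X (2 * X), P n R ≤ 4 * (C₁ * (X ^ (1 + e) * (3 * ((2 ^ n : ℕ) : ℝ) ^ 15))) := by
    intro n hn
    have h1 : ∫ R in Icc X (2 * X), P n R = ∫ α in Icc (-α₀) α₀, κ n α * ∫ R in Icc X (2 * X), J n α R := by
      simp only [hPd]
      rw [integral_integral_swap]
      · refine integral_congr_ae (Eventually.of_forall fun α => ?_)
        simp only
        rw [integral_const_mul]
      · rw [Measure.prod_restrict]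
        refine ContinuousOn.integrableOn_compact (isCompact_Icc.prod isCompact_Icc) (Continuous.continuousOn ?_)
        exact ((hκc n).comp continuous_snd).mul ((hJc n).comp (continuous_snd.prodMk continuous_fst))
    obtain ⟨Q, hQd⟩ : ∃ Q : ℝ → ℝ, ∀ α, Q α = JJ f (hom (ga H α)) X (2 ^ n) := ⟨_, fun _ => rfl⟩
    have hQc : Continuous Q := by
      have h1 := JJ_cont (h := fun α => hom (ga H α)) hjc X (2 ^ n)
      have h2 : Continuous fun α : ℝ => ((f, α) : Fr × ℝ) := continuous_const.prodMk continuous_id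
      have h3 := h1.comp h2
      have h4 : Q = (fun q : Fr × ℝ => JJ q.1 (hom (ga H q.2)) X (2 ^ n)) ∘ fun α : ℝ => ((f, α) : Fr × ℝ) := by
        funext α
        rw [hQd]
        rfl
      rw [h4]
      exact h3
    have hJi : Continuous fun α => ∫ R in Icc X (2 * X), J n α R :=
      continuous_parametric_integral_of_continuous (f := fun (α : ℝ) (R : ℝ) => J n α R) (hJc n) isCompact_Icc
    have h2 : ∫ α in Icc (-α₀) α₀, κ n α * ∫ R in Icc X (2 * X), J n α R ≤ ∫ α in Icc (-α₀) α₀, κ n α * (4 * Q α) := by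
      refine setIntegral_mono_on ?_ ?_ measurableSet_Icc fun α _ => mul_le_mul_of_nonneg_left ?_ (hκ0 n α)
      · exact ((hκc n).mul hJi).continuousOn.integrableOn_compact isCompact_Icc
      · exact ((hκc n).mul (continuous_const.mul hQc)).continuousOn.integrableOn_compact isCompact_Icc
      · rw [hQd]
        simp only [hJd]
        exact JL_int f (hom (ga H α)) (2 ^ n) hX4
    have h3 : ∫ α in Icc (-α₀) α₀, κ n α * (4 * Q α) = 4 * ∫ α in Icc (-α₀) α₀, κ n α * Q α := by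
      rw [← integral_const_mul]
      refine integral_congr_ae (Eventually.of_forall fun α => ?_)
      simp only
      ring
    have h4 := hJ p n (hnp n hn)
    rw [← hX, ← hκd n] at h4
    simp only [← hQd] at h4
    have h5 : MB X (2 ^ n) ≤ 3 * ((2 ^ n : ℕ) : ℝ) ^ 15 := by
      rw [hNr]
      exact mb_e2 hX1 (by rw [← hNr]; exact hNr1 n) (hnX n hn)
    have h6 : C₁ * (X ^ (1 + e) * MB X (2 ^ n)) ≤ C₁ * (X ^ (1 + e) * (3 * ((2 ^ n : ℕ) : ℝ) ^ 15)) :=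
      mul_le_mul_of_nonneg_left (mul_le_mul_of_nonneg_left h5 (by positivity)) hC₁
    rw [h1]
    linarith
  -- the majorant
  obtain ⟨Φ, hΦd⟩ : ∃ Φ : ℝ → ℝ, ∀ R, Φ R = C₃ ^ 12 * (((n1 : ℝ) + 1) ^ 11 * (X ^ (6 + 12 * e) +
    ∑ n ∈ Finset.range n1, K * (C₂ * (X ^ 6 * P n R / ((2 ^ n : ℕ) : ℝ) ^ 15) + 2 * X ^ 6))) := ⟨_, fun _ => rfl⟩
  have hΦc : Continuous Φ := by
    have h1 : Φ = fun R => C₃ ^ 12 * (((n1 : ℝ) + 1) ^ 11 * (X ^ (6 + 12 * e) +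
      ∑ n ∈ Finset.range n1, K * (C₂ * (X ^ 6 * P n R / ((2 ^ n : ℕ) : ℝ) ^ 15) + 2 * X ^ 6))) := funext hΦd
    rw [h1]
    refine continuous_const.mul (continuous_const.mul (continuous_const.add (continuous_finsetSum _ fun n _ => ?_)))
    exact continuous_const.mul ((continuous_const.mul ((continuous_const.mul (hPc n)).div_const _)).add continuous_const)
  have hΦ0 : ∀ R, 0 ≤ Φ R := by
    intro R
    rw [hΦd]
    refine mul_nonneg (by positivity) (mul_nonneg (by positivity) (add_nonneg (by positivity) (Finset.sum_nonneg fun n _ => ?_)))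
    have := hP0 n R
    positivity
  have hΦint : ∫ R in Icc X (2 * X), Φ R ≤ C₃ ^ 12 * (2 / e + 2) ^ 12 * (1 + K * (12 * C₁ * C₂ + 2)) * X ^ (7 + 24 * e) := by
    have hvol : ∀ z : ℝ, ∫ _R in Icc X (2 * X), z = X * z := by
      intro z
      rw [setIntegral_const, Measure.real, Real.volume_Icc, ENNReal.toReal_ofReal (by linarith), smul_eq_mul]
      ring
    have hcon : ∀ g : ℝ → ℝ, Continuous g → IntegrableOn g (Icc X (2 * X)) := fun g hg =>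
      hg.continuousOn.integrableOn_compact isCompact_Icc
    have e1 : ∫ R in Icc X (2 * X), Φ R = C₃ ^ 12 * (((n1 : ℝ) + 1) ^ 11 * (X * X ^ (6 + 12 * e) +
        ∑ n ∈ Finset.range n1, K * (C₂ * (X ^ 6 * (∫ R in Icc X (2 * X), P n R) / ((2 ^ n : ℕ) : ℝ) ^ 15) + X * (2 * X ^ 6)))) := by
      have hc1 : ∀ n, Continuous fun R => X ^ 6 * P n R / ((2 ^ n : ℕ) : ℝ) ^ 15 := fun n => (continuous_const.mul (hPc n)).div_const _
      have hc2 : ∀ n, Continuous fun R => C₂ * (X ^ 6 * P n R / ((2 ^ n : ℕ) : ℝ) ^ 15) := fun n => continuous_const.mul (hc1 n)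
      have hc3 : ∀ n, Continuous fun R => K * (C₂ * (X ^ 6 * P n R / ((2 ^ n : ℕ) : ℝ) ^ 15) + 2 * X ^ 6) := fun n =>
        continuous_const.mul ((hc2 n).add continuous_const)
      have e3 : ∀ n, ∫ R in Icc X (2 * X), K * (C₂ * (X ^ 6 * P n R / ((2 ^ n : ℕ) : ℝ) ^ 15) + 2 * X ^ 6) =
          K * (C₂ * (X ^ 6 * (∫ R in Icc X (2 * X), P n R) / ((2 ^ n : ℕ) : ℝ) ^ 15) + X * (2 * X ^ 6)) := by
        intro n
        rw [integral_const_mul, integral_add (hcon _ (hc2 n)) (hcon (fun _ => 2 * X ^ 6) continuous_const), integral_const_mul,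
          integral_div, integral_const_mul, hvol]
      have e4 : ∫ R in Icc X (2 * X), (X ^ (6 + 12 * e) + ∑ n ∈ Finset.range n1, K * (C₂ * (X ^ 6 * P n R / ((2 ^ n : ℕ) : ℝ) ^ 15) +
          2 * X ^ 6)) = X * X ^ (6 + 12 * e) +
          ∑ n ∈ Finset.range n1, K * (C₂ * (X ^ 6 * (∫ R in Icc X (2 * X), P n R) / ((2 ^ n : ℕ) : ℝ) ^ 15) + X * (2 * X ^ 6)) := by
        rw [integral_add (hcon (fun _ => X ^ (6 + 12 * e)) continuous_const)
          (hcon (fun R => ∑ n ∈ Finset.range n1, K * (C₂ * (X ^ 6 * P n R / ((2 ^ n : ℕ) : ℝ) ^ 15) + 2 * X ^ 6))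
            (continuous_finsetSum _ fun n _ => hc3 n)), hvol, integral_finsetSum _ fun n _ => hcon _ (hc3 n)]
        congr 1
        exact Finset.sum_congr rfl fun n _ => e3 n
      simp only [hΦd]
      rw [integral_const_mul, integral_const_mul, e4]
    have hXa : X * X ^ (6 + 12 * e) = X ^ (7 + 12 * e) := by
      rw [← rpow_one_add' hX0.le (by linarith)]
      congr 1
      ring
    have hXb : X ^ 6 * X ^ (1 + e) = X ^ (7 + e) := by
      rw [← rpow_natCast, ← rpow_add hX0]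
      congr 1
      push_cast
      ring
    have hXc : X ^ (7 + e) ≤ X ^ (7 + 12 * e) := rpow_le_rpow_of_exponent_le hX1 (by linarith)
    have hXd : X * X ^ 6 ≤ X ^ (7 + 12 * e) := by
      have : X * X ^ 6 = X ^ (7 : ℝ) := by
        rw [← rpow_natCast, ← rpow_one_add' hX0.le (by norm_num)]
        norm_num
      rw [this]
      exact rpow_le_rpow_of_exponent_le hX1 (by linarith)
    have hterm : ∀ n ∈ Finset.range n1, K * (C₂ * (X ^ 6 * (∫ R in Icc X (2 * X), P n R) / ((2 ^ n : ℕ) : ℝ) ^ 15) + X * (2 * X ^ 6)) ≤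
        K * (12 * C₁ * C₂ + 2) * X ^ (7 + 12 * e) := by
      intro n hn
      have h1 := hPint n (Finset.mem_range.1 hn)
      have hNn : (0 : ℝ) < ((2 ^ n : ℕ) : ℝ) ^ 15 := by
        have := hNr1 n
        positivity
      have h2 : X ^ 6 * (∫ R in Icc X (2 * X), P n R) / ((2 ^ n : ℕ) : ℝ) ^ 15 ≤ 12 * C₁ * X ^ (7 + e) := by
        rw [div_le_iff₀ hNn, ← hXb]
        calc X ^ 6 * (∫ R in Icc X (2 * X), P n R) ≤ X ^ 6 * (4 * (C₁ * (X ^ (1 + e) * (3 * ((2 ^ n : ℕ) : ℝ) ^ 15)))) :=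
              mul_le_mul_of_nonneg_left h1 (by positivity)
          _ = _ := by ring
      have h3 : 12 * C₁ * X ^ (7 + e) ≤ 12 * C₁ * X ^ (7 + 12 * e) := mul_le_mul_of_nonneg_left hXc (by positivity)
      have h4 : C₂ * (X ^ 6 * (∫ R in Icc X (2 * X), P n R) / ((2 ^ n : ℕ) : ℝ) ^ 15) ≤ C₂ * (12 * C₁ * X ^ (7 + 12 * e)) :=
        mul_le_mul_of_nonneg_left (h2.trans h3) hC₂.le
      calc K * (C₂ * (X ^ 6 * (∫ R in Icc X (2 * X), P n R) / ((2 ^ n : ℕ) : ℝ) ^ 15) + X * (2 * X ^ 6)) ≤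
            K * (C₂ * (12 * C₁ * X ^ (7 + 12 * e)) + 2 * X ^ (7 + 12 * e)) := by
              refine mul_le_mul_of_nonneg_left (add_le_add h4 ?_) hK0.le
              linarith
        _ = _ := by ring
    have hsum := Finset.sum_le_sum hterm
    rw [Finset.sum_const, Finset.card_range, nsmul_eq_mul] at hsum
    rw [e1, hXa]
    have hA : 0 ≤ X ^ (7 + 12 * e) := by positivity
    have hn0 : (0 : ℝ) ≤ n1 := Nat.cast_nonneg n1
    have h1 : X ^ (7 + 12 * e) + ∑ n ∈ Finset.range n1, K * (C₂ * (X ^ 6 * (∫ R in Icc X (2 * X), P n R) / ((2 ^ n : ℕ) : ℝ) ^ 15) +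
        X * (2 * X ^ 6)) ≤ ((n1 : ℝ) + 1) * ((1 + K * (12 * C₁ * C₂ + 2)) * X ^ (7 + 12 * e)) := by
      have h2 : 0 ≤ K * (12 * C₁ * C₂ + 2) * X ^ (7 + 12 * e) := by positivity
      have h3 : 0 ≤ (n1 : ℝ) * X ^ (7 + 12 * e) := by positivity
      have h4 : ((n1 : ℝ) + 1) * ((1 + K * (12 * C₁ * C₂ + 2)) * X ^ (7 + 12 * e)) =
        X ^ (7 + 12 * e) + n1 * (K * (12 * C₁ * C₂ + 2) * X ^ (7 + 12 * e)) + (n1 : ℝ) * X ^ (7 + 12 * e) +
          K * (12 * C₁ * C₂ + 2) * X ^ (7 + 12 * e) := by ring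
      rw [h4]
      linarith
    have h5 : C₃ ^ 12 * (((n1 : ℝ) + 1) ^ 11 * (X ^ (7 + 12 * e) + ∑ n ∈ Finset.range n1, K * (C₂ * (X ^ 6 *
        (∫ R in Icc X (2 * X), P n R) / ((2 ^ n : ℕ) : ℝ) ^ 15) + X * (2 * X ^ 6)))) ≤
        C₃ ^ 12 * (((n1 : ℝ) + 1) ^ 11 * (((n1 : ℝ) + 1) * ((1 + K * (12 * C₁ * C₂ + 2)) * X ^ (7 + 12 * e)))) :=
      mul_le_mul_of_nonneg_left (mul_le_mul_of_nonneg_left h1 (by positivity)) (by positivity)
    refine h5.trans ?_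
    have h6 : ((n1 : ℝ) + 1) ^ 12 ≤ ((2 / e + 2) * X ^ e) ^ 12 := pow_le_pow_left₀ (by positivity) hn1c 12
    have h7 : (X ^ e) ^ 12 * X ^ (7 + 12 * e) = X ^ (7 + 24 * e) := by
      rw [← rpow_natCast, ← rpow_mul hX0.le, ← rpow_add hX0]
      congr 1
      push_cast
      ring
    calc C₃ ^ 12 * (((n1 : ℝ) + 1) ^ 11 * (((n1 : ℝ) + 1) * ((1 + K * (12 * C₁ * C₂ + 2)) * X ^ (7 + 12 * e)))) =
          C₃ ^ 12 * (((n1 : ℝ) + 1) ^ 12 * ((1 + K * (12 * C₁ * C₂ + 2)) * X ^ (7 + 12 * e))) := by ring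
      _ ≤ C₃ ^ 12 * (((2 / e + 2) * X ^ e) ^ 12 * ((1 + K * (12 * C₁ * C₂ + 2)) * X ^ (7 + 12 * e))) :=
          mul_le_mul_of_nonneg_left (mul_le_mul_of_nonneg_right h6 (by positivity)) (by positivity)
      _ = C₃ ^ 12 * (2 / e + 2) ^ 12 * (1 + K * (12 * C₁ * C₂ + 2)) * ((X ^ e) ^ 12 * X ^ (7 + 12 * e)) := by ring
      _ = _ := by rw [h7]
  -- the pointwise bound
  have hpoint : ∀ R ∈ Icc X (2 * X), sup12 (fun c R => cntc (Hf H f) c R - area (Hf H f) * R ^ 2) R ≤ ENNReal.ofReal (Φ R) := by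
    intro R hR
    obtain ⟨G, hG⟩ : ∃ G : ℕ → ℝ → ℝ, ∀ n α, G n α = C₂ * ((2 ^ n : ℕ) : ℝ) ^ 3 * J n α R := ⟨_, fun _ _ => rfl⟩
    have hGc : ∀ n, Continuous (G n) := by
      intro n
      have h1 : G n = fun α => C₂ * ((2 ^ n : ℕ) : ℝ) ^ 3 * J n α R := funext (hG n)
      rw [h1]
      exact continuous_const.mul ((hJc n).comp (continuous_id.prodMk continuous_const))
    have hG0 : ∀ n α, 0 ≤ G n α := by
      intro n α
      rw [hG]
      exact mul_nonneg (by positivity) (hJ0 _ _ _)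
    obtain ⟨g, hg⟩ : ∃ g : ℕ → ℝ → ℝ, ∀ n α, g n α = G n α ^ (1 / 12 : ℝ) := ⟨_, fun _ _ => rfl⟩
    have hgc : ∀ n, Continuous (g n) := by
      intro n
      have h1 : g n = fun α => G n α ^ (1 / 12 : ℝ) := funext (hg n)
      rw [h1]
      exact (hGc n).rpow_const fun _ => Or.inr (by norm_num)
    have hpt : ∀ n < n1, ∀ α ∈ Icc (-α₀) α₀, ∀ r ∈ Icc (R - 1) (R + 1), ∀ c : ℝ × ℝ,
        ‖LS f (hom (ga H α)) (wr H α) 1 (2 ^ n) r c‖ ≤ g n α ∧ ‖LS f (hom (ga H α)) (fun _ => 1) 2 (2 ^ n) r c‖ ≤ g n α := by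
      intro n hn α hα r hr c
      obtain ⟨hHL, hW1, hW2⟩ := hfam α hα
      rw [hg]
      have key : ∀ z : ℝ, 0 ≤ z → z ^ 12 ≤ G n α → z ≤ G n α ^ (1 / 12 : ℝ) := by
        intro z hz h
        calc z = (z ^ 12) ^ (1 / 12 : ℝ) := by
              rw [← rpow_natCast, ← rpow_mul hz]
              norm_num
          _ ≤ G n α ^ (1 / 12 : ℝ) := rpow_le_rpow (by positivity) h (by norm_num)
      refine ⟨key _ (norm_nonneg _) ?_, key _ (norm_nonneg _) ?_⟩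
      · rw [hG, hJd]
        exact hls f hfb _ hHL _ hW1 1 (by norm_num) (2 ^ n) (hN1 n) R r hr c
      · rw [hG, hJd]
        exact hls f hfb _ hHL _ hW2 2 (by norm_num) (2 ^ n) (hN1 n) R r hr c
    have hmain := hlp X hXR1 n1 hn1a R hR g (fun n _ => (hgc n).continuousOn.integrableOn_compact isCompact_Icc) hpt
    obtain ⟨I, hI⟩ : ∃ I : ℕ → ℝ, ∀ n, I n = ∫ α in Icc (-α₀) α₀, κ n α * g n α := ⟨_, fun _ => rfl⟩
    have hI0 : ∀ n, 0 ≤ I n := by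
      intro n
      rw [hI]
      refine integral_nonneg fun α => mul_nonneg (hκ0 n α) ?_
      rw [hg]
      exact rpow_nonneg (hG0 n α) _
    obtain ⟨y, hy⟩ : ∃ y : ℕ → ℝ, ∀ n, y n = X ^ (1 / 2 : ℝ) * ((2 ^ n : ℕ) : ℝ) ^ (-(3 / 2) : ℝ) * I n + 1 := ⟨_, fun _ => rfl⟩
    have hy0 : ∀ n, 0 ≤ y n := by
      intro n
      rw [hy]
      have := hI0 n
      have := hNr1 n
      positivity
    have hyt : ∀ n ∈ Finset.range n1, y n ^ 12 ≤ K * (C₂ * (X ^ 6 * P n R / ((2 ^ n : ℕ) : ℝ) ^ 15) + 2 * X ^ 6) := by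
      intro n _
      have hA0 : 0 ≤ C₂ * ((2 ^ n : ℕ) : ℝ) ^ 3 * P n R := mul_nonneg (by positivity) (hP0 n R)
      obtain ⟨l, hl⟩ : ∃ l : ℝ, l = (C₂ * ((2 ^ n : ℕ) : ℝ) ^ 3 * P n R + 1) ^ (1 / 12 : ℝ) := ⟨_, rfl⟩
      have hl0 : 0 < l := by
        rw [hl]
        positivity
      have hl12 : l ^ 12 = C₂ * ((2 ^ n : ℕ) : ℝ) ^ 3 * P n R + 1 := by
        rw [hl, ← rpow_natCast, ← rpow_mul (by linarith)]
        norm_num
      rw [hy, hK]
      refine term_e2 hX1 (hNr1 n) (hI0 n) ?_ hl12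
      rw [hI]
      simp only [hg]
      refine hold_e2 (hκc n) (hκ0 n) (hGc n) (hG0 n) (hκ1 n) hl0 ?_
      have h2 : ∫ α in Icc (-α₀) α₀, κ n α * G n α = C₂ * ((2 ^ n : ℕ) : ℝ) ^ 3 * P n R := by
        rw [hPd, ← integral_const_mul]
        refine integral_congr_ae (Eventually.of_forall fun α => ?_)
        simp only
        rw [hG]
        ring
      rw [h2, hl12]
      linarith
    have hx0 : 0 ≤ X ^ (1 / 2 + e) := by positivity
    refine sup12_le (y := C₃ * (X ^ (1 / 2 + e) + ∑ n ∈ Finset.range n1, y n)) (fun c => ?_) ?_ ?_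
    · have h1 := hmain c
      have h2 : (1 : ℝ) - (1 / 2 - e) = 1 / 2 + e := by ring
      rw [h2] at h1
      simp only [← hκd, ← hI, ← hy] at h1
      exact h1
    · exact mul_nonneg hC₃.le (add_nonneg hx0 (Finset.sum_nonneg fun n _ => hy0 n))
    · rw [mul_pow, hΦd]
      refine mul_le_mul_of_nonneg_left ?_ (by positivity)
      refine (psum_e2 hx0 hy0).trans (mul_le_mul_of_nonneg_left ?_ (by positivity))
      have h3 : (X ^ (1 / 2 + e)) ^ 12 = X ^ (6 + 12 * e) := by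
        rw [← rpow_natCast, ← rpow_mul hX0.le]
        congr 1
        push_cast
        ring
      rw [h3]
      exact add_le_add le_rfl (Finset.sum_le_sum hyt)
  calc ∫⁻ R in Icc X (2 * X), sup12 (fun c R => cntc (Hf H f) c R - area (Hf H f) * R ^ 2) R ≤
        ∫⁻ R in Icc X (2 * X), ENNReal.ofReal (Φ R) := setLIntegral_mono' measurableSet_Icc hpoint
    _ = ENNReal.ofReal (∫ R in Icc X (2 * X), Φ R) := by
        rw [ofReal_integral_eq_lintegral_ofReal (hΦc.continuousOn.integrableOn_compact isCompact_Icc) (Eventually.of_forall hΦ0)]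
    _ ≤ _ := ENNReal.ofReal_le_ofReal hΦint

end Pool.Agent.Helper92.LA
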