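import Pool.Agent.Helper92.LA.E2

/-!
# LA-E4: the twentieth mean over the radii of the supremum over the centres, one dyadic interval

`L²⁰ = (sup)⁸ L¹²`; the supremum is bounded by `N²` and by the twelfth moment over all radii.
-/

open MeasureTheory Real Set Filter Topology

set_option autoImplicit false

namespace Pool.Agent.Helper92.LA

open Pool.Agent.Helper22.AE
open Pool.Agent.Helper22.AC (cntc ga)
open Pool.Agent.Helper22.OV (o3_k0_cont o3_k0_nonneg cntc_bdd)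
open Pool.Agent.Helper92.GC
open Pool.Agent.Helper92.DT
open Pool.Agent.Helper22.LP (Fr fv fk fdet cp nr tr hom LS wr Hf Hf_isSupp nr_eq nr_pos)

/-- the reduction to the sums `LS` at two radii -/
def LPT (H : ℝ → ℝ) (f : Fr) : Prop := ∀ τ e2 α₀ : ℝ, 0 < τ → τ < 1 → 0 < e2 → 0 < α₀ → α₀ < π / 2 →
  ∃ C R₁ κ₀ : ℝ, 0 < C ∧ 1 ≤ R₁ ∧ 0 < κ₀ ∧ ∀ R₀ : ℝ, R₁ ≤ R₀ → ∀ n1 : ℕ, R₀ ^ (τ + e2) ≤ 2 ^ n1 → ∀ R ∈ Icc R₀ (2 * R₀),
    ∀ g : ℕ → ℝ → ℝ, (∀ n < n1, IntegrableOn (g n) (Icc (-α₀) α₀)) →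
    (∀ n < n1, ∀ α ∈ Icc (-α₀) α₀, ∀ r : ℝ, (r = R + κ₀ * R₀ ^ (-τ) ∨ r = R - κ₀ * R₀ ^ (-τ)) → ∀ c : ℝ × ℝ,
      ‖LS f (hom (ga H α)) (wr H α) 1 (2 ^ n) r c‖ ≤ g n α ∧ ‖LS f (hom (ga H α)) (fun _ => 1) 2 (2 ^ n) r c‖ ≤ g n α) →
    ∀ c : ℝ × ℝ, |cntc (Hf H f) c R - area (Hf H f) * R ^ 2| ≤
      C * (R₀ ^ (1 - τ) + ∑ n ∈ Finset.range n1, (R₀ ^ (1 / 2 : ℝ) * ((2 ^ n : ℕ) : ℝ) ^ (-(3 / 2) : ℝ) *
        (∫ α in Icc (-α₀) α₀, k0 (1 / sqrt (R₀ * (2 ^ n : ℕ))) α * g n α) + 1))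

/-- the twelfth moment over the centres -/
noncomputable def MR (f : Fr) (h : ℝ × ℝ → ℝ) (r : ℝ) (N : ℕ) : ℝ := m12 (sqa N) (fun k => ee (r * h (fk f k)))

theorem MR_nonneg (f : Fr) (h : ℝ × ℝ → ℝ) (r : ℝ) (N : ℕ) : 0 ≤ MR f h r N := m12_nonneg _ _

theorem MR_cont {h : ℝ → ℝ × ℝ → ℝ} (hc : Continuous fun q : ℝ × (ℝ × ℝ) => h q.1 q.2) (f : Fr) (N : ℕ) :
    Continuous fun q : ℝ × ℝ => MR f (h q.1) q.2 N := by
  unfold MR
  refine m12_cont_coef (sqa N) (fun (q : ℝ × ℝ) k => ee (q.2 * h q.1 (fk f k))) fun k _ => ?_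
  refine ee_cont.comp (continuous_snd.mul ?_)
  exact hc.comp (continuous_fst.prodMk continuous_const)

theorem MR_int (f : Fr) (h : ℝ × ℝ → ℝ) (N : ℕ) {X s : ℝ} (hX : 4 ≤ X) (hs : |s| ≤ 2) : ∫ R in Icc X (2 * X), MR f h (R + s) N ≤ JJ f h X N := by
  obtain ⟨G, hG⟩ : ∃ G : ℝ → ℝ, G = fun r => m12 (sqa N) (fun k => ee (r * h (fk f k))) := ⟨_, rfl⟩
  have hGc : Continuous G := by
    rw [hG]
    refine m12_cont_coef (sqa N) (fun (r : ℝ) k => ee (r * h (fk f k))) fun k _ => ?_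
    exact ee_cont.comp (continuous_id.mul continuous_const)
  have hG0 : ∀ r, 0 ≤ G r := by
    intro r
    rw [hG]
    exact m12_nonneg _ _
  have hJ : JJ f h X N = ∫ r in Icc (X / 4) (8 * X), G r := by
    unfold JJ
    rw [hG]
  have hM : ∀ R, MR f h (R + s) N = G (R + s) := by
    intro R
    unfold MR
    rw [hG]
  obtain ⟨hs1, hs2⟩ := abs_le.1 hs
  simp only [hM]
  rw [hJ, integral_Icc_eq_integral_Ioc, ← intervalIntegral.integral_of_le (by linarith), intervalIntegral.integral_comp_add_right,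
    intervalIntegral.integral_of_le (by linarith), ← integral_Icc_eq_integral_Ioc]
  refine setIntegral_mono_set ?_ (Eventually.of_forall hG0) (Eventually.of_forall ?_)
  · exact hGc.continuousOn.integrableOn_compact isCompact_Icc
  · intro x hx
    constructor
    · linarith [hx.1]
    · linarith [hx.2]

private theorem card_e4 {N : ℕ} (hN : 1 ≤ N) : ((S6 (sqa N)).card : ℝ) ≤ 625 * (N : ℝ) ^ 2 := by
  have hNr : (1 : ℝ) ≤ N := by exact_mod_cast hN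
  have hmem : ∀ p ∈ sqa N, (-(2 * N : ℤ) ≤ p.1 ∧ p.1 ≤ 2 * N) ∧ (-(2 * N : ℤ) ≤ p.2 ∧ p.2 ≤ 2 * N) := by
    classical
    intro p hp
    unfold sqa at hp
    obtain ⟨-, -, h2, h3⟩ := Finset.mem_filter.1 hp
    have a1 := abs_le.1 h2.le
    have a2 := abs_le.1 h3.le
    exact ⟨a1, a2⟩
  have h3 : ∀ l ∈ S3 (sqa N), (-(6 * N : ℤ) ≤ l.1 ∧ l.1 ≤ 6 * N) ∧ (-(6 * N : ℤ) ≤ l.2 ∧ l.2 ≤ 6 * N) := by
    intro l hl
    unfold S3 at hl
    rw [Finset.mem_image] at hl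
    obtain ⟨k, hk, rfl⟩ := hl
    rw [Finset.mem_product, Finset.mem_product] at hk
    obtain ⟨hk1, hk2, hk3⟩ := hk
    have a1 := hmem _ hk1
    have a2 := hmem _ hk2
    have a3 := hmem _ hk3
    simp only [Prod.fst_add, Prod.snd_add]
    omega
  have hsub : S6 (sqa N) ⊆ Finset.Icc (-(12 * N : ℤ)) (12 * N) ×ˢ Finset.Icc (-(12 * N : ℤ)) (12 * N) := by
    intro l hl
    unfold S6 at hl
    rw [Finset.mem_image] at hl
    obtain ⟨k, hk, rfl⟩ := hl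
    rw [Finset.mem_product] at hk
    obtain ⟨hk1, hk2⟩ := hk
    have a1 := h3 _ hk1
    have a2 := h3 _ hk2
    rw [Finset.mem_product, Finset.mem_Icc, Finset.mem_Icc]
    simp only [Prod.fst_add, Prod.snd_add]
    omega
  have h1 := Finset.card_le_card hsub
  have h2 : (Finset.Icc (-(12 * N : ℤ)) (12 * N)).card = 24 * N + 1 := by
    rw [Int.card_Icc]
    omega
  rw [Finset.card_product, h2] at h1
  have h4 : ((S6 (sqa N)).card : ℝ) ≤ (24 * (N : ℝ) + 1) * (24 * (N : ℝ) + 1) := by exact_mod_cast h1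
  nlinarith

/-- the pointwise bound by the moment over the centres at the same radius -/
theorem ls_pt {M B : ℝ} (hM : 1 ≤ M) : ∃ C : ℝ, 0 < C ∧ ∀ f : Fr, Fb M f → ∀ h : ℝ × ℝ → ℝ, HL B h → ∀ w : ℝ × ℝ → ℂ, WL B w →
    ∀ i : ℕ, i ≤ 2 → ∀ N : ℕ, 1 ≤ N → ∀ r : ℝ, ∀ c : ℝ × ℝ, ‖LS f h w i N r c‖ ^ 12 ≤ C * (N : ℝ) ^ 2 * MR f h r N := by
  obtain ⟨C, hC, hmul⟩ := ls_mul (M := M) (B := B) hM
  refine ⟨625 * C ^ 12, by positivity, ?_⟩
  intro f hf h hh w hw i hi N hN r c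
  have hNr : (1 : ℝ) ≤ N := by exact_mod_cast hN
  have hcard := card_e4 hN
  have h2 := (hmul f hf h hh w hw i hi N hN 0 (by rw [abs_zero]; positivity)).2 (fun k => ee (r * h (fk f k)))
  have h3 : LS f h w i N r c = tp (sqa N) (fun k => (((N : ℝ) / nr (fk f k) : ℝ) : ℂ) ^ i * w (fk f k) *
      ee (0 * h (fk f k)) * ee (r * h (fk f k))) c := by
    unfold LS tp
    refine Finset.sum_congr rfl fun k _ => ?_
    have h4 : ee (r * h (fk f k) + dt k c) = ee (0 * h (fk f k)) * ee (r * h (fk f k)) * ee (dt k c) := by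
      rw [← ee_add, ← ee_add]
      congr 1
      ring
    rw [h4]
    ring
  rw [h3]
  refine (nik12 _ _ _).trans ?_
  calc ((S6 (sqa N)).card : ℝ) * m12 (sqa N) (fun k => (((N : ℝ) / nr (fk f k) : ℝ) : ℂ) ^ i * w (fk f k) *
      ee (0 * h (fk f k)) * ee (r * h (fk f k))) ≤ 625 * (N : ℝ) ^ 2 * (C ^ 12 * MR f h r N) :=
        mul_le_mul hcard h2 (m12_nonneg _ _) (by positivity)
    _ = _ := by ring

/-- the exponent of the bound of the twelfth moment -/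
noncomputable def mue (x n : ℝ) : ℝ := max (12 * n) (39 / 2 * n - 5 / 2 * x)

open Classical in
/-- the exponent of the bound of a block -/
noncomputable def bxe (x n e : ℝ) : ℝ := if n ≤ x / 9 then x / 2 + n / 2 else x / 2 - 3 / 2 * n + (3 * n + (1 + e) * x + mue x n) / 12

/-- the supremum over the centres of the error, to the power twenty -/
noncomputable def sup20 (E : ℝ × ℝ → ℝ → ℝ) (R : ℝ) : ENNReal := (⨆ c : ℝ × ℝ, ENNReal.ofReal |E c R|) ^ 20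

theorem sup20_le {E : ℝ × ℝ → ℝ → ℝ} {R y Φ : ℝ} (h : ∀ c, |E c R| ≤ y) (hy : 0 ≤ y) (hΦ : y ^ 20 ≤ Φ) : sup20 E R ≤ ENNReal.ofReal Φ := by
  unfold sup20
  have h1 : (⨆ c : ℝ × ℝ, ENNReal.ofReal |E c R|) ≤ ENNReal.ofReal y := iSup_le fun c => ENNReal.ofReal_le_ofReal (h c)
  calc (⨆ c : ℝ × ℝ, ENNReal.ofReal |E c R|) ^ 20 ≤ (ENNReal.ofReal y) ^ 20 := pow_le_pow_left' h1 20
    _ = ENNReal.ofReal (y ^ 20) := (ENNReal.ofReal_pow hy 20).symm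
    _ ≤ ENNReal.ofReal Φ := ENNReal.ofReal_le_ofReal hΦ

end Pool.Agent.Helper92.LA
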